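import Pool.Agent.TH423.PO.Stm

/-!
Columns for all left colourings (helper713).
-/

set_option autoImplicit false

open Finset

namespace Pool.Agent.TH423.PO

open Pool.Agent.TH423.SH (dd)

namespace CCPa

lemma cop_lt (W x y m Y i i' : ℕ) (hmx : 2 * W * m * x ≤ y) (hmod : y % W = 1 % W)
    (hcop : x.Coprime y) (hY : m + 1 ≤ Y) (hi' : i' < m) (hii : i < i')
    (hq : ∀ q : ℕ, q.Prime → q ∣ dd W x y i → Y < q) :
    (dd W x y i).Coprime (dd W x y i') := by
  rw [Nat.coprime_iff_gcd_eq_one]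
  by_contra hcon
  obtain ⟨q, hqp, hqd⟩ := Nat.exists_prime_and_dvd hcon
  have h1 : q ∣ dd W x y i := hqd.trans (Nat.gcd_dvd_left _ _)
  have h2 : q ∣ dd W x y i' := hqd.trans (Nat.gcd_dvd_right _ _)
  have hYq := hq q hqp h1
  have hle' : W * (i' + 1) * x ≤ y := by
    refine le_trans ?_ hmx
    calc W * (i' + 1) * x ≤ W * (2 * m) * x :=
          Nat.mul_le_mul_right _ (Nat.mul_le_mul_left _ (by omega))
      _ = 2 * W * m * x := by ring
  have hle : W * (i + 1) * x ≤ y := by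
    refine le_trans ?_ hle'
    exact Nat.mul_le_mul_right _ (Nat.mul_le_mul_left _ (by omega))
  have e1 : dd W x y i + W * (i + 1) * x = y := by unfold dd; omega
  have e2 : dd W x y i' + W * (i' + 1) * x = y := by unfold dd; omega
  obtain ⟨s, hs⟩ : ∃ s, i' = i + s := ⟨i' - i, by omega⟩
  have e3 : dd W x y i = dd W x y i' + W * s * x := by
    have : W * (i' + 1) * x = W * (i + 1) * x + W * s * x := by rw [hs]; ring
    omega
  have h3 : q ∣ W * s * x := by
    rw [e3] at h1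
    exact (Nat.dvd_add_right h2).mp h1
  have hqx : q ∣ x → False := by
    intro h
    have h4 : q ∣ y := by
      rw [← e1]
      exact dvd_add h1 (h.mul_left _)
    have h5 := Nat.dvd_gcd h h4
    rw [hcop] at h5
    exact hqp.one_lt.ne' (Nat.dvd_one.mp h5)
  have hqW : q ∣ W → False := by
    intro h
    have h4 : q ∣ y := by
      rw [← e1]
      exact dvd_add h1 ((h.mul_right _).mul_right _)
    have h6 : y ≡ 1 [MOD q] := Nat.ModEq.of_dvd h hmod
    have h7 : y ≡ 0 [MOD q] := (Nat.modEq_zero_iff_dvd).mpr h4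
    have h8 : (1 : ℕ) ≡ 0 [MOD q] := h6.symm.trans h7
    rw [Nat.modEq_zero_iff_dvd] at h8
    exact hqp.one_lt.ne' (Nat.dvd_one.mp h8)
  have hqs : q ∣ s → False := by
    intro h
    have := Nat.le_of_dvd (by omega) h
    omega
  rcases (hqp.dvd_mul).mp h3 with h | h
  · rcases (hqp.dvd_mul).mp h with h | h
    · exact hqW h
    · exact hqs h
  · exact hqx h

end CCPa

open CCPa

theorem ccp (h : Pool.Agent.TH423.SH.MSP) : CCP := by
  intro k M hk hM A B _ _
  classical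
  obtain ⟨K, hK⟩ : ∃ K : ℕ, K = k + Fintype.card B := ⟨_, rfl⟩
  obtain ⟨m, W₀, hm, hW₀, -, H⟩ := h K M (by omega) hM
  refine ⟨m, W₀, hm, hW₀, ?_⟩
  intro W hWW hW
  obtain ⟨N, hN⟩ : ∃ N : ℕ, N = Fintype.card (Fin m → A) := ⟨_, rfl⟩
  obtain ⟨Bd, Y₀, hBd, H⟩ := H W hWW hW N
  refine ⟨Bd, max Y₀ (m + 1), hBd, ?_⟩
  intro Y hY w
  haveI : NeZero k := ⟨by omega⟩
  have hYm : m + 1 ≤ Y := (le_max_right _ _).trans hY
  have e : (Fin m → A) ≃ Fin N := Fintype.equivFinOfCardEq hN.symm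
  have f : B ≃ Fin (Fintype.card B) := Fintype.equivFin B
  have hBK : Fintype.card B ≤ K := by omega
  obtain ⟨x, y, u, Hx⟩ := H Y ((le_max_left _ _).trans hY) (fun _ _ => univ)
    (fun j t i => if hh : j < N ∧ (t : ℕ) < Fintype.card B then
      ⟨(w (e.symm ⟨j, hh.1⟩ i) (f.symm ⟨t, hh.2⟩) - 2).val,
        (ZMod.val_lt _).trans_le (by omega)⟩ else ⟨0, by omega⟩)
    (by intro j t; rw [card_univ, Fintype.card_fin]; omega)
  refine ⟨fun z => x (e z), fun z => y (e z), fun z β => u (e z) (Fin.castLE hBK (f β)),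
    ?_, ?_, ?_⟩
  · intro z
    obtain ⟨h1, h2, h3, h4, h5, -, -⟩ := Hx (e z) (e z).2
    exact ⟨h1, h2, h3, h4, h5⟩
  · intro z β
    obtain ⟨-, -, -, -, -, h6, -⟩ := Hx (e z) (e z).2
    obtain ⟨-, h7, h8, h9⟩ := h6 (Fin.castLE hBK (f β))
    refine ⟨h7, ?_, h9⟩
    beta_reduce
    rw [h8]
    have hh : ((e z : Fin N) : ℕ) < N ∧ ((Fin.castLE hBK (f β) : Fin K) : ℕ) < Fintype.card B :=
      ⟨(e z).2, (f β).2⟩
    rw [dif_pos hh]
    have e1 : (⟨((e z : Fin N) : ℕ), hh.1⟩ : Fin N) = e z := rfl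
    have e2 : (⟨((Fin.castLE hBK (f β) : Fin K) : ℕ), hh.2⟩ : Fin (Fintype.card B)) = f β := rfl
    simp only [e1, e2, Equiv.symm_apply_apply]
    push_cast
    rw [ZMod.natCast_zmod_val]
    ring
  · intro z β z' β' hne
    by_cases hz : z = z'
    · subst hz
      beta_reduce
      obtain ⟨h1, h2, h3, h4, h5, h6, -⟩ := Hx (e z) (e z).2
      have hu : u (e z) (Fin.castLE hBK (f β)) ≠ u (e z) (Fin.castLE hBK (f β')) := by
        intro hcon
        apply hne
        beta_reduce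
        rw [hcon]
      rcases Nat.lt_or_gt_of_ne (fun hcon => hu (Fin.ext hcon)) with hlt | hlt
      · exact cop_lt W _ _ m Y _ _ h5 h3 h4 hYm (Fin.is_lt _) hlt
          (fun q hqp hqd => ((h6 _).2.2.2 q hqp hqd).2)
      · exact (cop_lt W _ _ m Y _ _ h5 h3 h4 hYm (Fin.is_lt _) hlt
          (fun q hqp hqd => ((h6 _).2.2.2 q hqp hqd).2)).symm
    · have hez : ((e z : Fin N) : ℕ) ≠ (e z' : Fin N) := fun hcon => hz (e.injective (Fin.ext hcon))
      rcases Nat.lt_or_gt_of_ne hez with hlt | hlt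
      · exact ((Hx (e z') (e z').2).2.2.2.2.2.2 _ hlt _ _).symm
      · exact (Hx (e z) (e z).2).2.2.2.2.2.2 _ hlt _ _

end Pool.Agent.TH423.PO
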