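import Pool.Agent.TH423.PO.Stm
import Pool.Agent.TH423.GB.Count
import Pool.Agent.H661R3.OP.SV

/-!
Goldbach's problem: one cannot miss a pair of classes `(v g + g, v g)` of `Ω` modulo `k` for every
`g` (counting version).
-/

set_option autoImplicit false

open Finset

namespace Pool.Agent.TH423.PO

open Pool.Agent.H661R3.OP (Rough)
open Pool.Agent.TH423.SH (dd)

namespace GC

open Pool.Agent.TH423.DS (Rough.mul)
open Pool.Agent.TH423.GB (exists_x0)

/-- one representation -/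
theorem rep {k : ℕ} (v : ZMod k → ZMod k) {Y N L R d S T : ℕ} (hd : 0 < d) (hdL : d ∣ L)
    (hdR : d ∣ R) (hL : 0 < L) (hR : 0 < R) (hS : 0 < S) (hT : 0 < T)
    (hLr : Rough Y (L : ℤ)) (hRr : Rough Y (R : ℤ)) (hSr : Rough Y (S : ℤ))
    (hTr : Rough Y (T : ℤ)) (hEq : L * S + R * T = d * N)
    (hw : ((ArithmeticFunction.cardFactors d : ℕ) : ZMod k) =
      ((ArithmeticFunction.cardFactors T : ℕ) : ZMod k) +
        ((ArithmeticFunction.cardFactors R : ℕ) : ZMod k) -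
        v (((ArithmeticFunction.cardFactors L : ℕ) : ZMod k) +
          ((ArithmeticFunction.cardFactors S : ℕ) : ZMod k) -
          ((ArithmeticFunction.cardFactors T : ℕ) : ZMod k) -
          ((ArithmeticFunction.cardFactors R : ℕ) : ZMod k))) :
    L / d * S ∈ EXG k v Y N := by
  obtain ⟨l, rfl⟩ := hdL
  obtain ⟨r, rfl⟩ := hdR
  have hl : 0 < l := Nat.pos_of_mul_pos_left hL
  have hr : 0 < r := Nat.pos_of_mul_pos_left hR
  have hN : l * S + r * T = N := by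
    apply Nat.eq_of_mul_eq_mul_left hd
    rw [← hEq]
    ring
  have hlS : 0 < l * S := Nat.mul_pos hl hS
  have hrT : 0 < r * T := Nat.mul_pos hr hT
  have hsub : N - l * S = r * T := by omega
  have hlr : Rough Y (l : ℤ) := fun p hp hpY h => hLr p hp hpY (by push_cast; exact h.mul_left _)
  have hrr : Rough Y (r : ℤ) := fun p hp hpY h => hRr p hp hpY (by push_cast; exact h.mul_left _)
  rw [Nat.mul_div_cancel_left _ hd]
  rw [ArithmeticFunction.cardFactors_mul hd.ne' hl.ne',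
    ArithmeticFunction.cardFactors_mul hd.ne' hr.ne'] at hw
  refine ⟨hlS, by omega, ?_, ?_, ((ArithmeticFunction.cardFactors (d * l) : ℕ) : ZMod k) +
          ((ArithmeticFunction.cardFactors S : ℕ) : ZMod k) -
          ((ArithmeticFunction.cardFactors T : ℕ) : ZMod k) -
          ((ArithmeticFunction.cardFactors (d * r) : ℕ) : ZMod k), ?_, ?_⟩
  · push_cast
    exact Rough.mul hlr hSr
  · rw [hsub]
    push_cast
    exact Rough.mul hrr hTr
  · rw [ArithmeticFunction.cardFactors_mul hl.ne' hS.ne',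
      ArithmeticFunction.cardFactors_mul hd.ne' hl.ne',
      ArithmeticFunction.cardFactors_mul hd.ne' hr.ne']
    push_cast at hw ⊢
    linear_combination -hw
  · rw [hsub, ArithmeticFunction.cardFactors_mul hr.ne' hT.ne',
      ArithmeticFunction.cardFactors_mul hd.ne' hl.ne',
      ArithmeticFunction.cardFactors_mul hd.ne' hr.ne']
    push_cast at hw ⊢
    linear_combination -hw

/-- the window -/
theorem window {N a₁ a₂ W m T x0 t : ℤ} (hW : 0 < W) (hm : 1 ≤ m) (ha : 0 < a₁)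
    (h12 : a₂ = a₁ + W * m) (hT : T * (a₂ * a₂) ≤ N)
    (h1 : (N / a₂ - x0) / W + 1 ≤ t) (h2 : t < (N / a₂ - x0) / W + 1 + T) :
    N < a₂ * (x0 + W * t) ∧ a₁ * (x0 + W * t) < N := by
  have hWm : 0 < W * m := by positivity
  have ha2 : 0 < a₂ := by rw [h12]; positivity
  obtain ⟨D, hD⟩ : ∃ D : ℤ, D = N / a₂ := ⟨_, rfl⟩
  rw [← hD] at h1 h2
  have hD1 : a₂ * D ≤ N := by rw [hD]; exact Int.mul_ediv_self_le ha2.ne'
  have hD2 : N < a₂ * D + a₂ := by rw [hD]; exact Int.lt_mul_ediv_self_add ha2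
  obtain ⟨q, hq⟩ : ∃ q : ℤ, q = (D - x0) / W := ⟨_, rfl⟩
  rw [← hq] at h1 h2
  have hq1 : W * q ≤ D - x0 := by rw [hq]; exact Int.mul_ediv_self_le hW.ne'
  have hq2 : D - x0 < W * q + W := by rw [hq]; exact Int.lt_mul_ediv_self_add hW
  have hTp : 0 < T := by linarith
  have e1 : W * (q + 1) ≤ W * t := mul_le_mul_of_nonneg_left h1 hW.le
  have e2 : W * t ≤ W * (q + T) := mul_le_mul_of_nonneg_left (by linarith) hW.le
  have h3 : D + 1 ≤ x0 + W * t := by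
    have : D < x0 + W * t := by nlinarith
    linarith
  have h4 : x0 + W * t ≤ D + W * T := by nlinarith
  constructor
  · have := mul_le_mul_of_nonneg_left h3 ha2.le
    nlinarith
  · have h5 : a₁ * (x0 + W * t) ≤ a₁ * (D + W * T) := mul_le_mul_of_nonneg_left h4 ha.le
    refine lt_of_le_of_lt h5 ?_
    by_contra hcon
    push Not at hcon
    have h6 : a₂ * N ≤ a₂ * (a₁ * (D + W * T)) := mul_le_mul_of_nonneg_left hcon ha2.le
    have h7 : a₁ * (a₂ * D) ≤ a₁ * N := mul_le_mul_of_nonneg_left hD1 ha.le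
    have h8 : a₂ * N ≤ a₁ * N + W * (a₁ * a₂ * T) := by
      calc a₂ * N ≤ a₂ * (a₁ * (D + W * T)) := h6
        _ = a₁ * (a₂ * D) + W * (a₁ * a₂ * T) := by ring
        _ ≤ _ := by linarith
    have h9 : W * (m * N) ≤ W * (a₁ * a₂ * T) := by
      have : a₂ * N = a₁ * N + W * (m * N) := by rw [h12]; ring
      linarith
    have h10 : m * N ≤ a₁ * a₂ * T := le_of_mul_le_mul_left h9 hW
    have h11 : a₁ * a₂ * T < T * (a₂ * a₂) := by
      have h12' : a₁ < a₂ := by linarith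
      have h13 : a₁ * (a₂ * T) < a₂ * (a₂ * T) := mul_lt_mul_of_pos_right h12' (by positivity)
      calc a₁ * a₂ * T = a₁ * (a₂ * T) := by ring
        _ < a₂ * (a₂ * T) := h13
        _ = T * (a₂ * a₂) := by ring
    have hNp : 0 < N := lt_of_lt_of_le (by positivity) hT
    have h14 : N ≤ m * N := by nlinarith
    linarith

end GC

open GC in
open Pool.Agent.TH423.DS (Rough.mul) in
open Pool.Agent.TH423.GB (exists_x0) in
theorem gct (hC : CCP) (h1 : ST1) : GCT := by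
  classical
  intro k hk
  haveI : NeZero k := ⟨by omega⟩
  obtain ⟨m, W₀, hm, hW₀, HC⟩ := hC k 1 hk le_rfl (ZMod k × ZMod k) (ZMod k × ZMod k)
  obtain ⟨cZ, hcZ⟩ : ∃ c : ℕ, c = Fintype.card (Fin m → ZMod k × ZMod k) := ⟨_, rfl⟩
  obtain ⟨K1, hK1⟩ : ∃ K1 : ℕ, K1 = m + cZ := ⟨_, rfl⟩
  obtain ⟨W₂, hW₂⟩ : ∃ W₂ : ℕ, W₂ = W₀ * (2 * K1 + 2).factorial := ⟨_, rfl⟩
  have hW2pos : 1 ≤ W₂ := by
    rw [hW₂]
    exact Nat.mul_pos hW₀ (Nat.factorial_pos _)
  have hpW : ∀ p : ℕ, p.Prime → p ≤ 2 * K1 → p ∣ W₂ := by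
    intro p hp hpK
    rw [hW₂]
    exact ((hp.dvd_factorial).2 (by omega)).mul_left _
  have hW0W : W₀ ∣ 1 * 1 * W₂ ^ 2 := by
    rw [one_mul, one_mul, sq]
    exact Dvd.dvd.mul_right (by rw [hW₂]; exact Dvd.intro _ rfl) _
  obtain ⟨Bd, Y₁, hBd, HC⟩ := HC (1 * 1 * W₂ ^ 2) hW0W
    (by rw [one_mul, one_mul]; exact Nat.one_le_pow _ _ hW2pos)
  obtain ⟨C1, Y₂, H1⟩ := h1 m (Fin m → ZMod k × ZMod k) 1 1 W₂ Bd le_rfl le_rfl hW2pos
    (one_dvd _) (one_dvd _) (by rw [← hcZ, ← hK1]; exact hpW)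
  obtain ⟨Cs, HS⟩ := Pool.Agent.H661R3.OP.t_SV K1
  refine ⟨2 * C1 + Cs + 3, Y₁ + Y₂ + 2 * W₂ * m + 2 * (m * cZ) + 2, by omega, ?_⟩
  intro Y N hY hN hNe v
  have hY2 : 2 ≤ Y := by omega
  have hY1 : 1 ≤ Y := by omega
  obtain ⟨x, y, u, hxy, hd, hcop⟩ := HC Y (by omega)
    (fun a b => a.2 + b.2 - v (a.1 + b.1 - a.2 - b.2))
  obtain ⟨α, hα1, hα2, hα3, hαd, hαL, hαR⟩ := H1 Y (by omega) x y (fun i z => ∃ β, u z β = i) hxy
    (by
      rintro i z ⟨β, rfl⟩ q hq hqd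
      exact ((hd z β).2.2 q hq hqd).2)
    (by
      rintro i z i' z' ⟨β, rfl⟩ ⟨β', rfl⟩ hne
      exact hcop z β z' β' hne)
  obtain ⟨L, hL⟩ : ∃ L : Fin m → ℕ, ∀ i, L i = α + 1 * W₂ * ((i : ℕ) + 1) := ⟨_, fun _ => rfl⟩
  obtain ⟨R, hR⟩ : ∃ R : (Fin m → ZMod k × ZMod k) → ℕ, ∀ z, R z = 1 * α * W₂ * x z + y z :=
    ⟨_, fun _ => rfl⟩
  obtain ⟨D, hD⟩ : ∃ D : Fin m → (Fin m → ZMod k × ZMod k) → ℕ, ∀ i z,
    D i z = dd (1 * 1 * W₂ ^ 2) (x z) (y z) i := ⟨_, fun _ _ => rfl⟩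
  have hLr : ∀ i, Rough Y (L i : ℤ) := fun i => by rw [hL]; exact_mod_cast hαL i
  have hRr : ∀ z, Rough Y (R z : ℤ) := fun z => by rw [hR]; exact_mod_cast hαR z
  have hLpos : ∀ i, 0 < L i := fun i => by rw [hL]; positivity
  have hxpos : ∀ z, 0 < x z := fun z => (hxy z).1
  have hyx : ∀ z, 2 * W₂ ^ 2 * m * x z ≤ y z := fun z => by
    have := (hxy z).2.2.2.2
    rwa [one_mul, one_mul] at this
  have hypos : ∀ z, 0 < y z := fun z =>
    lt_of_lt_of_le (Nat.mul_pos (Nat.mul_pos (by positivity) hm) (hxpos z)) (hyx z)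
  have hRpos : ∀ z, 0 < R z := fun z => by rw [hR]; have := hypos z; omega
  have hRLD : ∀ i z, R z = W₂ * x z * L i + D i z := by
    intro i z
    rw [hR, hL, hD]
    unfold dd
    have h1 : 1 * 1 * W₂ ^ 2 * ((i : ℕ) + 1) * x z ≤ y z := by
      refine le_trans ?_ (hyx z)
      rw [one_mul, one_mul]
      apply Nat.mul_le_mul_right
      rw [mul_comm 2 (W₂ ^ 2), mul_assoc]
      apply Nat.mul_le_mul_left
      have := i.2
      omega
    zify [h1]
    ring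
  have hRlow : ∀ z, (α + 2 * W₂ * m) * (W₂ * x z) ≤ R z := by
    intro z
    rw [hR]
    have := hyx z
    calc (α + 2 * W₂ * m) * (W₂ * x z) = 1 * α * W₂ * x z + 2 * W₂ ^ 2 * m * x z := by ring
      _ ≤ _ := by omega
  have hLup : ∀ i, L i ≤ α + W₂ * m := by
    intro i
    rw [hL, one_mul]
    have := i.2
    have : W₂ * ((i : ℕ) + 1) ≤ W₂ * m := Nat.mul_le_mul_left _ (by omega)
    omega
  have hLmod : ∀ i, (W₂ : ℤ) ∣ (L i : ℤ) - 1 := by
    intro i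
    have h1 : (α : ℤ) ≡ 1 [ZMOD W₂] := by
      have h2 : α % W₂ = 1 % W₂ := by simpa using hα3
      exact_mod_cast h2
    have h2 : (W₂ : ℤ) ∣ (α : ℤ) - 1 := (Int.modEq_iff_dvd.1 h1.symm)
    have h3 : (L i : ℤ) - 1 = ((α : ℤ) - 1) + W₂ * ((i : ℕ) + 1) := by
      rw [hL]; push_cast; ring
    rw [h3]
    exact dvd_add h2 (Dvd.intro _ rfl)
  obtain ⟨x0, hx0, hy0⟩ := exists_x0 W₂ N hNe
  -- sizes
  obtain ⟨a₂, ha₂⟩ : ∃ a₂ : ℕ, a₂ = α + 2 * W₂ * m := ⟨_, rfl⟩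
  obtain ⟨a₁, ha₁⟩ : ∃ a₁ : ℕ, a₁ = α + W₂ * m := ⟨_, rfl⟩
  have hWm : 0 < W₂ * m := Nat.mul_pos hW2pos hm
  have ha1pos : 0 < a₁ := by omega
  have ha2pos : 0 < a₂ := by
    have : 2 * W₂ * m = 2 * (W₂ * m) := by ring
    omega
  have ha2up : a₂ ≤ Y ^ (C1 + 1) := by
    have h1 : 1 ≤ Y ^ C1 := Nat.one_le_pow _ _ hY1
    calc a₂ = α + 2 * W₂ * m := ha₂
      _ ≤ Y ^ C1 + Y ^ C1 * (2 * W₂ * m) := by
          apply Nat.add_le_add hα2
          exact Nat.le_mul_of_pos_left _ h1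
      _ = Y ^ C1 * (1 + 2 * W₂ * m) := by ring
      _ ≤ Y ^ C1 * Y := Nat.mul_le_mul_left _ (by omega)
      _ = Y ^ (C1 + 1) := by rw [pow_succ]
  obtain ⟨T, hT⟩ : ∃ T : ℕ, T = N / (a₂ * a₂) := ⟨_, rfl⟩
  have hTs : Y ^ Cs ≤ T := by
    rw [hT, Nat.le_div_iff_mul_le (by positivity)]
    refine le_trans ?_ hN
    calc Y ^ Cs * (a₂ * a₂) ≤ Y ^ Cs * (Y ^ (C1 + 1) * Y ^ (C1 + 1)) := by
          apply Nat.mul_le_mul_left
          exact Nat.mul_le_mul ha2up ha2up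
      _ = Y ^ (2 * C1 + Cs + 2) := by ring
      _ ≤ Y ^ (2 * C1 + Cs + 3) := Nat.pow_le_pow_right hY1 (by omega)
  have hTpos : 0 < T := lt_of_lt_of_le (by positivity) hTs
  have hTN : T * (a₂ * a₂) ≤ N := by rw [hT]; exact Nat.div_mul_le_self _ _
  have hNT : N < (a₂ * a₂) * (T + 1) := by rw [hT]; exact Nat.lt_mul_div_succ _ (by positivity)
  obtain ⟨T₀, hT₀⟩ : ∃ T₀ : ℤ, T₀ = ((N : ℤ) / a₂ - x0) / W₂ + 1 := ⟨_, rfl⟩
  -- the sieve
  have hsv := HS (Fin m ⊕ (Fin m → ZMod k × ZMod k))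
    (by rw [Fintype.card_sum, Fintype.card_fin, ← hcZ, ← hK1])
    (Sum.elim (fun i => -((L i : ℤ) * W₂)) (fun z => (R z : ℤ) * W₂))
    (Sum.elim (fun i => (N : ℤ) - L i * x0) (fun z => (R z : ℤ) * x0 - W₂ * x z * N)) Y hY2
    (by
      intro i p hp hpY hdvd
      have hpp := Nat.prime_iff_prime_int.1 hp
      rcases i with i | z
      · simp only [Sum.elim_inl] at hdvd ⊢
        have h2 : (p : ℤ) ∣ W₂ := by
          rcases hpp.dvd_or_dvd ((dvd_neg).1 hdvd) with h | h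
          · exact absurd h (hLr i p hp hpY)
          · exact h
        have h3 : p ≤ W₂ := Nat.le_of_dvd hW2pos (Int.natCast_dvd_natCast.1 h2)
        intro h4
        apply hy0 p hp h3
        have h5 : (N : ℤ) - x0 = ((N : ℤ) - L i * x0) + ((L i : ℤ) - 1) * x0 := by ring
        rw [h5]
        exact dvd_add h4 ((h2.trans (hLmod i)).mul_right _)
      · simp only [Sum.elim_inr] at hdvd ⊢
        have h2 : (p : ℤ) ∣ W₂ := by
          rcases hpp.dvd_or_dvd hdvd with h | h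
          · exact absurd h (hRr z p hp hpY)
          · exact h
        have h3 : p ≤ W₂ := Nat.le_of_dvd hW2pos (Int.natCast_dvd_natCast.1 h2)
        intro h4
        have h5 : (p : ℤ) ∣ (R z : ℤ) * x0 := by
          have : (R z : ℤ) * x0 = ((R z : ℤ) * x0 - W₂ * x z * N) + W₂ * (x z * N) := by ring
          rw [this]
          exact dvd_add h4 (h2.mul_right _)
        rcases hpp.dvd_or_dvd h5 with h | h
        · exact hRr z p hp hpY h
        · exact hx0 p hp h3 h)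
    (by
      intro i p hp hpK
      have h2 : (p : ℤ) ∣ W₂ := Int.natCast_dvd_natCast.2 (hpW p hp hpK)
      rcases i with i | z
      · simp only [Sum.elim_inl]
        exact (dvd_neg).2 (h2.mul_left _)
      · simp only [Sum.elim_inr]
        exact h2.mul_left _)
    T₀ T hTs
  obtain ⟨G, hG⟩ : ∃ G : Set ℤ, G = {t : ℤ | T₀ ≤ t ∧ t < T₀ + T ∧ ∀ i, Rough Y ((Sum.elim
    (fun i => -((L i : ℤ) * W₂)) (fun z => (R z : ℤ) * W₂) :
      Fin m ⊕ (Fin m → ZMod k × ZMod k) → ℤ) i * t +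
    (Sum.elim (fun i => (N : ℤ) - L i * x0) (fun z => (R z : ℤ) * x0 - W₂ * x z * N) :
      Fin m ⊕ (Fin m → ZMod k × ZMod k) → ℤ) i)} := ⟨_, rfl⟩
  rw [← hG] at hsv
  -- the values of the forms
  have hGv : ∀ t ∈ G, (∀ i, 0 < (N : ℤ) - L i * (x0 + W₂ * t) ∧
      Rough Y ((N : ℤ) - L i * (x0 + W₂ * t))) ∧
      ∀ z, 0 < (R z : ℤ) * (x0 + W₂ * t) - W₂ * x z * N ∧
        Rough Y ((R z : ℤ) * (x0 + W₂ * t) - W₂ * x z * N) := by
    intro t ht
    rw [hG] at ht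
    obtain ⟨ht1, ht2, ht3⟩ := ht
    have hr1 := fun i => ht3 (Sum.inl i)
    have hr2 := fun z => ht3 (Sum.inr z)
    simp only [Sum.elim_inl, Sum.elim_inr] at hr1 hr2
    rw [hT₀] at ht1 ht2
    have hwin := window (N := (N : ℤ)) (a₁ := (a₁ : ℤ)) (a₂ := (a₂ : ℤ)) (W := (W₂ : ℤ))
      (m := (m : ℤ)) (T := (T : ℤ)) (x0 := x0) (t := t) (by exact_mod_cast hW2pos)
      (by exact_mod_cast hm) (by exact_mod_cast ha1pos)
      (by rw [ha₁, ha₂]; push_cast; ring) (by exact_mod_cast hTN) ht1 ht2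
    obtain ⟨hw1, hw2⟩ := hwin
    have hNpos : (0 : ℤ) ≤ N := Nat.cast_nonneg N
    have ha2z : (0 : ℤ) < a₂ := by exact_mod_cast ha2pos
    have hδ : 0 < x0 + W₂ * t := by
      by_contra hcon
      push Not at hcon
      have := mul_nonpos_of_nonneg_of_nonpos ha2z.le hcon
      linarith
    refine ⟨fun i => ⟨?_, ?_⟩, fun z => ⟨?_, ?_⟩⟩
    · have h2 : (L i : ℤ) ≤ a₁ := by rw [ha₁]; exact_mod_cast hLup i
      have h3 := mul_le_mul_of_nonneg_right h2 hδ.le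
      linarith
    · have h2 := hr1 i
      have h3 : -((L i : ℤ) * W₂) * t + ((N : ℤ) - L i * x0) =
        (N : ℤ) - L i * (x0 + W₂ * t) := by ring
      rwa [h3] at h2
    · have h2 : (a₂ : ℤ) * (W₂ * x z) ≤ R z := by rw [ha₂]; exact_mod_cast hRlow z
      have h3 := mul_le_mul_of_nonneg_right h2 hδ.le
      have h4 : (0 : ℤ) < W₂ * x z := by
        have := hxpos z
        exact_mod_cast Nat.mul_pos hW2pos this
      have h5 := mul_lt_mul_of_pos_left hw1 h4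
      have h6 : (a₂ : ℤ) * (W₂ * x z) * (x0 + W₂ * t) = W₂ * x z * (a₂ * (x0 + W₂ * t)) := by
        ring
      linarith
    · have h2 := hr2 z
      have h3 : (R z : ℤ) * W₂ * t + ((R z : ℤ) * x0 - W₂ * x z * N) =
        (R z : ℤ) * (x0 + W₂ * t) - W₂ * x z * N := by ring
      rwa [h3] at h2
  -- the maps
  obtain ⟨Tf, hTf⟩ : ∃ Tf : Fin m → ℤ → ℕ, ∀ i t, Tf i t = ((N : ℤ) - L i * (x0 + W₂ * t)).toNat :=
    ⟨_, fun _ _ => rfl⟩
  obtain ⟨Sf, hSf⟩ : ∃ Sf : (Fin m → ZMod k × ZMod k) → ℤ → ℕ, ∀ z t,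
    Sf z t = ((R z : ℤ) * (x0 + W₂ * t) - W₂ * x z * N).toNat := ⟨_, fun _ _ => rfl⟩
  obtain ⟨zf, hzf⟩ : ∃ zf : ℤ → (Fin m → ZMod k × ZMod k), ∀ t i,
    zf t i = (((ArithmeticFunction.cardFactors (L i) : ℕ) : ZMod k),
      ((ArithmeticFunction.cardFactors (Tf i t) : ℕ) : ZMod k)) :=
    ⟨fun t i => _, fun _ _ => rfl⟩
  obtain ⟨bf, hbf⟩ : ∃ bf : ℤ → ZMod k × ZMod k, ∀ t,
    bf t = (((ArithmeticFunction.cardFactors (Sf (zf t) t) : ℕ) : ZMod k),
      ((ArithmeticFunction.cardFactors (R (zf t)) : ℕ) : ZMod k)) := ⟨_, fun _ => rfl⟩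
  have hmem : ∀ t ∈ G, L (u (zf t) (bf t)) / D (u (zf t) (bf t)) (zf t) * Sf (zf t) t ∈
      EXG k v Y N := by
    intro t ht
    obtain ⟨hv1, hv2⟩ := hGv t ht
    obtain ⟨z, hz⟩ : ∃ z, z = zf t := ⟨_, rfl⟩
    obtain ⟨β, hβ⟩ : ∃ β, β = bf t := ⟨_, rfl⟩
    obtain ⟨i, hi⟩ : ∃ i, i = u z β := ⟨_, rfl⟩
    rw [← hz, ← hβ, ← hi]
    have hTc : ((Tf i t : ℕ) : ℤ) = (N : ℤ) - L i * (x0 + W₂ * t) := by
      rw [hTf]; exact Int.toNat_of_nonneg (hv1 i).1.le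
    have hSc : ((Sf z t : ℕ) : ℤ) = (R z : ℤ) * (x0 + W₂ * t) - W₂ * x z * N := by
      rw [hSf]; exact Int.toNat_of_nonneg (hv2 z).1.le
    have hdz := hd z β
    rw [← hi, ← hD] at hdz
    have hDpos : 0 < D i z := Nat.pos_of_ne_zero hdz.1.ne_zero
    have hDL : D i z ∣ L i := by
      rw [hD, hL]
      exact hαd i z ⟨β, hi.symm⟩
    have hDR : D i z ∣ R z := by
      rw [hRLD i z]
      exact dvd_add (hDL.mul_left _) dvd_rfl
    refine rep (T := Tf i t) v hDpos hDL hDR (hLpos i) (hRpos z) ?_ ?_ (hLr i) (hRr z) ?_ ?_ ?_ ?_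
    · have := (hv2 z).1
      rw [← hSc] at this
      exact_mod_cast this
    · have := (hv1 i).1
      rw [← hTc] at this
      exact_mod_cast this
    · rw [hSc]; exact (hv2 z).2
    · rw [hTc]; exact (hv1 i).2
    · have h2 := hRLD i z
      have h3 : ((L i * Sf z t + R z * Tf i t : ℕ) : ℤ) = ((D i z * N : ℕ) : ℤ) := by
        push_cast
        rw [hSc, hTc]
        have h4 : (R z : ℤ) = W₂ * x z * L i + D i z := by exact_mod_cast h2
        linear_combination (N : ℤ) * h4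
      exact_mod_cast h3
    · have h2 := hdz.2.1
      have h3 : z i = (((ArithmeticFunction.cardFactors (L i) : ℕ) : ZMod k),
          ((ArithmeticFunction.cardFactors (Tf i t) : ℕ) : ZMod k)) := by
        rw [hz]; exact hzf t i
      have h4 : β = (((ArithmeticFunction.cardFactors (Sf z t) : ℕ) : ZMod k),
          ((ArithmeticFunction.cardFactors (R z) : ℕ) : ZMod k)) := by
        rw [hβ, hz]; exact hbf t
      rw [h2, h3, h4]
  have hfinE : (EXG k v Y N).Finite := (Set.finite_Iio N).subset fun n hn => hn.2.1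
  have hcount : G.ncard ≤ ((Set.univ : Set (Fin m × (Fin m → ZMod k × ZMod k))) ×ˢ
      (EXG k v Y N)).ncard := by
    refine Set.ncard_le_ncard_of_injOn (fun t => ((u (zf t) (bf t), zf t),
      L (u (zf t) (bf t)) / D (u (zf t) (bf t)) (zf t) * Sf (zf t) t)) ?_ ?_
      (Set.Finite.prod (Set.toFinite _) hfinE)
    · intro t ht
      exact ⟨Set.mem_univ _, hmem t ht⟩
    · intro t ht t' ht' heq
      simp only [Prod.mk.injEq] at heq
      obtain ⟨⟨e1, e2⟩, e3⟩ := heq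
      obtain ⟨hv1, hv2⟩ := hGv t ht
      obtain ⟨hv1', hv2'⟩ := hGv t' ht'
      rw [← e1, ← e2] at e3
      obtain ⟨i, hi⟩ : ∃ i, i = u (zf t) (bf t) := ⟨_, rfl⟩
      rw [← hi] at e3
      have hdz := hd (zf t) (bf t)
      rw [← hi, ← hD] at hdz
      have hDpos : 0 < D i (zf t) := Nat.pos_of_ne_zero hdz.1.ne_zero
      have hDL : D i (zf t) ∣ L i := by
        rw [hD, hL]
        exact hαd i (zf t) ⟨bf t, hi.symm⟩
      have hq : 0 < L i / D i (zf t) := Nat.div_pos (Nat.le_of_dvd (hLpos i) hDL) hDpos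
      have h4 := Nat.eq_of_mul_eq_mul_left hq e3
      have hSc : ((Sf (zf t) t : ℕ) : ℤ) =
          (R (zf t) : ℤ) * (x0 + W₂ * t) - W₂ * x (zf t) * N := by
        rw [hSf]; exact Int.toNat_of_nonneg (hv2 _).1.le
      have hSc' : ((Sf (zf t) t' : ℕ) : ℤ) =
          (R (zf t) : ℤ) * (x0 + W₂ * t') - W₂ * x (zf t) * N := by
        rw [hSf]; exact Int.toNat_of_nonneg (hv2' _).1.le
      have h5 : (R (zf t) : ℤ) * (x0 + W₂ * t) - W₂ * x (zf t) * N =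
          (R (zf t) : ℤ) * (x0 + W₂ * t') - W₂ * x (zf t) * N := by
        rw [← hSc, ← hSc', h4]
      have h6 : ((R (zf t) : ℤ) * W₂) * t = ((R (zf t) : ℤ) * W₂) * t' := by linarith
      have h7 : ((R (zf t) : ℤ) * W₂) ≠ 0 := by
        have := Nat.mul_pos (hRpos (zf t)) hW2pos
        exact_mod_cast this.ne'
      exact mul_left_cancel₀ h7 h6
  rw [Set.ncard_prod, Set.ncard_univ, Nat.card_eq_fintype_card, Fintype.card_prod,
    Fintype.card_fin, ← hcZ] at hcount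
  -- conclusion
  calc N ≤ (a₂ * a₂) * (T + 1) := hNT.le
    _ ≤ (a₂ * a₂) * (2 * T) := Nat.mul_le_mul_left _ (by omega)
    _ ≤ (Y ^ (C1 + 1) * Y ^ (C1 + 1)) * (2 * (Y ^ Cs * (m * cZ * (EXG k v Y N).ncard))) := by
        apply Nat.mul_le_mul (Nat.mul_le_mul ha2up ha2up)
        apply Nat.mul_le_mul_left
        exact hsv.trans (Nat.mul_le_mul_left _ hcount)
    _ = Y ^ (2 * C1 + Cs + 2) * ((2 * (m * cZ)) * (EXG k v Y N).ncard) := by ring
    _ ≤ Y ^ (2 * C1 + Cs + 2) * (Y * (EXG k v Y N).ncard) := by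
        apply Nat.mul_le_mul_left
        exact Nat.mul_le_mul_right _ (by omega)
    _ = Y ^ (2 * C1 + Cs + 3) * (EXG k v Y N).ncard := by ring

end Pool.Agent.TH423.PO
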