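import Pool.Agent.TH423.PO.MainT

/-!
Goldbach's problem: the theorem in terms of `N ^ δ` (helper423).
-/

set_option autoImplicit false

open Finset Filter Topology

namespace Pool.Agent.TH423.PO

open Pool.Agent.H661R3.OP (Rough)
open Pool.Agent.TH423.DS (AlmostPrime almostPrime_of_rough)

theorem mainG (hG : GCT) (k : ℕ) (hk : 1 ≤ k) (ε : ℝ) (hε : 0 < ε) :
    ∃ R N₀ : ℕ, ∃ δ : ℝ, 0 < δ ∧ ∀ N : ℕ, N₀ ≤ N → Even N →
    ∃ g : ZMod k, ∀ u : ZMod k,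
    (N : ℝ) ^ (1 - ε) ≤ ({x : ℕ | 1 ≤ x ∧ x < N ∧ AlmostPrime ((N : ℝ) ^ δ) R (x : ℤ) ∧
      AlmostPrime ((N : ℝ) ^ δ) R ((N - x : ℕ) : ℤ) ∧
      ((ArithmeticFunction.cardFactors x : ℕ) : ZMod k) = u + g ∧
      ((ArithmeticFunction.cardFactors (N - x) : ℕ) : ZMod k) = u}.ncard : ℝ) := by
  classical
  have : NeZero k := ⟨by omega⟩
  obtain ⟨C, Y₀, hY₀, hcount⟩ := hG k hk
  obtain ⟨ε', hε'⟩ : ∃ ε' : ℝ, ε' = min ε (1 / 2) := ⟨_, rfl⟩
  have hε'0 : 0 < ε' := by rw [hε']; positivity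
  have hε'ε : ε' ≤ ε := by rw [hε']; exact min_le_left _ _
  have hε'2 : ε' ≤ 1 / 2 := by rw [hε']; exact min_le_right _ _
  obtain ⟨δ, hδ0, hδC, t, N₀, hN₀⟩ := params C k Y₀ ε' hε'0 hε'2
  refine ⟨t, N₀, δ, hδ0, fun N hNN heven => ?_⟩
  obtain ⟨Y, hm₀, hY4, hN4, hYle, hYlt, hNt, hYCN, hYC, hk4⟩ := hN₀ N hNN
  have hX2 : (4 : ℝ) ≤ N := by exact_mod_cast hN4
  have hXp : (0 : ℝ) < N := by linarith
  have hNt' : N < Y ^ (t + 1) :=
    lt_of_le_of_lt hNt (Nat.pow_lt_pow_right (by omega) (by omega))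
  have hexp : (N : ℝ) ^ (1 - ε) ≤ (N : ℝ) ^ (1 - ε') :=
    Real.rpow_le_rpow_of_exponent_le (by linarith) (by linarith)
  have hform : ∀ n : ℕ, n ≤ N → |((n : ℕ) : ℤ)| < (Y : ℤ) ^ (t + 1) := by
    intro n hn
    rw [abs_of_nonneg (by positivity)]
    exact_mod_cast lt_of_le_of_lt hn hNt'
  by_contra hcon
  push Not at hcon
  choose v hv using hcon
  have hmain := hcount Y N (by omega) hYCN heven v
  obtain ⟨A, hA⟩ : ∃ A : ZMod k → Set ℕ, ∀ g, A g = {x : ℕ | 1 ≤ x ∧ x < N ∧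
      AlmostPrime ((N : ℝ) ^ δ) t (x : ℤ) ∧
      AlmostPrime ((N : ℝ) ^ δ) t ((N - x : ℕ) : ℤ) ∧
      ((ArithmeticFunction.cardFactors x : ℕ) : ZMod k) = v g + g ∧
      ((ArithmeticFunction.cardFactors (N - x) : ℕ) : ZMod k) = v g} :=
    ⟨_, fun _ => rfl⟩
  have hAfin : ∀ g, (A g).Finite := fun g => by
    rw [hA]; exact (Set.finite_Iic N).subset fun n hn => hn.2.1.le
  have hsub : EXG k v Y N ⊆ ⋃ g, A g := by
    rintro n ⟨h1, h2, h5, h6, g, h8, h9⟩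
    rw [Set.mem_iUnion]
    refine ⟨g, ?_⟩
    rw [hA]
    exact ⟨h1, h2, almostPrime_of_rough (by omega) hYlt h5 (hform n h2.le),
      almostPrime_of_rough (by omega) hYlt h6 (hform (N - n) (by omega)), h8, h9⟩
  have hle1 := Set.ncard_le_ncard hsub (Set.finite_iUnion hAfin)
  have hle2 := hle1.trans (Set.ncard_iUnion_le_of_fintype _)
  have hle3 : ((EXG k v Y N).ncard : ℝ) ≤ k * (N : ℝ) ^ (1 - ε') := by
    have h1 : ((EXG k v Y N).ncard : ℝ) ≤ ∑ g : ZMod k, ((A g).ncard : ℝ) := by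
      exact_mod_cast hle2
    refine h1.trans ?_
    calc ∑ g : ZMod k, ((A g).ncard : ℝ) ≤ ∑ _g : ZMod k, (N : ℝ) ^ (1 - ε') := by
          apply Finset.sum_le_sum
          intro g _
          rw [hA]
          exact ((hv g).le).trans hexp
      _ = k * (N : ℝ) ^ (1 - ε') := by
          rw [Finset.sum_const, card_univ, ZMod.card, nsmul_eq_mul]
  have hfin : (N : ℝ) ≤ (Y : ℝ) ^ C * (k * (N : ℝ) ^ (1 - ε')) := by
    calc (N : ℝ) ≤ (Y : ℝ) ^ C * ((EXG k v Y N).ncard : ℝ) := by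
          exact_mod_cast hmain
      _ ≤ _ := mul_le_mul_of_nonneg_left hle3 (by positivity)
  have hlt : (Y : ℝ) ^ C * (k * (N : ℝ) ^ (1 - ε')) < N := by
    calc (Y : ℝ) ^ C * (k * (N : ℝ) ^ (1 - ε'))
        ≤ (N : ℝ) ^ (ε' / 4) * (k * (N : ℝ) ^ (1 - ε')) :=
          mul_le_mul_of_nonneg_right hYC (by positivity)
      _ < (N : ℝ) ^ (ε' / 4) * ((N : ℝ) ^ (ε' / 4) * (N : ℝ) ^ (1 - ε')) := by
          apply mul_lt_mul_of_pos_left _ (by positivity)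
          exact mul_lt_mul_of_pos_right hk4 (by positivity)
      _ = (N : ℝ) ^ (ε' / 4 + (ε' / 4 + (1 - ε'))) := by
          rw [Real.rpow_add hXp, Real.rpow_add hXp]
      _ ≤ (N : ℝ) ^ (1 : ℝ) := Real.rpow_le_rpow_of_exponent_le (by linarith) (by linarith)
      _ = N := Real.rpow_one _
  linarith

end Pool.Agent.TH423.PO
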