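import Pool.Agent.TH423.PO.Stm
import Pool.Agent.TH423.DS.Main

/-!
Two linear forms: the theorem in terms of `X ^ δ` (helper423).
-/

set_option autoImplicit false

open Finset Filter Topology

namespace Pool.Agent.TH423.PO

open Pool.Agent.H661R3.OP (Rough)
open Pool.Agent.TH423.DS (AlmostPrime almostPrime_of_rough)

/-- the choice of the parameters -/
theorem params (C k m₀ : ℕ) (ε : ℝ) (hε : 0 < ε) (hε2 : ε ≤ 1 / 2) : ∃ δ : ℝ, 0 < δ ∧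
    δ * C ≤ ε / 4 ∧ ∃ t N₀ : ℕ, ∀ N : ℕ, N₀ ≤ N → ∃ Y : ℕ, m₀ ≤ Y ∧ 4 ≤ Y ∧ 4 ≤ N ∧
      (Y : ℝ) ≤ (N : ℝ) ^ δ ∧ (N : ℝ) ^ δ < Y + 1 ∧ N ≤ Y ^ t ∧ Y ^ C ≤ N ∧
      (Y : ℝ) ^ C ≤ (N : ℝ) ^ (ε / 4) ∧ (k : ℝ) < (N : ℝ) ^ (ε / 4) := by
  obtain ⟨δ, hδ⟩ : ∃ δ : ℝ, δ = ε / (4 * (C + 1)) := ⟨_, rfl⟩
  have hδ0 : 0 < δ := by rw [hδ]; positivity
  have hδC : δ * C ≤ ε / 4 := by
    rw [hδ, div_mul_eq_mul_div, div_le_div_iff₀ (by positivity) (by norm_num)]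
    nlinarith
  obtain ⟨t, ht⟩ := exists_nat_ge (2 / δ)
  have htδ : 2 ≤ t * δ := by rwa [div_le_iff₀ hδ0] at ht
  have hn : Tendsto (fun X : ℕ => (X : ℝ)) atTop atTop := tendsto_natCast_atTop_atTop
  have hn1 : Tendsto (fun X : ℕ => (X : ℝ) ^ (δ / 2)) atTop atTop :=
    (tendsto_rpow_atTop (by positivity)).comp hn
  have hn2 : Tendsto (fun X : ℕ => (X : ℝ) ^ (ε / 4)) atTop atTop :=
    (tendsto_rpow_atTop (by positivity)).comp hn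
  have hev := ((hn1.eventually (eventually_ge_atTop ((m₀ + 8 : ℕ) : ℝ))).and
    (hn2.eventually (eventually_gt_atTop (k : ℝ)))).and (eventually_ge_atTop 4)
  obtain ⟨N₀, hN₀⟩ := eventually_atTop.1 hev
  refine ⟨δ, hδ0, hδC, t, N₀, fun N hNN => ?_⟩
  obtain ⟨⟨hA, hB⟩, hN4⟩ := hN₀ N hNN
  have hX2 : (4 : ℝ) ≤ N := by exact_mod_cast hN4
  have hXp : (0 : ℝ) < N := by linarith
  obtain ⟨Y, hY⟩ : ∃ Y : ℕ, Y = ⌊(N : ℝ) ^ δ⌋₊ := ⟨_, rfl⟩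
  have hsq : (N : ℝ) ^ (δ / 2) * (N : ℝ) ^ (δ / 2) = (N : ℝ) ^ δ := by
    rw [← Real.rpow_add hXp]; congr 1; ring
  obtain ⟨x, hx⟩ : ∃ x : ℝ, x = (N : ℝ) ^ (δ / 2) := ⟨_, rfl⟩
  rw [← hx] at hsq hA
  have hYle : (Y : ℝ) ≤ (N : ℝ) ^ δ := by
    rw [hY]; exact Nat.floor_le (by positivity)
  have hYlt : (N : ℝ) ^ δ < Y + 1 := by
    rw [hY]; exact Nat.lt_floor_add_one _
  have hA8 : (8 : ℝ) ≤ x := by
    refine le_trans ?_ hA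
    push_cast
    have : (0 : ℝ) ≤ (m₀ : ℝ) := by positivity
    linarith
  have hxY : x ≤ Y := by
    have : x ≤ x * x - 1 := by nlinarith
    linarith
  have hYN : m₀ + 8 ≤ Y := by exact_mod_cast hA.trans hxY
  have hNt : N ≤ Y ^ t := by
    have h1 : (N : ℝ) ≤ (Y : ℝ) ^ t := by
      calc (N : ℝ) = (N : ℝ) ^ (1 : ℝ) := (Real.rpow_one _).symm
        _ ≤ (N : ℝ) ^ (δ / 2 * t) := by
            apply Real.rpow_le_rpow_of_exponent_le (by linarith)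
            nlinarith
        _ = x ^ t := by rw [Real.rpow_mul hXp.le, Real.rpow_natCast, hx]
        _ ≤ (Y : ℝ) ^ t := pow_le_pow_left₀ (by linarith) hxY t
    exact_mod_cast h1
  have hYC : (Y : ℝ) ^ C ≤ (N : ℝ) ^ (ε / 4) := by
    calc (Y : ℝ) ^ C ≤ ((N : ℝ) ^ δ) ^ C := pow_le_pow_left₀ (by positivity) hYle _
      _ = (N : ℝ) ^ (δ * C) := by rw [Real.rpow_mul hXp.le, Real.rpow_natCast]
      _ ≤ (N : ℝ) ^ (ε / 4) := Real.rpow_le_rpow_of_exponent_le (by linarith) hδC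
  refine ⟨Y, by omega, by omega, hN4, hYle, hYlt, hNt, ?_, hYC, hB⟩
  have h1 : (Y : ℝ) ^ C ≤ N := by
    refine hYC.trans ?_
    calc (N : ℝ) ^ (ε / 4) ≤ (N : ℝ) ^ (1 : ℝ) :=
          Real.rpow_le_rpow_of_exponent_le (by linarith) (by linarith)
      _ = N := Real.rpow_one _
  exact_mod_cast h1

theorem mainT (hT : TCT) (k s a₁ a₂ : ℕ) (hk : 1 ≤ k) (ha₁ : 0 < a₁) (ha₂ : 0 < a₂) (ε : ℝ)
    (hε : 0 < ε) :
    ∃ R X₀ : ℕ, ∃ δ : ℝ, 0 < δ ∧ ∀ X : ℕ, X₀ ≤ X →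
    ∀ (b₁ b₂ : ℤ) (E E' : Fin s → ℤ), (|b₁| : ℝ) ≤ (X : ℝ) ^ (1 - ε) →
    (|b₂| : ℝ) ≤ (X : ℝ) ^ (1 - ε) → (∀ j, |E j| ≤ X ∧ |E' j| ≤ (X : ℤ) ^ 2) →
    (∀ p : ℕ, p.Prime → ∃ n : ℤ, ¬ (p : ℤ) ∣ a₁ * n + b₁ ∧ ¬ (p : ℤ) ∣ a₂ * n + b₂ ∧
      ∀ j, ¬ (p : ℤ) ∣ E j * n + E' j) →
    ∃ g : ZMod k, ∀ u : ZMod k,
    (X : ℝ) ^ (1 - ε) ≤ ({n : ℕ | 1 ≤ n ∧ n ≤ X ∧ 0 < (a₁ : ℤ) * n + b₁ ∧
      0 < (a₂ : ℤ) * n + b₂ ∧ AlmostPrime ((X : ℝ) ^ δ) R ((a₁ : ℤ) * n + b₁) ∧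
      AlmostPrime ((X : ℝ) ^ δ) R ((a₂ : ℤ) * n + b₂) ∧
      (∀ j, AlmostPrime ((X : ℝ) ^ δ) R (E j * n + E' j)) ∧
      ((ArithmeticFunction.cardFactors ((a₁ : ℤ) * n + b₁).natAbs : ℕ) : ZMod k) = u + g ∧
      ((ArithmeticFunction.cardFactors ((a₂ : ℤ) * n + b₂).natAbs : ℕ) : ZMod k) = u}.ncard :
        ℝ) := by
  classical
  have : NeZero k := ⟨by omega⟩
  obtain ⟨C, Y₀, hY₀, hcount⟩ := hT k s a₁ a₂ hk ha₁ ha₂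
  obtain ⟨ε', hε'⟩ : ∃ ε' : ℝ, ε' = min ε (1 / 2) := ⟨_, rfl⟩
  have hε'0 : 0 < ε' := by rw [hε']; positivity
  have hε'ε : ε' ≤ ε := by rw [hε']; exact min_le_left _ _
  have hε'2 : ε' ≤ 1 / 2 := by rw [hε']; exact min_le_right _ _
  obtain ⟨δ, hδ0, hδC, t, N₀, hN₀⟩ := params C k (Y₀ + a₁ + a₂) ε' hε'0 hε'2
  refine ⟨3 * t, N₀ + a₁ + a₂, δ, hδ0, fun N hNN => ?_⟩
  obtain ⟨Y, hm₀, hY4, hN4, hYle, hYlt, hNt, hYCN, hYC, hk4⟩ := hN₀ N (by omega)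
  have hX2 : (4 : ℝ) ≤ N := by exact_mod_cast hN4
  have hXp : (0 : ℝ) < N := by linarith
  intro b₁ b₂ E E' hb₁ hb₂ hEE hadm
  have hN3 : (N : ℤ) ^ 3 < (Y : ℤ) ^ (3 * t + 1) := by
    have h1 : N ^ 3 < Y ^ (3 * t + 1) := by
      calc N ^ 3 ≤ (Y ^ t) ^ 3 := Nat.pow_le_pow_left hNt 3
        _ = Y ^ (3 * t) := by rw [← pow_mul, mul_comm]
        _ < Y ^ (3 * t + 1) := Nat.pow_lt_pow_right (by omega) (by omega)
    exact_mod_cast h1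
  have hNz : (4 : ℤ) ≤ N := by exact_mod_cast hN4
  have hN12 : (N : ℤ) ≤ (N : ℤ) ^ 2 := by nlinarith
  have hN23 : 4 * (N : ℤ) ^ 2 ≤ (N : ℤ) ^ 3 := by
    have : (N : ℤ) ^ 3 = N * (N : ℤ) ^ 2 := by ring
    rw [this]
    exact mul_le_mul_of_nonneg_right hNz (by positivity)
  have hexp : (N : ℝ) ^ (1 - ε) ≤ (N : ℝ) ^ (1 - ε') :=
    Real.rpow_le_rpow_of_exponent_le (by linarith) (by linarith)
  have hbN : ∀ b : ℤ, (|b| : ℝ) ≤ (N : ℝ) ^ (1 - ε) → |b| ≤ (N : ℤ) := by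
    intro b hb
    have h1 : (|b| : ℝ) ≤ N := by
      refine hb.trans (hexp.trans ?_)
      calc (N : ℝ) ^ (1 - ε') ≤ (N : ℝ) ^ (1 : ℝ) :=
            Real.rpow_le_rpow_of_exponent_le (by linarith) (by linarith)
        _ = N := Real.rpow_one _
    exact_mod_cast h1
  have hbC : ∀ b : ℤ, (|b| : ℝ) ≤ (N : ℝ) ^ (1 - ε) → |b| * (Y : ℤ) ^ C ≤ (N : ℤ) := by
    intro b hb
    have h1 : (|b| : ℝ) * (Y : ℝ) ^ C ≤ N := by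
      calc (|b| : ℝ) * (Y : ℝ) ^ C ≤ (N : ℝ) ^ (1 - ε') * (N : ℝ) ^ (ε' / 4) :=
            mul_le_mul (hb.trans hexp) hYC (by positivity) (by positivity)
        _ = (N : ℝ) ^ (1 - ε' + ε' / 4) := (Real.rpow_add hXp _ _).symm
        _ ≤ (N : ℝ) ^ (1 : ℝ) := Real.rpow_le_rpow_of_exponent_le (by linarith) (by linarith)
        _ = N := Real.rpow_one _
    exact_mod_cast h1
  have hform : ∀ a : ℕ, a ≤ N → ∀ b : ℤ, |b| ≤ (N : ℤ) → ∀ n : ℕ, n ≤ N →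
      |(a : ℤ) * n + b| < (Y : ℤ) ^ (3 * t + 1) := by
    intro a ha b hb n hn
    refine lt_of_le_of_lt ?_ hN3
    have h1 : |(a : ℤ) * n + b| ≤ (a : ℤ) * n + |b| := by
      refine (abs_add_le _ _).trans (le_of_eq ?_)
      rw [abs_of_nonneg (by positivity : (0 : ℤ) ≤ (a : ℤ) * n)]
    have h2 : (a : ℤ) * n ≤ (N : ℤ) * N :=
      mul_le_mul (by exact_mod_cast ha) (by exact_mod_cast hn) (by positivity) (by positivity)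
    have h3 : (N : ℤ) * N = (N : ℤ) ^ 2 := by ring
    linarith
  have hformE : ∀ j, ∀ n : ℕ, n ≤ N → |E j * n + E' j| < (Y : ℤ) ^ (3 * t + 1) := by
    intro j n hn
    refine lt_of_le_of_lt ?_ hN3
    have h1 : |E j * n + E' j| ≤ |E j| * n + |E' j| := by
      refine (abs_add_le _ _).trans (le_of_eq ?_)
      rw [abs_mul, abs_of_nonneg (by positivity : (0 : ℤ) ≤ (n : ℤ))]
    have h2 : |E j| * (n : ℤ) ≤ (N : ℤ) * N :=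
      mul_le_mul (hEE j).1 (by exact_mod_cast hn) (by positivity) (by positivity)
    have h3 : (N : ℤ) * N = (N : ℤ) ^ 2 := by ring
    have h4 := (hEE j).2
    linarith
  by_contra hcon
  push Not at hcon
  choose v hv using hcon
  have hmain := hcount Y N (by omega) hYCN b₁ b₂ E E' (hbC b₁ hb₁) (hbC b₂ hb₂) hadm v
  obtain ⟨A, hA⟩ : ∃ A : ZMod k → Set ℕ, ∀ g, A g = {n : ℕ | 1 ≤ n ∧ n ≤ N ∧
      0 < (a₁ : ℤ) * n + b₁ ∧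
      0 < (a₂ : ℤ) * n + b₂ ∧ AlmostPrime ((N : ℝ) ^ δ) (3 * t) ((a₁ : ℤ) * n + b₁) ∧
      AlmostPrime ((N : ℝ) ^ δ) (3 * t) ((a₂ : ℤ) * n + b₂) ∧
      (∀ j, AlmostPrime ((N : ℝ) ^ δ) (3 * t) (E j * n + E' j)) ∧
      ((ArithmeticFunction.cardFactors ((a₁ : ℤ) * n + b₁).natAbs : ℕ) : ZMod k) = v g + g ∧
      ((ArithmeticFunction.cardFactors ((a₂ : ℤ) * n + b₂).natAbs : ℕ) : ZMod k) = v g} :=
    ⟨_, fun _ => rfl⟩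
  have hAfin : ∀ g, (A g).Finite := fun g => by
    rw [hA]; exact (Set.finite_Iic N).subset fun n hn => hn.2.1
  have hsub : EX2 k (a₁ : ℤ) a₂ b₁ b₂ E E' v Y N ⊆ ⋃ g, A g := by
    rintro n ⟨h1, h2, h3, h4, h5, h6, h7, g, h8, h9⟩
    rw [Set.mem_iUnion]
    refine ⟨g, ?_⟩
    rw [hA]
    exact ⟨h1, h2, h3, h4,
      almostPrime_of_rough (by omega) hYlt h5 (hform a₁ (by omega) b₁ (hbN b₁ hb₁) n h2),
      almostPrime_of_rough (by omega) hYlt h6 (hform a₂ (by omega) b₂ (hbN b₂ hb₂) n h2),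
      fun j => almostPrime_of_rough (by omega) hYlt (h7 j) (hformE j n h2), h8, h9⟩
  have hle1 := Set.ncard_le_ncard hsub (Set.finite_iUnion hAfin)
  have hle2 := hle1.trans (Set.ncard_iUnion_le_of_fintype _)
  have hle3 : ((EX2 k (a₁ : ℤ) a₂ b₁ b₂ E E' v Y N).ncard : ℝ) ≤ k * (N : ℝ) ^ (1 - ε') := by
    have h1 : ((EX2 k (a₁ : ℤ) a₂ b₁ b₂ E E' v Y N).ncard : ℝ) ≤
        ∑ g : ZMod k, ((A g).ncard : ℝ) := by exact_mod_cast hle2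
    refine h1.trans ?_
    calc ∑ g : ZMod k, ((A g).ncard : ℝ) ≤ ∑ _g : ZMod k, (N : ℝ) ^ (1 - ε') := by
          apply Finset.sum_le_sum
          intro g _
          rw [hA]
          exact ((hv g).le).trans hexp
      _ = k * (N : ℝ) ^ (1 - ε') := by
          rw [Finset.sum_const, card_univ, ZMod.card, nsmul_eq_mul]
  have hfin : (N : ℝ) ≤ (Y : ℝ) ^ C * (k * (N : ℝ) ^ (1 - ε')) := by
    calc (N : ℝ) ≤ (Y : ℝ) ^ C * ((EX2 k (a₁ : ℤ) a₂ b₁ b₂ E E' v Y N).ncard : ℝ) := by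
          exact_mod_cast hmain
      _ ≤ _ := mul_le_mul_of_nonneg_left hle3 (by positivity)
  have hlt : (Y : ℝ) ^ C * (k * (N : ℝ) ^ (1 - ε')) < N := by
    calc (Y : ℝ) ^ C * (k * (N : ℝ) ^ (1 - ε'))
        ≤ (N : ℝ) ^ (ε' / 4) * (k * (N : ℝ) ^ (1 - ε')) :=
          mul_le_mul_of_nonneg_right hYC (by positivity)
      _ < (N : ℝ) ^ (ε' / 4) * ((N : ℝ) ^ (ε' / 4) * (N : ℝ) ^ (1 - ε')) := by
          apply mul_lt_mul_of_pos_left _ (by positivity)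
          exact mul_lt_mul_of_pos_right hk4 (by positivity)
      _ = (N : ℝ) ^ (ε' / 4 + (ε' / 4 + (1 - ε'))) := by
          rw [Real.rpow_add hXp, Real.rpow_add hXp]
      _ ≤ (N : ℝ) ^ (1 : ℝ) := Real.rpow_le_rpow_of_exponent_le (by linarith) (by linarith)
      _ = N := Real.rpow_one _
  linarith

end Pool.Agent.TH423.PO
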