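import Pool.Agent.TH423.PO.Stm
import Pool.Agent.H661R3.OP.SV
import Pool.Agent.H661R3.OP.CR

/-!
(ST1) the first stage: rough rows and columns, by the Chinese remainder theorem and the sieve for
finitely many linear forms (job 2977, helper914).
-/

set_option autoImplicit false

open Finset

namespace Pool.Agent.TH423.PO

open Pool.Agent.H661R3.OP (Rough CR SV t_SV t_CR)
open Pool.Agent.TH423.SH (dd)

namespace ST1A

lemma dd_pos {W m x y : ℕ} (hW : 1 ≤ W) (hx : 0 < x) (hxy : 2 * W * m * x ≤ y) (i : Fin m) :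
    0 < dd W x y i := by
  unfold dd
  have hi : (i : ℕ) + 1 ≤ m := i.2
  have hm : 0 < m := by omega
  have h1 : W * ((i : ℕ) + 1) * x ≤ W * m * x := by gcongr
  have h2 : 0 < W * m * x := by positivity
  have h3 : 2 * W * m * x = 2 * (W * m * x) := by ring
  omega

lemma dd_cast {W m x y : ℕ} (hxy : 2 * W * m * x ≤ y) (i : Fin m) :
    ((dd W x y i : ℕ) : ℤ) = (y : ℤ) - W * ((i : ℕ) + 1) * x := by
  unfold dd
  have hi : (i : ℕ) + 1 ≤ m := i.2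
  have h1 : W * ((i : ℕ) + 1) * x ≤ W * m * x := by gcongr
  have h3 : 2 * W * m * x = 2 * (W * m * x) := by ring
  rw [Nat.cast_sub (by omega)]
  push_cast
  ring

lemma dvd_sub_one {W y : ℕ} (h : y % W = 1 % W) : (W : ℤ) ∣ (y : ℤ) - 1 := by
  have h1 : (1 : ℕ) ≡ y [MOD W] := h.symm
  have h2 := (Nat.modEq_iff_dvd).1 h1
  simpa using h2

lemma dd_cop {W m x y : ℕ} (hxy : 2 * W * m * x ≤ y) (hy : y % W = 1 % W) (i : Fin m) :
    IsCoprime (W : ℤ) ((dd W x y i : ℕ) : ℤ) := by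
  rw [dd_cast hxy]
  obtain ⟨k, hk⟩ := dvd_sub_one hy
  refine ⟨-(k - ((i : ℕ) + 1) * x), 1, ?_⟩
  have : (y : ℤ) = 1 + W * k := by linarith
  rw [this]
  ring

/-- a prime dividing a difference -/
lemma absurd_one {p : ℕ} (hp : p.Prime) {a : ℤ} (h1 : (p : ℤ) ∣ a) (h2 : (p : ℤ) ∣ a - 1) :
    False := by
  have h3 : (p : ℤ) ∣ 1 := by
    have := dvd_sub h1 h2
    simpa using this
  have h4 : p ∣ 1 := by exact_mod_cast h3
  exact hp.one_lt.ne' (Nat.dvd_one.1 h4)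

end ST1A

open ST1A in
theorem st1 : ST1 := by
  classical
  intro m Z _ a₁ a₂ W₂ Bd ha₁ ha₂ hW₂ hd1 hd2 hsm
  obtain ⟨C1, hSV⟩ := t_SV (m + Fintype.card Z)
  refine ⟨3 * Bd + C1 + (m * Fintype.card Z) * Bd + 2, a₁ * W₂ + 2, ?_⟩
  intro Y hY x y U hxy hrough hcop
  set W : ℕ := a₁ * a₂ * W₂ ^ 2 with hWdef
  have hW : 1 ≤ W := Nat.one_le_iff_ne_zero.2 (by positivity)
  have hY2 : 2 ≤ Y := by omega
  have haY : a₁ * W₂ ≤ Y := by omega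
  have haW₂ : 0 < a₁ * W₂ := by positivity
  let d : Fin m × Z → ℕ := fun p => dd W (x p.2) (y p.2) p.1
  have hdpos : ∀ p, 0 < d p := fun p => dd_pos hW (hxy p.2).1 (hxy p.2).2.2.2.2 p.1
  have hdle : ∀ p, d p ≤ Y ^ Bd := fun p => (Nat.sub_le _ _).trans (hxy p.2).2.1
  have hdW : ∀ p, IsCoprime (W : ℤ) (d p : ℤ) := fun p =>
    dd_cop (hxy p.2).2.2.2.2 (hxy p.2).2.2.1 p.1
  have haW : a₁ * W₂ ∣ W := ⟨a₂ * W₂, by rw [hWdef]; ring⟩
  have hWW : W₂ ∣ W := (Dvd.intro_left a₁ rfl).trans haW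
  let PU : Finset (Fin m × Z) := univ.filter fun p => U p.1 p.2
  -- the Chinese remainder theorem
  let M : Option {p : Fin m × Z // U p.1 p.2} → ℤ := fun o => match o with
    | none => ((a₁ * W₂ : ℕ) : ℤ)
    | some p => ((d p.1 : ℕ) : ℤ)
  let r : Option {p : Fin m × Z // U p.1 p.2} → ℤ := fun o => match o with
    | none => 1
    | some p => -((a₁ * W₂ * ((p.1.1 : ℕ) + 1) : ℕ) : ℤ)
  have hM1 : ∀ p : Fin m × Z, IsCoprime ((a₁ * W₂ : ℕ) : ℤ) ((d p : ℕ) : ℤ) := fun p =>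
    (hdW p).of_isCoprime_of_dvd_left (Int.natCast_dvd_natCast.2 haW)
  have hMc : ∀ i j, i ≠ j → IsCoprime (M i) (M j) := by
    intro i j hij
    match i, j, hij with
    | none, none, h => exact absurd rfl h
    | none, some p, _ => exact hM1 p.1
    | some p, none, _ => exact (hM1 p.1).symm
    | some p, some q, h =>
      have hne : ((p.1.1, p.1.2) : Fin m × Z) ≠ (q.1.1, q.1.2) := by
        intro h'
        apply h
        congr 1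
        exact Subtype.ext h'
      exact Nat.isCoprime_iff_coprime.2 (hcop p.1.1 p.1.2 q.1.1 q.1.2 p.2 q.2 hne)
  obtain ⟨x₀, hx₀⟩ := t_CR _ M r hMc
  set Q : ℕ := a₁ * W₂ * ∏ p ∈ PU, d p with hQ
  have hprod : 0 < ∏ p ∈ PU, d p := prod_pos fun p _ => hdpos p
  have hQpos : 0 < Q := by positivity
  have hQ0 : (Q : ℤ) ≠ 0 := by exact_mod_cast hQpos.ne'
  set α₀ : ℕ := (x₀ % (Q : ℤ)).toNat with hα₀
  have hα₀c : (α₀ : ℤ) = x₀ % (Q : ℤ) := Int.toNat_of_nonneg (Int.emod_nonneg _ hQ0)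
  have hα₀Q : α₀ < Q := by
    have := Int.emod_lt_of_pos x₀ (show (0 : ℤ) < Q by exact_mod_cast hQpos)
    omega
  have hα₀x : (Q : ℤ) ∣ (α₀ : ℤ) - x₀ := by
    rw [hα₀c]
    exact ⟨-(x₀ / Q), by have := Int.emod_add_mul_ediv x₀ (Q : ℤ); linarith⟩
  have haQ : a₁ * W₂ ∣ Q := Dvd.intro _ rfl
  have hdQ : ∀ p ∈ PU, d p ∣ Q := fun p hp =>
    (dvd_prod_of_mem d hp).trans (Dvd.intro_left _ rfl)
  have hα1 : ((a₁ * W₂ : ℕ) : ℤ) ∣ (α₀ : ℤ) - 1 := by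
    have h1 : ((a₁ * W₂ : ℕ) : ℤ) ∣ x₀ - 1 := hx₀ none
    have h2 : ((a₁ * W₂ : ℕ) : ℤ) ∣ (α₀ : ℤ) - x₀ := (Int.natCast_dvd_natCast.2 haQ).trans hα₀x
    have := dvd_add h1 h2
    have e : x₀ - 1 + ((α₀ : ℤ) - x₀) = (α₀ : ℤ) - 1 := by ring
    rwa [e] at this
  have hα2 : ∀ p : Fin m × Z, U p.1 p.2 →
      ((d p : ℕ) : ℤ) ∣ (α₀ : ℤ) + ((a₁ * W₂ * ((p.1 : ℕ) + 1) : ℕ) : ℤ) := by
    intro p hp
    have h1 : ((d p : ℕ) : ℤ) ∣ x₀ - -((a₁ * W₂ * ((p.1 : ℕ) + 1) : ℕ) : ℤ) := hx₀ (some ⟨p, hp⟩)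
    have h2 : ((d p : ℕ) : ℤ) ∣ (α₀ : ℤ) - x₀ :=
      (Int.natCast_dvd_natCast.2 (hdQ p (by simpa [PU] using hp))).trans hα₀x
    have := dvd_add h1 h2
    have e : x₀ - -((a₁ * W₂ * ((p.1 : ℕ) + 1) : ℕ) : ℤ) + ((α₀ : ℤ) - x₀) =
      (α₀ : ℤ) + ((a₁ * W₂ * ((p.1 : ℕ) + 1) : ℕ) : ℤ) := by ring
    rwa [e] at this
  -- primes dividing `Q`
  have hpQ : ∀ p : ℕ, p.Prime → p ≤ Y → p ∣ Q → p ∣ a₁ * W₂ := by
    intro p hp hpY hpd
    rcases (hp.dvd_mul).1 hpd with h | h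
    · exact h
    · exfalso
      obtain ⟨q, hq, hpq⟩ := (Prime.dvd_finsetProd_iff hp.prime _).1 h
      have h1 := hrough q.1 q.2 (by simpa [PU] using hq) p hp hpq
      omega
  have hpW₂ : ∀ p : ℕ, p.Prime → p ∣ a₁ * W₂ → p ∣ W₂ := by
    intro p hp h
    rcases (hp.dvd_mul).1 h with h | h
    · exact h.trans hd1
    · exact h
  -- the sieve
  let c : Fin m ⊕ Z → ℤ := fun o => match o with
    | Sum.inl _ => (Q : ℤ)
    | Sum.inr z => ((a₂ * W₂ * x z * Q : ℕ) : ℤ)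
  let e : Fin m ⊕ Z → ℤ := fun o => match o with
    | Sum.inl i => ((α₀ + a₁ * W₂ * ((i : ℕ) + 1) : ℕ) : ℤ)
    | Sum.inr z => ((a₂ * α₀ * W₂ * x z + y z : ℕ) : ℤ)
  have hce : ∀ i, ∀ p : ℕ, p.Prime → p ≤ Y → (p : ℤ) ∣ c i → ¬ (p : ℤ) ∣ e i := by
    intro i p hp hpY hpc hpe
    match i with
    | Sum.inl i =>
      have h1 : p ∣ a₁ * W₂ := hpQ p hp hpY (Int.natCast_dvd_natCast.1 hpc)
      have h1' : (p : ℤ) ∣ ((a₁ * W₂ : ℕ) : ℤ) := Int.natCast_dvd_natCast.2 h1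
      have h2 : (p : ℤ) ∣ (α₀ : ℤ) - 1 := h1'.trans hα1
      have h3 : (p : ℤ) ∣ ((α₀ + a₁ * W₂ * ((i : ℕ) + 1) : ℕ) : ℤ) := hpe
      have h4 : (p : ℤ) ∣ ((a₁ * W₂ : ℕ) : ℤ) * ((i : ℕ) + 1) := h1'.mul_right _
      have h5 : (p : ℤ) ∣ (α₀ : ℤ) := by
        have := dvd_sub h3 h4
        have e : ((α₀ + a₁ * W₂ * ((i : ℕ) + 1) : ℕ) : ℤ) - ((a₁ * W₂ : ℕ) : ℤ) * ((i : ℕ) + 1) =
          α₀ := by push_cast; ring
        rwa [e] at this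
      exact absurd_one hp h5 h2
    | Sum.inr z =>
      have h1 : p ∣ a₂ * W₂ * x z * Q := Int.natCast_dvd_natCast.1 hpc
      have h2 : p ∣ a₂ * α₀ * W₂ * x z + y z := Int.natCast_dvd_natCast.1 hpe
      have h3 : p ∣ W₂ ∨ p ∣ x z := by
        rcases (hp.dvd_mul).1 h1 with h | h
        · rcases (hp.dvd_mul).1 h with h | h
          · rcases (hp.dvd_mul).1 h with h | h
            · exact Or.inl (h.trans hd2)
            · exact Or.inl h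
          · exact Or.inr h
        · exact Or.inl (hpW₂ p hp (hpQ p hp hpY h))
      have h4 : p ∣ y z := by
        have h5 : p ∣ a₂ * α₀ * W₂ * x z := by
          rcases h3 with h | h
          · exact (h.mul_left _).mul_right _
          · exact h.mul_left _
        exact (Nat.dvd_add_right h5).1 h2
      rcases h3 with h | h
      · have h5 : (p : ℤ) ∣ (y z : ℤ) - 1 :=
          (Int.natCast_dvd_natCast.2 (h.trans hWW)).trans (dvd_sub_one (hxy z).2.2.1)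
        exact absurd_one hp (Int.natCast_dvd_natCast.2 h4) h5
      · have h5 := Nat.dvd_gcd h h4
        rw [(hxy z).2.2.2.1] at h5
        exact hp.one_lt.ne' (Nat.dvd_one.1 h5)
  have hsm' : ∀ i, ∀ p : ℕ, p.Prime → p ≤ 2 * (m + Fintype.card Z) → (p : ℤ) ∣ c i := by
    intro i p hp hpK
    have h1 : p ∣ Q := ((hsm p hp hpK).mul_left a₁).trans haQ
    match i with
    | Sum.inl i => exact Int.natCast_dvd_natCast.2 h1
    | Sum.inr z => exact Int.natCast_dvd_natCast.2 (h1.mul_left _)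
  have hcard : Fintype.card (Fin m ⊕ Z) ≤ m + Fintype.card Z := by
    rw [Fintype.card_sum, Fintype.card_fin]
  have hsv := hSV (Fin m ⊕ Z) hcard c e Y hY2 hce hsm' ((Y ^ (3 * Bd) : ℕ) : ℤ) (Y ^ C1) le_rfl
  have hne : {t : ℤ | ((Y ^ (3 * Bd) : ℕ) : ℤ) ≤ t ∧ t < ((Y ^ (3 * Bd) : ℕ) : ℤ) + (Y ^ C1 : ℕ) ∧
      ∀ i, Rough Y (c i * t + e i)}.Nonempty := by
    by_contra hemp
    rw [Set.not_nonempty_iff_eq_empty] at hemp
    rw [hemp, Set.ncard_empty, mul_zero] at hsv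
    have : 0 < Y ^ C1 := by positivity
    omega
  obtain ⟨t, ht1, ht2, ht3⟩ := hne
  obtain ⟨s, rfl⟩ : ∃ s : ℕ, t = s := ⟨t.toNat, by
    have : (0 : ℤ) ≤ ((Y ^ (3 * Bd) : ℕ) : ℤ) := Int.natCast_nonneg _
    omega⟩
  have hs1 : Y ^ (3 * Bd) ≤ s := by exact_mod_cast ht1
  have hs2 : s < Y ^ (3 * Bd) + Y ^ C1 := by exact_mod_cast ht2
  refine ⟨α₀ + s * Q, ?_, ?_, ?_, ?_, ?_, ?_⟩
  · calc Y ^ (3 * Bd) ≤ s := hs1
      _ = s * 1 := (mul_one _).symm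
      _ ≤ s * Q := Nat.mul_le_mul_left _ hQpos
      _ ≤ α₀ + s * Q := Nat.le_add_left _ _
  · have hQle : Q ≤ Y ^ ((m * Fintype.card Z) * Bd + 1) := by
      have h1 : ∏ p ∈ PU, d p ≤ Y ^ ((m * Fintype.card Z) * Bd) := by
        calc ∏ p ∈ PU, d p ≤ ∏ _p ∈ PU, Y ^ Bd := prod_le_prod' fun p _ => hdle p
          _ = (Y ^ Bd) ^ PU.card := by rw [prod_const]
          _ ≤ (Y ^ Bd) ^ (m * Fintype.card Z) := by
            refine Nat.pow_le_pow_right (by positivity) ?_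
            refine (card_le_univ PU).trans ?_
            rw [Fintype.card_prod, Fintype.card_fin]
          _ = Y ^ ((m * Fintype.card Z) * Bd) := by rw [← pow_mul, mul_comm]
      calc Q ≤ Y * Y ^ ((m * Fintype.card Z) * Bd) := Nat.mul_le_mul haY h1
        _ = _ := by rw [pow_succ, mul_comm]
    have h2 : s + 1 ≤ Y ^ (3 * Bd + C1 + 1) := by
      have h3 : Y ^ (3 * Bd) ≤ Y ^ (3 * Bd + C1) := Nat.pow_le_pow_right (by omega) (by omega)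
      have h4 : Y ^ C1 ≤ Y ^ (3 * Bd + C1) := Nat.pow_le_pow_right (by omega) (by omega)
      have h5 : Y ^ (3 * Bd + C1 + 1) = Y ^ (3 * Bd + C1) * Y := pow_succ _ _
      have h6 : Y ^ (3 * Bd + C1) * 2 ≤ Y ^ (3 * Bd + C1) * Y := Nat.mul_le_mul_left _ hY2
      omega
    calc α₀ + s * Q ≤ Q + s * Q := by omega
      _ = (s + 1) * Q := by ring
      _ ≤ Y ^ (3 * Bd + C1 + 1) * Y ^ ((m * Fintype.card Z) * Bd + 1) := Nat.mul_le_mul h2 hQle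
      _ = _ := by rw [← pow_add]; congr 1; ring
  · have h1 : ((a₁ * W₂ : ℕ) : ℤ) ∣ ((α₀ + s * Q : ℕ) : ℤ) - (1 : ℕ) := by
      have h2 : ((a₁ * W₂ : ℕ) : ℤ) ∣ (s : ℤ) * Q := (Int.natCast_dvd_natCast.2 haQ).mul_left _
      have := dvd_add hα1 h2
      have e : (α₀ : ℤ) - 1 + s * Q = ((α₀ + s * Q : ℕ) : ℤ) - (1 : ℕ) := by push_cast; ring
      rwa [e] at this
    exact ((Nat.modEq_iff_dvd).2 h1).symm
  · intro i z hiz
    have h1 := hα2 (i, z) hiz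
    have h2 : ((d (i, z) : ℕ) : ℤ) ∣ (s : ℤ) * Q :=
      (Int.natCast_dvd_natCast.2 (hdQ (i, z) (by simpa [PU] using hiz))).mul_left _
    have h3 := dvd_add h1 h2
    have e : (α₀ : ℤ) + ((a₁ * W₂ * ((i : ℕ) + 1) : ℕ) : ℤ) + (s : ℤ) * Q =
      ((α₀ + s * Q + a₁ * W₂ * ((i : ℕ) + 1) : ℕ) : ℤ) := by push_cast; ring
    have h4 : ((d (i, z) : ℕ) : ℤ) ∣ ((α₀ + s * Q + a₁ * W₂ * ((i : ℕ) + 1) : ℕ) : ℤ) := by
      rw [← e]
      exact h3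
    exact Int.natCast_dvd_natCast.1 h4
  · intro i
    have h1 : Rough Y ((Q : ℤ) * s + ((α₀ + a₁ * W₂ * ((i : ℕ) + 1) : ℕ) : ℤ)) := ht3 (Sum.inl i)
    have e : (Q : ℤ) * s + ((α₀ + a₁ * W₂ * ((i : ℕ) + 1) : ℕ) : ℤ) =
      ((α₀ + s * Q + a₁ * W₂ * ((i : ℕ) + 1) : ℕ) : ℤ) := by push_cast; ring
    rwa [e] at h1
  · intro z
    have h1 : Rough Y (((a₂ * W₂ * x z * Q : ℕ) : ℤ) * s + ((a₂ * α₀ * W₂ * x z + y z : ℕ) : ℤ)) :=
      ht3 (Sum.inr z)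
    have e : ((a₂ * W₂ * x z * Q : ℕ) : ℤ) * s + ((a₂ * α₀ * W₂ * x z + y z : ℕ) : ℤ) =
      ((a₂ * (α₀ + s * Q) * W₂ * x z + y z : ℕ) : ℤ) := by push_cast; ring
    rwa [e] at h1

end Pool.Agent.TH423.PO
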