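import Pool.Agent.TH423.PO.TMem
import Pool.Agent.H661R3.OP.SV

/-!
Two linear forms: the counting statement (helper423).
-/

set_option autoImplicit false

open Finset

namespace Pool.Agent.TH423.PO

open Pool.Agent.H661R3.OP (Rough)
open Pool.Agent.TH423.SH (dd)

theorem EX2_finite (k : ℕ) (a₁ a₂ b₁ b₂ : ℤ) {s : ℕ} (E E' : Fin s → ℤ) (v : ZMod k → ZMod k)
    (Y X : ℕ) : (EX2 k a₁ a₂ b₁ b₂ E E' v Y X).Finite :=
  (Set.finite_Iic X).subset fun _ hn => hn.2.1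

theorem tct (hC : CCP) (h1 : ST1) : TCT := by
  classical
  intro k s a₁ a₂ hk ha₁ ha₂
  have : NeZero k := ⟨by omega⟩
  obtain ⟨m, W₀, hm, hW₀, HC⟩ := hC k 1 hk le_rfl (ZMod k × ZMod k) (ZMod k × ZMod k)
  obtain ⟨NZ, hNZ⟩ : ∃ NZ : ℕ, NZ = Fintype.card (Fin m → ZMod k × ZMod k) := ⟨_, rfl⟩
  obtain ⟨K, hK⟩ : ∃ K : ℕ, K = m + NZ + m * NZ * s := ⟨_, rfl⟩
  obtain ⟨W₂, hW₂⟩ : ∃ W₂ : ℕ, W₂ = W₀ * a₁ * a₂ * (2 * K + 2).factorial := ⟨_, rfl⟩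
  have hW₂pos : 1 ≤ W₂ := by
    rw [hW₂]
    exact Nat.mul_pos (Nat.mul_pos (Nat.mul_pos hW₀ ha₁) ha₂) (Nat.factorial_pos _)
  have ha₁W : a₁ ∣ W₂ := ⟨W₀ * a₂ * (2 * K + 2).factorial, by rw [hW₂]; ring⟩
  have ha₂W : a₂ ∣ W₂ := ⟨W₀ * a₁ * (2 * K + 2).factorial, by rw [hW₂]; ring⟩
  have hprW : ∀ p : ℕ, p.Prime → p ≤ 2 * K → p ∣ W₂ := by
    intro p hp hle
    rw [hW₂]
    exact ((hp.dvd_factorial).mpr (by omega)).mul_left _
  obtain ⟨W, hW⟩ : ∃ W : ℕ, W = a₁ * a₂ * W₂ ^ 2 := ⟨_, rfl⟩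
  have hWpos : 1 ≤ W := by
    rw [hW]; exact Nat.mul_pos (Nat.mul_pos ha₁ ha₂) (pow_pos hW₂pos 2)
  have hW₀W : W₀ ∣ W := by
    rw [hW]
    have : W₀ ∣ W₂ := ⟨a₁ * a₂ * (2 * K + 2).factorial, by rw [hW₂]; ring⟩
    exact (this.trans (Dvd.intro_left (W₂ ^ 1) (by ring))).mul_left _
  obtain ⟨Bd, Y₁, hBd, HC'⟩ := HC W hW₀W hWpos
  obtain ⟨C₁, Y₂, H1⟩ := h1 m (Fin m → ZMod k × ZMod k) a₁ a₂ W₂ Bd ha₁ ha₂ hW₂pos ha₁W ha₂W
    (fun p hp hle => hprW p hp (by rw [← hNZ] at hle; omega))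
  obtain ⟨CS, HS⟩ := Pool.Agent.H661R3.OP.t_SV K
  obtain ⟨C₂, hC₂⟩ : ∃ C₂ : ℕ, C₂ = C₁ + Bd + 4 := ⟨_, rfl⟩
  obtain ⟨C₃, hC₃⟩ : ∃ C₃ : ℕ, C₃ = 3 * C₂ + 1 := ⟨_, rfl⟩
  refine ⟨C₃ + CS + 8, Y₁ + Y₂ + a₁ + a₂ + W₂ + m + 2 * (m * NZ) + 16, by omega, ?_⟩
  intro Y X hY hYX b₁ b₂ E E' hb₁ hb₂ hadm v
  obtain ⟨x, y, u, hxy, hu, hcop⟩ := HC' Y (by omega)
    (fun a β => a.2 + β.2 - v (a.1 + β.1 - a.2 - β.2))
  obtain ⟨α, hαlow, hαup, hαmod, hdiv, hLr, hRr⟩ := H1 Y (by omega) x y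
    (fun i z => ∃ β, u z β = i) (by rw [← hW]; exact hxy)
    (by
      rintro i z ⟨β, rfl⟩ q hq hqd
      rw [← hW] at hqd
      exact ((hu z β).2.2 q hq hqd).2)
    (by
      rintro i z i' z' ⟨β, rfl⟩ ⟨β', rfl⟩ hne
      rw [← hW]
      exact hcop z β z' β' hne)
  rw [← hW] at hdiv
  obtain ⟨nst, hn0, hn1, hnp⟩ := exists_n1 W₂ hW₂pos a₁ a₂ b₁ b₂ (by exact_mod_cast ha₁) E E' hadm
  -- abbreviations
  obtain ⟨Lf, hLf⟩ : ∃ Lf : Fin m → ℕ, ∀ i, Lf i = α + a₁ * W₂ * ((i : ℕ) + 1) :=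
    ⟨_, fun _ => rfl⟩
  obtain ⟨Rf, hRf⟩ : ∃ Rf : (Fin m → ZMod k × ZMod k) → ℕ, ∀ z, Rf z =
    a₂ * α * W₂ * x z + y z := ⟨_, fun _ => rfl⟩
  have hLr' : ∀ i, Rough Y (Lf i : ℤ) := fun i => by rw [hLf]; exact hLr i
  have hRr' : ∀ z, Rough Y (Rf z : ℤ) := fun z => by rw [hRf]; exact hRr z
  have hα1 : 1 ≤ α := le_trans (Nat.one_le_pow _ _ (by omega)) hαlow
  have hY1 : 1 ≤ Y := by omega
  obtain ⟨al', hal'⟩ : ∃ al' : ℤ, (α : ℤ) = 1 + a₁ * W₂ * al' := by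
    have h2 : (α : ℤ) ≡ 1 [ZMOD ((a₁ * W₂ : ℕ) : ℤ)] := by
      have := (Int.natCast_modEq_iff).mpr (show α ≡ 1 [MOD a₁ * W₂] from hαmod)
      exact_mod_cast this
    obtain ⟨c, hc⟩ := h2.symm.dvd
    refine ⟨c, ?_⟩
    push_cast at hc
    linear_combination hc
  have hyW : ∀ z, ∃ y' : ℤ, (y z : ℤ) = 1 + a₁ * a₂ * W₂ ^ 2 * y' := by
    intro z
    have h2 : (y z : ℤ) ≡ 1 [ZMOD ((W : ℕ) : ℤ)] := by
      have := (Int.natCast_modEq_iff).mpr (show y z ≡ 1 [MOD W] from (hxy z).2.2.1)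
      exact_mod_cast this
    obtain ⟨c, hc⟩ := h2.symm.dvd
    refine ⟨c, ?_⟩
    rw [hW] at hc
    push_cast at hc
    linear_combination hc
  choose y' hy' using hyW
  have hddz : ∀ z (i : Fin m), ((dd W (x z) (y z) i : ℕ) : ℤ) =
      (y z : ℤ) - a₁ * a₂ * W₂ ^ 2 * ((i : ℕ) + 1 : ℕ) * x z := by
    intro z i
    have hle : W * ((i : ℕ) + 1) * x z ≤ y z := by
      refine le_trans ?_ (hxy z).2.2.2.2
      calc W * ((i : ℕ) + 1) * x z ≤ W * m * x z :=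
            Nat.mul_le_mul_right _ (Nat.mul_le_mul_left _ i.2)
        _ ≤ 2 * (W * m * x z) := by omega
        _ = 2 * W * m * x z := by ring
    unfold dd
    rw [Nat.cast_sub hle, hW]
    push_cast
    ring
  have hRL : ∀ z (i : Fin m), Rf z = a₂ * W₂ * x z * Lf i + dd W (x z) (y z) i := by
    intro z i
    zify
    rw [hddz z i, hRf, hLf]
    push_cast
    ring
  -- quotients for the used pairs
  have hused : ∀ p : {p : Fin m × (Fin m → ZMod k × ZMod k) // ∃ β, u p.2 β = p.1},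
      ∃ (L' R' : ℕ) (n₀ : ℤ), 0 < dd W (x p.1.2) (y p.1.2) p.1.1 ∧
        Lf p.1.1 = dd W (x p.1.2) (y p.1.2) p.1.1 * L' ∧
        Rf p.1.2 = dd W (x p.1.2) (y p.1.2) p.1.1 * R' ∧ (W₂ : ℤ) ∣ n₀ - nst ∧
        ∀ t : ℤ, a₁ * (n₀ + L' * Rf p.1.2 * W₂ * t) + b₁ =
          L' * (Rf p.1.2 * (a₁ * (nst + W₂ * t) + b₁) - W₂ * x p.1.2 * (a₂ * b₁ - a₁ * b₂)) ∧
        a₂ * (n₀ + L' * Rf p.1.2 * W₂ * t) + b₂ =
          R' * (a₂ * nst + b₂ + a₂ * W₂ * (al' + ((p.1.1 : ℕ) + 1 : ℕ)) * (a₁ * nst + b₁) +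
            a₂ * Lf p.1.1 * W₂ * t) := by
    rintro ⟨⟨i, z⟩, β, hβ⟩
    simp only at hβ ⊢
    have hd0 : 0 < dd W (x z) (y z) i := by
      rw [← hβ]
      exact Nat.pos_of_ne_zero (hu z β).1.ne_zero
    obtain ⟨L', hL'⟩ := hdiv i z ⟨β, hβ⟩
    rw [← hLf] at hL'
    have hdR : dd W (x z) (y z) i ∣ Rf z := by
      rw [hRL z i]
      exact dvd_add (Dvd.dvd.mul_left ⟨L', hL'⟩ _) dvd_rfl
    obtain ⟨R', hR'⟩ := hdR
    have hd0z : ((dd W (x z) (y z) i : ℕ) : ℤ) ≠ 0 := by exact_mod_cast hd0.ne'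
    have hL'z : (Lf i : ℤ) = dd W (x z) (y z) i * L' := by exact_mod_cast hL'
    have hR'z : (Rf z : ℤ) = dd W (x z) (y z) i * R' := by exact_mod_cast hR'
    obtain ⟨n₀, hn₀, hfor⟩ := pairT (a₁ := (a₁ : ℤ)) (a₂ := a₂) (b₁ := b₁) (b₂ := b₂) (W₂ := W₂)
      (α := α) (x := x z) (y := y z) (h := ((i : ℕ) + 1 : ℕ)) (d := dd W (x z) (y z) i)
      (L' := L') (R' := R') (nst := nst) (al' := al') (y' := y' z)
      (by exact_mod_cast (by omega : a₁ ≠ 0)) hd0z hal' (hy' z) (hddz z i)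
      (by rw [← hL'z, hLf]; push_cast; ring) (by rw [← hR'z, hRf]; push_cast; ring)
    refine ⟨L', R', n₀, hd0, hL', hR', hn₀, fun t => ?_⟩
    have := hfor t
    rw [← hR'z, ← hL'z] at this
    exact this
  choose L' R' n₀ hdpos hL' hR' hn₀ hfor using hused
  obtain ⟨Δ, hΔ⟩ : ∃ Δ : ℤ, Δ = a₂ * b₁ - a₁ * b₂ := ⟨_, rfl⟩
  obtain ⟨T, hT⟩ : ∃ T : ℕ, T = X / Y ^ C₃ := ⟨_, rfl⟩
  have hY16 : (16 : ℤ) ≤ Y := by exact_mod_cast (by omega : 16 ≤ Y)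
  have hYC₃ : 0 < Y ^ C₃ := pow_pos (by omega) _
  -- the forms
  have hppz : ∀ p : ℕ, p.Prime → Prime (p : ℤ) := fun p hp => Nat.prime_iff_prime_int.1 hp
  have hW₂d : ∀ p : ℕ, p.Prime → (p : ℤ) ∣ (a₁ : ℤ) * W₂ → p ∣ W₂ := by
    intro p hp h
    rcases (hppz p hp).dvd_or_dvd h with h | h
    · exact (Int.natCast_dvd_natCast.mp h).trans ha₁W
    · exact Int.natCast_dvd_natCast.mp h
  have hW₂d2 : ∀ p : ℕ, p.Prime → (p : ℤ) ∣ (a₂ : ℤ) → p ∣ W₂ := fun p hp h =>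
    (Int.natCast_dvd_natCast.mp h).trans ha₂W
  have hconT : ∀ (i : Fin m) (p : ℕ), p.Prime → p ≤ Y → (p : ℤ) ∣ (a₂ : ℤ) * Lf i * W₂ →
      ¬ (p : ℤ) ∣ a₂ * nst + b₂ + a₂ * W₂ * (al' + ((i : ℕ) + 1 : ℕ)) * (a₁ * nst + b₁) := by
    intro i p hp hpY hd hd2
    have hpW : p ∣ W₂ := by
      rcases (hppz p hp).dvd_or_dvd hd with h | h
      · rcases (hppz p hp).dvd_or_dvd h with h | h
        · exact hW₂d2 p hp h
        · exact absurd h (hLr' i p hp hpY)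
      · exact Int.natCast_dvd_natCast.mp h
    have hpWz : (p : ℤ) ∣ W₂ := by exact_mod_cast hpW
    apply (hnp p hp hpW).2.1
    have e : a₂ * nst + b₂ = (a₂ * nst + b₂ + a₂ * W₂ * (al' + ((i : ℕ) + 1 : ℕ)) *
      (a₁ * nst + b₁)) - W₂ * (a₂ * (al' + ((i : ℕ) + 1 : ℕ)) * (a₁ * nst + b₁)) := by ring
    rw [e]
    exact dvd_sub hd2 (hpWz.mul_right _)
  have hconS : ∀ z (p : ℕ), p.Prime → p ≤ Y → (p : ℤ) ∣ (Rf z : ℤ) * (a₁ * W₂) →
      ¬ (p : ℤ) ∣ Rf z * (a₁ * nst + b₁) - W₂ * x z * Δ := by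
    intro z p hp hpY hd hd2
    have hpW : p ∣ W₂ := by
      rcases (hppz p hp).dvd_or_dvd hd with h | h
      · exact absurd h (hRr' z p hp hpY)
      · exact hW₂d p hp h
    have hpWz : (p : ℤ) ∣ W₂ := by exact_mod_cast hpW
    apply (hnp p hp hpW).1
    have e1 : (Rf z : ℤ) = 1 + W₂ * (a₂ * α * x z + a₁ * a₂ * W₂ * y' z) := by
      rw [hRf]; push_cast; rw [hy' z]; ring
    have e : a₁ * nst + b₁ = (Rf z * (a₁ * nst + b₁) - W₂ * x z * Δ) +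
      W₂ * (x z * Δ - (a₂ * α * x z + a₁ * a₂ * W₂ * y' z) * (a₁ * nst + b₁)) := by
      rw [e1]; ring
    rw [e]
    exact dvd_add hd2 (hpWz.mul_right _)
  have hEE : ∀ j, ∀ p : ℕ, p.Prime → (p : ℤ) ∣ E j → ¬ (p : ℤ) ∣ E' j := by
    intro j p hp g1 g2
    obtain ⟨n, -, -, g3⟩ := hadm p hp
    exact g3 j (dvd_add (g1.mul_right _) g2)
  have hconE : ∀ (P : {p : Fin m × (Fin m → ZMod k × ZMod k) // ∃ β, u p.2 β = p.1})
      (j : Fin s) (p : ℕ), p.Prime → p ≤ Y →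
      (p : ℤ) ∣ E j * (L' P * Rf P.1.2 * W₂) → ¬ (p : ℤ) ∣ E j * n₀ P + E' j := by
    intro P j p hp hpY hd hd2
    rcases (hppz p hp).dvd_or_dvd hd with h | h
    · apply hEE j p hp h
      have e : E' j = (E j * n₀ P + E' j) - E j * n₀ P := by ring
      rw [e]
      exact dvd_sub hd2 (h.mul_right _)
    · have hpW : p ∣ W₂ := by
        rcases (hppz p hp).dvd_or_dvd h with h | h
        · rcases (hppz p hp).dvd_or_dvd h with h | h
          · exfalso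
            have := hLr' P.1.1 p hp hpY
            rw [hL' P] at this
            push_cast at this
            exact this (h.mul_left _)
          · exact absurd h (hRr' _ p hp hpY)
        · exact Int.natCast_dvd_natCast.mp h
      have hpWz : (p : ℤ) ∣ W₂ := by exact_mod_cast hpW
      apply (hnp p hp hpW).2.2 j
      have e : E j * nst + E' j = (E j * n₀ P + E' j) - E j * (n₀ P - nst) := by ring
      rw [e]
      exact dvd_sub hd2 ((hpWz.trans (hn₀ P)).mul_left _)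
  obtain ⟨cc, hcc⟩ : ∃ cc : (Fin m ⊕ ((Fin m → ZMod k × ZMod k) ⊕
      ({p : Fin m × (Fin m → ZMod k × ZMod k) // ∃ β, u p.2 β = p.1} × Fin s))) → ℤ, cc =
    Sum.elim (fun i => (a₂ : ℤ) * Lf i * W₂) (Sum.elim (fun z => (Rf z : ℤ) * (a₁ * W₂))
      (fun q => E q.2 * (L' q.1 * Rf q.1.1.2 * W₂))) := ⟨_, rfl⟩
  obtain ⟨dc, hdc⟩ : ∃ dc : (Fin m ⊕ ((Fin m → ZMod k × ZMod k) ⊕
      ({p : Fin m × (Fin m → ZMod k × ZMod k) // ∃ β, u p.2 β = p.1} × Fin s))) → ℤ, dc =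
    Sum.elim (fun i : Fin m => a₂ * nst + b₂ +
        a₂ * W₂ * (al' + ((i : ℕ) + 1 : ℕ)) * (a₁ * nst + b₁))
      (Sum.elim (fun z => Rf z * (a₁ * nst + b₁) - W₂ * x z * Δ)
        (fun q => E q.2 * n₀ q.1 + E' q.2)) := ⟨_, rfl⟩
  have hsv := HS (Fin m ⊕ ((Fin m → ZMod k × ZMod k) ⊕
      ({p : Fin m × (Fin m → ZMod k × ZMod k) // ∃ β, u p.2 β = p.1} × Fin s)))
    (by
      rw [Fintype.card_sum, Fintype.card_sum, Fintype.card_prod, Fintype.card_fin,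
        Fintype.card_fin, ← hNZ, hK]
      have h3 : Fintype.card {p : Fin m × (Fin m → ZMod k × ZMod k) // ∃ β, u p.2 β = p.1} ≤
          m * NZ := by
        refine (Fintype.card_subtype_le _).trans ?_
        rw [Fintype.card_prod, Fintype.card_fin, hNZ]
      have := Nat.mul_le_mul_right s h3
      omega)
    cc dc Y (by omega)
    (by
      rw [hcc, hdc]
      rintro (i | z | q) p hp hpY hd
      · exact hconT i p hp hpY hd
      · exact hconS z p hp hpY hd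
      · exact hconE q.1 q.2 p hp hpY hd)
    (by
      intro i p hp hle
      have hpW : (p : ℤ) ∣ (W₂ : ℤ) := by exact_mod_cast hprW p hp hle
      rw [hcc]
      rcases i with i | z | q
      · exact hpW.mul_left _
      · exact (hpW.mul_left _).mul_left _
      · exact (hpW.mul_left _).mul_left _)
    T T (by
      rw [hT, Nat.le_div_iff_mul_le hYC₃, ← pow_add]
      exact (Nat.pow_le_pow_right hY1 (by omega)).trans hYX)
  -- sizes
  obtain ⟨P, hP⟩ : ∃ P : ℕ, P = Y ^ C₂ := ⟨_, rfl⟩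
  have hP1 : 1 ≤ P := by rw [hP]; exact Nat.one_le_pow _ _ (by omega)
  have hPz : (1 : ℤ) ≤ P := by exact_mod_cast hP1
  have hLP : ∀ i, Lf i ≤ P := by
    intro i
    rw [hLf, hP]
    have := i.2
    exact numLf (by omega) (by omega) (by omega) (by omega) hαup (by omega)
  have hxy' : ∀ z, x z ≤ y z := by
    intro z
    refine le_trans ?_ (hxy z).2.2.2.2
    exact Nat.le_mul_of_pos_left _ (Nat.mul_pos (Nat.mul_pos two_pos hWpos) hm)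
  have hRP : ∀ z, Rf z ≤ P := by
    intro z
    rw [hRf, hP]
    exact numRf (by omega) (by omega) (by omega) (hxy' z) (hxy z).2.1 hαup (by omega)
  have hwR : ∀ z, W₂ * x z ≤ Rf z := by
    intro z
    rw [hRf]
    have : W₂ * x z ≤ a₂ * α * (W₂ * x z) := Nat.le_mul_of_pos_left _ (Nat.mul_pos ha₂ hα1)
    calc W₂ * x z ≤ a₂ * α * (W₂ * x z) := this
      _ = a₂ * α * W₂ * x z := by ring
      _ ≤ _ := Nat.le_add_right _ _
  have hTX : Y ^ C₃ * T ≤ X := by rw [hT]; exact Nat.mul_div_le _ _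
  have hTY : Y ^ 8 ≤ T := by
    rw [hT, Nat.le_div_iff_mul_le hYC₃, ← pow_add]
    exact (Nat.pow_le_pow_right hY1 (by omega)).trans hYX
  have hTYz : (Y : ℤ) ^ 8 ≤ T := by exact_mod_cast hTY
  have hT1 : (1 : ℤ) ≤ T := (num8 hY16 hTYz).1
  have ha₁Y : (a₁ : ℤ) ≤ Y := by exact_mod_cast (by omega : a₁ ≤ Y)
  have ha₂Y : (a₂ : ℤ) ≤ Y := by exact_mod_cast (by omega : a₂ ≤ Y)
  have ha₁z : (1 : ℤ) ≤ a₁ := by exact_mod_cast ha₁
  have ha₂z : (1 : ℤ) ≤ a₂ := by exact_mod_cast ha₂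
  have hW₂z : (1 : ℤ) ≤ W₂ := by exact_mod_cast hW₂pos
  have hb₁T := numTb hY1 hT hb₁
  have hb₂T := numTb hY1 hT hb₂
  have hb₁4 : 4 * |b₁| ≤ T := (numb hY16 hTYz hb₁T).1
  have hΔ4 : 4 * |Δ| ≤ T := by
    rw [hΔ]
    exact numΔ hY16 hTYz ha₁z ha₂z ha₁Y ha₂Y hb₁T hb₂T
  have ha₁4 : 4 * (a₁ : ℤ) ≤ T := by
    have h3 := (num8 hY16 hTYz).2.2
    linarith
  have hXP : 5 * (P : ℤ) ^ 3 * T ≤ X := by
    exact_mod_cast numX hC₃ hP (by omega) hTX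
  have haW : (a₁ : ℤ) * W₂ ≤ P := by
    have : a₁ * W₂ ≤ P := by
      calc a₁ * W₂ ≤ Y * Y := Nat.mul_le_mul (by omega) (by omega)
        _ = Y ^ 2 := by ring
        _ ≤ Y ^ C₂ := Nat.pow_le_pow_right hY1 (by omega)
        _ = P := hP.symm
    exact_mod_cast this
  obtain ⟨EX, hEX⟩ : ∃ EX, EX = EX2 k (a₁ : ℤ) a₂ b₁ b₂ E E' v Y X := ⟨_, rfl⟩
  have hEXfin : EX.Finite := by rw [hEX]; exact EX2_finite _ _ _ _ _ _ _ _ _ _
  rw [← hEX]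
  -- covering
  have hcover : {t : ℤ | (T : ℤ) ≤ t ∧ t < (T : ℤ) + T ∧ ∀ i, Rough Y (cc i * t + dc i)} ⊆
      ⋃ p : {p : Fin m × (Fin m → ZMod k × ZMod k) // ∃ β, u p.2 β = p.1},
        {t : ℤ | 1 ≤ n₀ p + L' p * Rf p.1.2 * W₂ * t ∧
          (n₀ p + L' p * Rf p.1.2 * W₂ * t).toNat ∈ EX} := by
    rintro t ⟨ht1, ht2, htr⟩
    obtain ⟨δ, hδ⟩ : ∃ δ : ℤ, δ = a₁ * (nst + W₂ * t) + b₁ := ⟨_, rfl⟩
    obtain ⟨Tt, hTt⟩ : ∃ Tt : Fin m → ℤ, ∀ i, Tt i = a₂ * nst + b₂ +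
      a₂ * W₂ * (al' + ((i : ℕ) + 1 : ℕ)) * (a₁ * nst + b₁) + a₂ * Lf i * W₂ * t :=
      ⟨_, fun _ => rfl⟩
    obtain ⟨St, hSt⟩ : ∃ St : (Fin m → ZMod k × ZMod k) → ℤ, ∀ z, St z =
      Rf z * δ - W₂ * x z * Δ := ⟨_, fun _ => rfl⟩
    have hδb : (T : ℤ) ≤ δ ∧ δ ≤ 3 * P * T := by
      have e1 : δ = (a₁ * nst + b₁) + a₁ * W₂ * t := by rw [hδ]; ring
      rw [e1]
      exact numδ ha₁z hW₂z hn0 hn1 ht1 ht2 hT1 haW
    obtain ⟨hδT, hδup⟩ := hδb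
    have hw0 : ∀ z, (0 : ℤ) ≤ W₂ * x z := fun z => by positivity
    have hwRz : ∀ z, (W₂ : ℤ) * x z ≤ Rf z := fun z => by exact_mod_cast hwR z
    have hR1 : ∀ z, (1 : ℤ) ≤ Rf z := by
      intro z
      have : 1 ≤ Rf z := by
        refine le_trans ?_ (hwR z)
        exact Nat.mul_pos hW₂pos (hxy z).1
      exact_mod_cast this
    have hRPz : ∀ z, (Rf z : ℤ) ≤ P := fun z => by exact_mod_cast hRP z
    have hS1 : ∀ z, 3 * (T : ℤ) ≤ 4 * St z := fun z => by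
      rw [hSt]
      exact szS (hw0 z) (hwRz z) (hR1 z) hδT hΔ4 hT1
    have hS2 : ∀ z, St z ≤ 4 * (P : ℤ) ^ 2 * T := fun z => by
      rw [hSt]
      exact szSup (hw0 z) ((hwRz z).trans (hRPz z)) (by linarith [hR1 z]) (hRPz z) hPz
        (by linarith) hδup hΔ4 hT1
    have hLz : ∀ i : Fin m, (Lf i : ℤ) = 1 + a₁ * W₂ * (al' + ((i : ℕ) + 1 : ℕ)) := by
      intro i
      rw [hLf]
      push_cast
      rw [hal']
      ring
    have hL1 : ∀ i, (1 : ℤ) ≤ Lf i := by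
      intro i
      have : 1 ≤ Lf i := by rw [hLf]; omega
      exact_mod_cast this
    have hT2 : ∀ i, 0 < Tt i := by
      intro i
      have e1 : a₁ * Tt i = a₂ * Lf i * δ - Δ := by
        rw [hTt, hδ, hΔ]
        linear_combination (-(a₂ : ℤ) * (a₁ * nst + b₁)) * hLz i
      exact numT ha₁z ha₂z (hL1 i) hδT hΔ4 hT1 e1
    obtain ⟨z, hz⟩ : ∃ z : Fin m → ZMod k × ZMod k, ∀ i, z i =
      (((ArithmeticFunction.cardFactors (Lf i) : ℕ) : ZMod k),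
        ((ArithmeticFunction.cardFactors (Tt i).natAbs : ℕ) : ZMod k)) := ⟨_, fun _ => rfl⟩
    obtain ⟨β, hβ⟩ : ∃ β : ZMod k × ZMod k, β =
      (((ArithmeticFunction.cardFactors (St z).natAbs : ℕ) : ZMod k),
        ((ArithmeticFunction.cardFactors (Rf z) : ℕ) : ZMod k)) := ⟨_, rfl⟩
    obtain ⟨i, hi⟩ : ∃ i, i = u z β := ⟨_, rfl⟩
    obtain ⟨p, hp⟩ : ∃ p : {p : Fin m × (Fin m → ZMod k × ZMod k) // ∃ β, u p.2 β = p.1},
      p = ⟨(i, z), β, hi.symm⟩ := ⟨_, rfl⟩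
    have hp1 : p.1.1 = i := by rw [hp]
    have hp2 : p.1.2 = z := by rw [hp]
    obtain ⟨n, hn⟩ : ∃ n : ℤ, n = n₀ p + L' p * Rf p.1.2 * W₂ * t := ⟨_, rfl⟩
    have hf := hfor p t
    rw [← hn, hp1, hp2, ← hΔ, ← hδ, ← hSt, ← hTt] at hf
    have hdp := hdpos p
    have hLp := hL' p
    have hRp := hR' p
    rw [hp1, hp2] at hdp hLp hRp
    have hL'1 : (1 : ℤ) ≤ L' p := by
      have : 1 ≤ L' p := by
        rcases Nat.eq_zero_or_pos (L' p) with h | h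
        · rw [h] at hLp
          have := hL1 i
          rw [hLp] at this
          simp at this
        · exact h
      exact_mod_cast this
    have hL'P : (L' p : ℤ) ≤ P := by
      have : L' p ≤ P := by
        refine le_trans ?_ (hLP i)
        rw [hLp]
        exact Nat.le_mul_of_pos_left _ hdp
      exact_mod_cast this
    obtain ⟨hn1', hn2'⟩ := szn ha₁z hL'1 hL'P (hS1 z) (hS2 z) hb₁4 ha₁4 hf.1
    have hTr : ∀ i, Rough Y (Tt i) := by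
      intro i
      have := htr (Sum.inl i)
      simp only [hcc, hdc, Sum.elim_inl] at this
      rw [hTt, add_comm]
      exact this
    have hSr : ∀ z, Rough Y (St z) := by
      intro z
      have := htr (Sum.inr (Sum.inl z))
      simp only [hcc, hdc, Sum.elim_inl, Sum.elim_inr] at this
      have e : St z = (Rf z : ℤ) * (a₁ * W₂) * t + (Rf z * (a₁ * nst + b₁) - W₂ * x z * Δ) := by
        rw [hSt, hδ]; ring
      rw [e]
      exact this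
    have hEr : ∀ j, Rough Y (E j * n + E' j) := by
      intro j
      have := htr (Sum.inr (Sum.inr (p, j)))
      simp only [hcc, hdc, Sum.elim_inr] at this
      have e : E j * n + E' j = E j * (L' p * Rf p.1.2 * W₂) * t + (E j * n₀ p + E' j) := by
        rw [hn]; ring
      rw [e]
      exact this
    have hω := (hu z β).2.1
    rw [← hi, hz, hβ] at hω
    simp only at hω
    have hmem := memT (k := k) (a₁ := a₁) (a₂ := a₂) (b₁ := b₁) (b₂ := b₂) (E := E) (E' := E')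
      (v := v) (Y := Y) (X := X) hdp hLp hRp (by have := hL1 i; omega)
      (by have := hR1 z; omega) hf.1 hf.2 (by linarith [hS1 z]) (hT2 i) (hLr' i) (hRr' z) (hSr z)
      (hTr i) hEr hn1' (hn2'.trans hXP) hω
    rw [Set.mem_iUnion]
    refine ⟨p, ?_⟩
    rw [Set.mem_ofPred_eq, ← hn, hEX]
    exact ⟨hn1', hmem⟩
  have hone : ∀ p : {p : Fin m × (Fin m → ZMod k × ZMod k) // ∃ β, u p.2 β = p.1},
      {t : ℤ | 1 ≤ n₀ p + L' p * Rf p.1.2 * W₂ * t ∧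
          (n₀ p + L' p * Rf p.1.2 * W₂ * t).toNat ∈ EX}.ncard ≤ EX.ncard ∧
      {t : ℤ | 1 ≤ n₀ p + L' p * Rf p.1.2 * W₂ * t ∧
          (n₀ p + L' p * Rf p.1.2 * W₂ * t).toNat ∈ EX}.Finite := by
    intro p
    have hcoef : (L' p : ℤ) * Rf p.1.2 * W₂ ≠ 0 := by
      have g1 : L' p ≠ 0 := by
        intro h0
        have g2 := hL' p
        rw [h0, mul_zero, hLf] at g2
        omega
      have g3 : Rf p.1.2 ≠ 0 := by
        have g4 := hwR p.1.2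
        have g5 : 0 < W₂ * x p.1.2 := Nat.mul_pos hW₂pos (hxy p.1.2).1
        omega
      have g6 : W₂ ≠ 0 := by omega
      exact mul_ne_zero (mul_ne_zero (by exact_mod_cast g1) (by exact_mod_cast g3))
        (by exact_mod_cast g6)
    have hinj : Set.InjOn (fun t : ℤ => (n₀ p + L' p * Rf p.1.2 * W₂ * t).toNat)
        {t : ℤ | 1 ≤ n₀ p + L' p * Rf p.1.2 * W₂ * t ∧
          (n₀ p + L' p * Rf p.1.2 * W₂ * t).toNat ∈ EX} := by
      intro t ht t' ht' heq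
      have g1 := ht.1
      have g2 := ht'.1
      simp only at heq
      have g3 : n₀ p + L' p * Rf p.1.2 * W₂ * t = n₀ p + L' p * Rf p.1.2 * W₂ * t' := by
        have e1 := Int.toNat_of_nonneg (show 0 ≤ n₀ p + L' p * Rf p.1.2 * W₂ * t by linarith)
        have e2 := Int.toNat_of_nonneg (show 0 ≤ n₀ p + L' p * Rf p.1.2 * W₂ * t' by linarith)
        rw [← e1, ← e2, heq]
      exact mul_left_cancel₀ hcoef (add_left_cancel g3)
    have hmaps : Set.MapsTo (fun t : ℤ => (n₀ p + L' p * Rf p.1.2 * W₂ * t).toNat)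
        {t : ℤ | 1 ≤ n₀ p + L' p * Rf p.1.2 * W₂ * t ∧
          (n₀ p + L' p * Rf p.1.2 * W₂ * t).toNat ∈ EX} EX := fun t ht => ht.2
    exact ⟨Set.ncard_le_ncard_of_injOn _ hmaps hinj hEXfin,
      Set.Finite.of_injOn hmaps hinj hEXfin⟩
  have hle1 := Set.ncard_le_ncard hcover
    (Set.finite_iUnion (fun p => (hone p).2))
  have hle2 := hle1.trans (Set.ncard_iUnion_le_of_fintype _)
  have hle3 : ∑ p : {p : Fin m × (Fin m → ZMod k × ZMod k) // ∃ β, u p.2 β = p.1},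
      {t : ℤ | 1 ≤ n₀ p + L' p * Rf p.1.2 * W₂ * t ∧
          (n₀ p + L' p * Rf p.1.2 * W₂ * t).toNat ∈ EX}.ncard ≤ m * NZ * EX.ncard := by
    refine (Finset.sum_le_card_nsmul _ _ EX.ncard (fun p _ => (hone p).1)).trans ?_
    rw [smul_eq_mul]
    apply Nat.mul_le_mul_right
    rw [Finset.card_univ]
    refine (Fintype.card_subtype_le _).trans ?_
    rw [Fintype.card_prod, Fintype.card_fin, hNZ]
  have hfin : T ≤ Y ^ CS * (m * NZ * EX.ncard) := by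
    refine hsv.trans ?_
    exact Nat.mul_le_mul_left _ (hle2.trans hle3)
  exact numFin hY1 hT (by exact_mod_cast hT1) (by omega) hfin

end Pool.Agent.TH423.PO
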