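import Pool.Agent.TH423.SH.All
import Pool.Agent.TH423.PO.CCP
import Pool.Agent.TH423.PO.ST1
import Pool.Agent.TH423.PO.TCT
import Pool.Agent.TH423.PO.GCT
import Pool.Agent.TH423.PO.MainT
import Pool.Agent.TH423.PO.MainG

/-! The theorems on two linear forms and on sums (helper423). -/

namespace Pool.Agent.TH423.PO

theorem ccp_all : CCP := ccp Pool.Agent.TH423.SH.msp_all

theorem tct_all : TCT := tct ccp_all st1

theorem gct_all : GCT := gct ccp_all st1

end Pool.Agent.TH423.PO
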