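import Pool.Agent.TH423.PO.StmQ
import Pool.Agent.TH423.DS.Main

/-!
Quadratic polynomials: the theorem in terms of `X ^ δ` (helper423).
-/

set_option autoImplicit false

open Finset Polynomial Filter Topology

namespace Pool.Agent.TH423.PO

open Pool.Agent.H661R3.OP (Rough)
open Pool.Agent.TH423.DS (AlmostPrime almostPrime_of_rough primes_count poly_bound poly_bounds
  cardFactors_le card_divisors_le)

theorem EXQ_finite (k : ℕ) (a b c : ℤ) {s : ℕ} (g : Fin s → ℤ[X]) (d₀ d₁ : ZMod k) (Y X : ℕ) :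
    (EXQ k a b c g d₀ d₁ Y X).Finite :=
  (Set.finite_Iic X).subset fun _ hn => hn.2.1

open Classical in
theorem countQ (hQ : QCT) (k : ℕ) (a b c : ℤ) (s : ℕ) (g : Fin s → ℤ[X]) (hk : 1 ≤ k)
    (ha : 0 < a) (hD : b ^ 2 - 4 * a * c ≠ 0)
    (hadm : ∀ p : ℕ, p.Prime → ∃ n : ℤ, ¬ (p : ℤ) ∣ a * n ^ 2 + b * n + c ∧
      ∀ j, ¬ (p : ℤ) ∣ (g j).eval n) :
    ∃ q C Y₀ N : ℕ, 0 < q ∧ 2 ≤ Y₀ ∧ ∀ Y Z X R : ℕ, Y₀ ≤ Y → Y ^ C ≤ Z → Y ^ C * Z ≤ X →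
    (∀ n : ℕ, n ≤ X → |a * (n : ℤ) ^ 2 + b * n + c| < (Y : ℤ) ^ (R + 1)) →
    ∀ d₀ d₁ : ZMod k,
    ((Ioc Z (2 * Z)).filter (fun p : ℕ => p.Prime ∧ (q : ℤ) ∣ (p : ℤ) - 1)).card ≤
      N * 2 ^ R * (EXQ k a b c g d₀ d₁ Y X).ncard := by
  obtain ⟨q, C, Y₀, N, hq, hY₀, hcore⟩ := hQ k a b c s g hk ha hD hadm
  refine ⟨q, C, Y₀, N, hq, hY₀, ?_⟩
  intro Y Z X R hY hYZ hZX hR d₀ d₁
  obtain ⟨Φ, hΦ⟩ := hcore Y Z X hY hYZ hZX d₀ d₁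
  obtain ⟨E, hE⟩ : ∃ E : Finset ℕ, ∀ n, n ∈ E ↔ n ∈ EXQ k a b c g d₀ d₁ Y X :=
    ⟨(EXQ_finite k a b c g d₀ d₁ Y X).toFinset, fun n => Set.Finite.mem_toFinset _⟩
  have hEcard : (EXQ k a b c g d₀ d₁ Y X).ncard = E.card := by
    rw [← Set.ncard_coe_finset]
    congr 1
    ext n
    rw [mem_coe, hE]
  rw [hEcard]
  obtain ⟨PZ, hPZ⟩ : ∃ PZ : Finset ℕ, PZ = (Ioc Z (2 * Z)).filter
    (fun p : ℕ => p.Prime ∧ (q : ℤ) ∣ (p : ℤ) - 1) := ⟨_, rfl⟩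
  rw [← hPZ]
  have h2 : ∀ G ∈ PZ,
      ∃ x : (Σ _ : ℕ, ℕ) × Fin N, x.1.1 ∈ E ∧
        x.1.2 ∣ (a * (x.1.1 : ℤ) ^ 2 + b * x.1.1 + c).natAbs ∧ (G : ℤ) = Φ x.2 x.1.1 x.1.2 := by
    intro G hG
    rw [hPZ, mem_filter, mem_Ioc] at hG
    obtain ⟨n, hn, j, δ, h1, h3⟩ := hΦ G hG.2.1 hG.1.1 hG.1.2 hG.2.2
    exact ⟨(⟨n, δ⟩, j), (hE n).2 hn, h1, h3⟩
  rcases Nat.eq_zero_or_pos N with hN0 | hN0
  · have : PZ = ∅ := by
      refine eq_empty_of_forall_notMem fun G hG => ?_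
      obtain ⟨x, -⟩ := h2 G hG
      have := x.2.2
      omega
    rw [this]
    simp
  have : Nonempty (Fin N) := ⟨⟨0, hN0⟩⟩
  choose! x hx1 hx2 hx3 using h2
  have hinj : Set.InjOn x (PZ : Set ℕ) := by
    intro G hG G' hG' heq
    rw [mem_coe] at hG hG'
    have h3 := hx3 G hG
    have h4 := hx3 G' hG'
    rw [← heq, ← h3] at h4
    exact_mod_cast h4.symm
  have hmaps : ∀ G ∈ PZ,
      x G ∈ (E.sigma (fun n => (a * (n : ℤ) ^ 2 + b * n + c).natAbs.divisors)) ×ˢ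
        (Finset.univ : Finset (Fin N)) := by
    intro G hG
    rw [mem_product, mem_sigma, Nat.mem_divisors]
    refine ⟨⟨hx1 G hG, hx2 G hG, ?_⟩, mem_univ _⟩
    have h3 := (hE _).1 (hx1 G hG)
    exact Int.natAbs_ne_zero.2 h3.2.2.1.ne'
  have hcard := Finset.card_le_card_of_injOn x hmaps hinj
  refine hcard.trans ?_
  rw [card_product, card_sigma, card_univ, Fintype.card_fin]
  have h5 : ∑ n ∈ E, (a * (n : ℤ) ^ 2 + b * n + c).natAbs.divisors.card ≤ ∑ _n ∈ E, 2 ^ R := by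
    refine sum_le_sum fun n hn => ?_
    have h3 := (hE _).1 hn
    have h0 : (a * (n : ℤ) ^ 2 + b * n + c).natAbs ≠ 0 := Int.natAbs_ne_zero.2 h3.2.2.1.ne'
    refine (card_divisors_le _ h0).trans (Nat.pow_le_pow_right (by norm_num) ?_)
    refine cardFactors_le (by omega : 1 ≤ Y) h0 ?_ ?_
    · intro p hp hpY hd
      exact h3.2.2.2.1 p hp hpY (by rwa [Int.dvd_natAbs] at hd)
    · zify
      exact_mod_cast hR n h3.2.1
  rw [sum_const, smul_eq_mul] at h5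
  calc (∑ n ∈ E, (a * (n : ℤ) ^ 2 + b * n + c).natAbs.divisors.card) * N
      ≤ (E.card * 2 ^ R) * N := Nat.mul_le_mul_right _ h5
    _ = N * 2 ^ R * E.card := by ring

theorem mainQ (hQ : QCT) (k : ℕ) (hk : 1 ≤ k) (a b c : ℤ) (ha : 0 < a)
    (hD : b ^ 2 - 4 * a * c ≠ 0) {s : ℕ} (g : Fin s → ℤ[X])
    (hadm : ∀ p : ℕ, p.Prime → ∃ n : ℤ, ¬ (p : ℤ) ∣ a * n ^ 2 + b * n + c ∧
      ∀ j, ¬ (p : ℤ) ∣ (g j).eval n) (ε : ℝ) (hε : 0 < ε) :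
    ∃ R X₀ : ℕ, ∃ δ : ℝ, 0 < δ ∧ ∀ X : ℕ, X₀ ≤ X → ∀ A : ZMod k → Set ℕ,
    (∀ v, A v = {n : ℕ | 1 ≤ n ∧ n ≤ X ∧ 0 < a * (n : ℤ) ^ 2 + b * n + c ∧
      AlmostPrime ((X : ℝ) ^ δ) R (a * (n : ℤ) ^ 2 + b * n + c) ∧
      (∀ j, AlmostPrime ((X : ℝ) ^ δ) R ((g j).eval (n : ℤ))) ∧
      ((ArithmeticFunction.cardFactors (a * (n : ℤ) ^ 2 + b * n + c).natAbs : ℕ) : ZMod k) =
        v}) →
    (∀ d, (X : ℝ) ^ (1 - ε) ≤ ((A (2 * d)).ncard : ℝ)) ∨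
      (∀ d, (X : ℝ) ^ (1 - ε) ≤ ((A (2 * d + 1)).ncard : ℝ)) := by
  classical
  obtain ⟨q, C₂, Y₀, N, hq, hY₀, hcount⟩ := countQ hQ k a b c s g hk ha hD hadm
  obtain ⟨ε', hε'⟩ : ∃ ε' : ℝ, ε' = min ε (1 / 2) := ⟨_, rfl⟩
  have hε'0 : 0 < ε' := by rw [hε']; positivity
  have hε'ε : ε' ≤ ε := by rw [hε']; exact min_le_left _ _
  have hε'2 : ε' ≤ 1 / 2 := by rw [hε']; exact min_le_right _ _
  obtain ⟨Z₀, hZ₀⟩ := primes_count q hq (ε' / 4) (by positivity)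
  obtain ⟨B₁, X₁, hB₁⟩ := poly_bound (C a * X ^ 2 + C b * X + C c)
  obtain ⟨B₂, X₂, hB₂⟩ := poly_bounds g
  obtain ⟨δ, hδ⟩ : ∃ δ : ℝ, δ = ε' / (8 * (2 * C₂ + 4)) := ⟨_, rfl⟩
  have hC4 : (0 : ℝ) < 2 * (C₂ : ℝ) + 4 := by positivity
  have hδ0 : 0 < δ := by rw [hδ]; positivity
  have hδC : δ * (2 * C₂ + 4) = ε' / 8 := by rw [hδ]; field_simp
  obtain ⟨t, ht⟩ := exists_nat_ge (2 / δ)
  have htδ : 2 ≤ t * δ := by rwa [div_le_iff₀ hδ0] at ht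
  obtain ⟨R, hR⟩ : ∃ R : ℕ, R = t * (B₁ + B₂) := ⟨_, rfl⟩
  -- all the largeness conditions
  have hn : Tendsto (fun X : ℕ => (X : ℝ)) atTop atTop := tendsto_natCast_atTop_atTop
  have hn1 : Tendsto (fun X : ℕ => (X : ℝ) ^ (δ / 2)) atTop atTop :=
    (tendsto_rpow_atTop (by positivity)).comp hn
  have hn2 : Tendsto (fun X : ℕ => (X : ℝ) ^ (ε' / 2)) atTop atTop :=
    (tendsto_rpow_atTop (by positivity)).comp hn
  have hev := ((hn1.eventually (eventually_ge_atTop ((Y₀ + Z₀ + 4 : ℕ) : ℝ))).and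
    (hn2.eventually (eventually_gt_atTop (4 * (N * (2 : ℝ) ^ R))))).and
    (eventually_ge_atTop (X₁ + X₂ + 2))
  obtain ⟨X₀, hX₀⟩ := eventually_atTop.1 hev
  refine ⟨R, X₀, δ, hδ0, fun X hX A hAdef => ?_⟩
  obtain ⟨⟨hA, hB⟩, hX12⟩ := hX₀ X hX
  have hX2 : (2 : ℝ) ≤ X := by exact_mod_cast (by omega : 2 ≤ X)
  have hXp : (0 : ℝ) < X := by linarith
  obtain ⟨Y, hY⟩ : ∃ Y : ℕ, Y = ⌊(X : ℝ) ^ δ⌋₊ := ⟨_, rfl⟩
  have hsq : (X : ℝ) ^ (δ / 2) * (X : ℝ) ^ (δ / 2) = (X : ℝ) ^ δ := by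
    rw [← Real.rpow_add hXp]; congr 1; ring
  obtain ⟨x, hx⟩ : ∃ x : ℝ, x = (X : ℝ) ^ (δ / 2) := ⟨_, rfl⟩
  rw [← hx] at hsq hA
  have hYle : (Y : ℝ) ≤ (X : ℝ) ^ δ := by
    rw [hY]; exact Nat.floor_le (by positivity)
  have hYlt : (X : ℝ) ^ δ < Y + 1 := by
    rw [hY]; exact Nat.lt_floor_add_one _
  have hA4 : (4 : ℝ) ≤ x := by
    refine le_trans ?_ hA
    push_cast
    have : (0 : ℝ) ≤ (Y₀ : ℝ) + Z₀ := by positivity
    linarith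
  have hxY : x ≤ Y := by
    have : x ≤ x * x - 1 := by nlinarith
    linarith
  have hYN : Y₀ + Z₀ + 4 ≤ Y := by exact_mod_cast hA.trans hxY
  have hY4 : (4 : ℝ) ≤ Y := hA4.trans hxY
  obtain ⟨Z, hZ⟩ : ∃ Z : ℕ, Z = X / Y ^ C₂ := ⟨_, rfl⟩
  have hYpos : 0 < Y ^ C₂ := by
    have : 0 < Y := by omega
    positivity
  have hYC3 : Y ^ (C₂ + (C₂ + 1)) ≤ X := by
    have h1 : ((Y : ℝ)) ^ (C₂ + (C₂ + 1)) ≤ X := by
      calc ((Y : ℝ)) ^ (C₂ + (C₂ + 1)) ≤ ((X : ℝ) ^ δ) ^ (C₂ + (C₂ + 1)) :=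
            pow_le_pow_left₀ (by positivity) hYle _
        _ = (X : ℝ) ^ (δ * (C₂ + (C₂ + 1))) := by
            rw [← Real.rpow_natCast, ← Real.rpow_mul hXp.le]
            push_cast
            ring_nf
        _ ≤ (X : ℝ) ^ (1 : ℝ) := by
            apply Real.rpow_le_rpow_of_exponent_le (by linarith)
            nlinarith
        _ = X := Real.rpow_one _
    exact_mod_cast h1
  have hYZ1 : Y ^ (C₂ + 1) ≤ Z := by
    rw [hZ, Nat.le_div_iff_mul_le hYpos, ← pow_add, add_comm (C₂ + 1)]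
    exact hYC3
  have hYZ : Y ^ C₂ ≤ Z :=
    (Nat.pow_le_pow_right (by omega) (by omega)).trans hYZ1
  have hYY : Y ≤ Z := by
    refine le_trans ?_ hYZ1
    calc Y = Y ^ 1 := (pow_one Y).symm
      _ ≤ Y ^ (C₂ + 1) := Nat.pow_le_pow_right (by omega) (by omega)
  have hZX : Y ^ C₂ * Z ≤ X := by rw [hZ]; exact Nat.mul_div_le _ _
  have hXt : (X : ℤ) ≤ (Y : ℤ) ^ t := by
    have h1 : (X : ℝ) ≤ (Y : ℝ) ^ t := by
      calc (X : ℝ) = (X : ℝ) ^ (1 : ℝ) := (Real.rpow_one _).symm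
        _ ≤ (X : ℝ) ^ (δ / 2 * t) := by
            apply Real.rpow_le_rpow_of_exponent_le (by linarith)
            nlinarith
        _ = x ^ t := by rw [Real.rpow_mul hXp.le, Real.rpow_natCast, hx]
        _ ≤ (Y : ℝ) ^ t := pow_le_pow_left₀ (by linarith) hxY t
    exact_mod_cast h1
  have hY1' : (1 : ℤ) < Y := by exact_mod_cast (by omega : 1 < Y)
  have hXB : ∀ B : ℕ, B ≤ B₁ + B₂ → (X : ℤ) ^ B < (Y : ℤ) ^ (R + 1) := by
    intro B hBB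
    calc (X : ℤ) ^ B ≤ ((Y : ℤ) ^ t) ^ B := pow_le_pow_left₀ (by positivity) hXt B
      _ = (Y : ℤ) ^ (t * B) := by rw [← pow_mul]
      _ ≤ (Y : ℤ) ^ R := by
          apply pow_le_pow_right₀ hY1'.le
          rw [hR]
          exact Nat.mul_le_mul_left _ hBB
      _ < (Y : ℤ) ^ (R + 1) := pow_lt_pow_right₀ hY1' (by omega)
  have hf : ∀ n : ℕ, n ≤ X → |a * (n : ℤ) ^ 2 + b * n + c| < (Y : ℤ) ^ (R + 1) := by
    intro n hn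
    have h1 := hB₁ X (by omega) n hn
    have h2 : (C a * Polynomial.X ^ 2 + C b * Polynomial.X + C c : ℤ[X]).eval (n : ℤ) =
      a * (n : ℤ) ^ 2 + b * n + c := by
      simp
    rw [h2] at h1
    exact h1.trans_lt (hXB B₁ (by omega))
  have hg : ∀ n : ℕ, n ≤ X → ∀ j, |(g j).eval (n : ℤ)| < (Y : ℤ) ^ (R + 1) := by
    intro n hn j
    exact (hB₂ X (by omega) n hn j).trans_lt (hXB B₂ (by omega))
  by_contra hcon
  rw [not_or] at hcon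
  obtain ⟨hc0, hc1⟩ := hcon
  push Not at hc0 hc1
  obtain ⟨d₀, hd₀⟩ := hc0
  obtain ⟨d₁, hd₁⟩ := hc1
  have hmain := hcount Y Z X R (by omega) hYZ hZX hf d₀ d₁
  have hprimes := hZ₀ Z (by omega)
  have hsub : EXQ k a b c g d₀ d₁ Y X ⊆ A (2 * d₀) ∪ A (2 * d₁ + 1) := by
    rintro n ⟨h1, h2, h3, h4, h5, h6⟩
    rcases h6 with h6 | h6
    · left
      rw [hAdef]
      exact ⟨h1, h2, h3, almostPrime_of_rough (by omega) hYlt h4 (hf n h2),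
        fun j => almostPrime_of_rough (by omega) hYlt (h5 j) (hg n h2 j), h6⟩
    · right
      rw [hAdef]
      exact ⟨h1, h2, h3, almostPrime_of_rough (by omega) hYlt h4 (hf n h2),
        fun j => almostPrime_of_rough (by omega) hYlt (h5 j) (hg n h2 j), h6⟩
  have hfin : ∀ v, (A v).Finite := fun v => by
    rw [hAdef]; exact (Set.finite_Iic X).subset fun n hn => hn.2.1
  have hle := (Set.ncard_le_ncard hsub ((hfin _).union (hfin _))).trans (Set.ncard_union_le _ _)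
  obtain ⟨T, hT⟩ : ∃ T : ℝ, T = (X : ℝ) ^ (1 - ε') := ⟨_, rfl⟩
  have hexp : (X : ℝ) ^ (1 - ε) ≤ T := by
    rw [hT]; exact Real.rpow_le_rpow_of_exponent_le (by linarith) (by linarith)
  have hle2 : ((EXQ k a b c g d₀ d₁ Y X).ncard : ℝ) ≤ 2 * T := by
    have h1 : ((EXQ k a b c g d₀ d₁ Y X).ncard : ℝ) ≤
        ((A (2 * d₀)).ncard : ℝ) + ((A (2 * d₁ + 1)).ncard : ℝ) := by exact_mod_cast hle
    linarith
  have hchain : (Z : ℝ) ^ (1 - ε' / 4) ≤ N * (2 : ℝ) ^ R * (2 * T) := by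
    calc (Z : ℝ) ^ (1 - ε' / 4) ≤ ((N * 2 ^ R * (EXQ k a b c g d₀ d₁ Y X).ncard : ℕ) : ℝ) :=
          hprimes.trans (by exact_mod_cast hmain)
      _ = N * (2 : ℝ) ^ R * ((EXQ k a b c g d₀ d₁ Y X).ncard : ℝ) := by push_cast; ring
      _ ≤ _ := mul_le_mul_of_nonneg_left hle2 (by positivity)
  -- the numbers
  have hZlow : (X : ℝ) ^ (1 - δ * C₂) / 2 ≤ Z := by
    have h1 : X < Y ^ C₂ * (Z + 1) := by
      rw [hZ]
      exact Nat.lt_mul_div_succ X hYpos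
    have h2 : (X : ℝ) < (Y : ℝ) ^ C₂ * (Z + 1) := by exact_mod_cast h1
    have h3 : (Y : ℝ) ^ C₂ ≤ (X : ℝ) ^ (δ * C₂) := by
      rw [Real.rpow_mul hXp.le, Real.rpow_natCast]
      exact pow_le_pow_left₀ (by positivity) hYle _
    have h4 : (1 : ℝ) ≤ Z := by exact_mod_cast (by omega : 1 ≤ Z)
    have h5 : (X : ℝ) ≤ (X : ℝ) ^ (δ * C₂) * (2 * Z) := by
      calc (X : ℝ) ≤ (Y : ℝ) ^ C₂ * (Z + 1) := h2.le
        _ ≤ (X : ℝ) ^ (δ * C₂) * (Z + 1) := mul_le_mul_of_nonneg_right h3 (by linarith)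
        _ ≤ (X : ℝ) ^ (δ * C₂) * (2 * Z) :=
          mul_le_mul_of_nonneg_left (by linarith) (by positivity)
    have h6 : (X : ℝ) ^ (1 - δ * C₂) * (X : ℝ) ^ (δ * C₂) = X := by
      rw [← Real.rpow_add hXp]
      simp
    have h7 : 0 < (X : ℝ) ^ (δ * C₂) := by positivity
    rw [div_le_iff₀ (by norm_num)]
    by_contra hcon
    push Not at hcon
    have := mul_lt_mul_of_pos_right hcon h7
    nlinarith
  have h8 : (X : ℝ) ^ (1 - ε' / 2) * (1 / 2) ≤ (Z : ℝ) ^ (1 - ε' / 4) := by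
    have h9 : ((X : ℝ) ^ (1 - δ * C₂) / 2) ^ (1 - ε' / 4) ≤ (Z : ℝ) ^ (1 - ε' / 4) :=
      Real.rpow_le_rpow (by positivity) hZlow (by linarith)
    refine le_trans ?_ h9
    rw [Real.div_rpow (by positivity) (by norm_num), ← Real.rpow_mul hXp.le, mul_one_div]
    have h10 : (2 : ℝ) ^ (1 - ε' / 4) ≤ 2 := by
      calc (2 : ℝ) ^ (1 - ε' / 4) ≤ (2 : ℝ) ^ (1 : ℝ) :=
            Real.rpow_le_rpow_of_exponent_le (by norm_num) (by linarith)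
        _ = 2 := Real.rpow_one _
    have h11 : (X : ℝ) ^ (1 - ε' / 2) ≤ (X : ℝ) ^ ((1 - δ * C₂) * (1 - ε' / 4)) := by
      apply Real.rpow_le_rpow_of_exponent_le (by linarith)
      have h13 : 0 ≤ δ * C₂ := by positivity
      have h12 : δ * C₂ ≤ ε' / 8 := by rw [← hδC]; nlinarith
      nlinarith
    calc (X : ℝ) ^ (1 - ε' / 2) / 2 ≤ (X : ℝ) ^ ((1 - δ * C₂) * (1 - ε' / 4)) / 2 := by linarith
      _ ≤ (X : ℝ) ^ ((1 - δ * C₂) * (1 - ε' / 4)) / (2 : ℝ) ^ (1 - ε' / 4) :=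
        div_le_div_of_nonneg_left (by positivity) (by positivity) h10
  have hTpos : 0 < T := by rw [hT]; positivity
  have h14 : (X : ℝ) ^ (1 - ε' / 2) = T * (X : ℝ) ^ (ε' / 2) := by
    rw [hT, ← Real.rpow_add hXp]
    congr 1
    ring
  have h15 : T * (4 * (N * (2 : ℝ) ^ R)) < T * (X : ℝ) ^ (ε' / 2) :=
    mul_lt_mul_of_pos_left hB hTpos
  rw [h14] at h8
  linarith

end Pool.Agent.TH423.PO
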