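import Pool.Agent.TH423.PO.StmQ
import Pool.Agent.TH423.DS.Arith

/-!
(QCT) quadratic polynomials: one exceptional integer for every prime, from (CCP) and (QFA)
(helper626, for helper423).
-/

set_option autoImplicit false

open Finset Polynomial

namespace Pool.Agent.TH423.PO

open Pool.Agent.H661R3.OP (Rough)
open Pool.Agent.TH423.SH (dd)
open Pool.Agent.TH423.DS (Rough.mul Rough.of_mul_left exists_nst)

namespace QCTaux

/-- the class wanted for `Ω(d)` -/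
noncomputable def wq (k : ℕ) (d₀ d₁ l s : ZMod k) : ZMod k :=
  if (l.val + s.val) % 2 = 0 then (((l.val + s.val) / 2 : ℕ) : ZMod k) - d₀
  else (((l.val + s.val) / 2 : ℕ) : ZMod k) - d₁

theorem wq_spec {k : ℕ} [NeZero k] (d₀ d₁ l s : ZMod k) :
    l + s - 2 * wq k d₀ d₁ l s = 2 * d₀ ∨ l + s - 2 * wq k d₀ d₁ l s = 2 * d₁ + 1 := by
  obtain ⟨t, ht⟩ : ∃ t : ℕ, t = l.val + s.val := ⟨_, rfl⟩
  have h : l + s = ((t : ℕ) : ZMod k) := by
    rw [ht]
    push_cast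
    rw [ZMod.natCast_zmod_val, ZMod.natCast_zmod_val]
  rw [h, wq, ← ht]
  by_cases he : t % 2 = 0
  · left
    rw [if_pos he]
    have h2 : t = 2 * (t / 2) := by omega
    have h3 : ((t : ℕ) : ZMod k) = 2 * ((t / 2 : ℕ) : ZMod k) := by
      conv_lhs => rw [h2]
      push_cast
      ring
    rw [h3]
    ring
  · right
    rw [if_neg he]
    have h2 : t = 2 * (t / 2) + 1 := by omega
    have h3 : ((t : ℕ) : ZMod k) = 2 * ((t / 2 : ℕ) : ZMod k) + 1 := by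
      conv_lhs => rw [h2]
      push_cast
      ring
    rw [h3]
    ring

theorem memQ {k : ℕ} {Y : ℕ} {f q S : ℤ} {d : ℕ} (hd : 0 < d) (hq : 0 < q) (hS : 0 < S)
    (hqr : Rough Y q) (hSr : Rough Y S) (hdq : (d : ℤ) ∣ q) (hdS : (d : ℤ) ∣ S)
    (hf : f * (d : ℤ) ^ 2 = q * S) :
    ∃ q' S' : ℕ, 0 < q' ∧ 0 < S' ∧ q = d * q' ∧ S = d * S' ∧ f = q' * S' ∧ Rough Y f ∧
      ((ArithmeticFunction.cardFactors f.natAbs : ℕ) : ZMod k) =
        ((ArithmeticFunction.cardFactors q.natAbs : ℕ) : ZMod k) +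
        ((ArithmeticFunction.cardFactors S.natAbs : ℕ) : ZMod k) -
        2 * ((ArithmeticFunction.cardFactors d : ℕ) : ZMod k) := by
  have hdz : (0 : ℤ) < d := by exact_mod_cast hd
  obtain ⟨q', hq'⟩ := hdq
  obtain ⟨S', hS'⟩ := hdS
  have hq'0 : 0 < q' := by
    by_contra hc
    have : (d : ℤ) * q' ≤ 0 := mul_nonpos_of_nonneg_of_nonpos hdz.le (by linarith)
    linarith
  have hS'0 : 0 < S' := by
    by_contra hc
    have : (d : ℤ) * S' ≤ 0 := mul_nonpos_of_nonneg_of_nonpos hdz.le (by linarith)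
    linarith
  lift q' to ℕ using hq'0.le
  lift S' to ℕ using hS'0.le
  have hq'n : 0 < q' := by exact_mod_cast hq'0
  have hS'n : 0 < S' := by exact_mod_cast hS'0
  have hfe : f = q' * S' := by
    have h1 : f * (d : ℤ) ^ 2 = (q' * S') * (d : ℤ) ^ 2 := by
      rw [hf, hq', hS']; ring
    exact mul_right_cancel₀ (pow_ne_zero 2 hdz.ne') h1
  refine ⟨q', S', hq'n, hS'n, hq', hS', hfe, ?_, ?_⟩
  · rw [hfe]
    refine Rough.mul ?_ ?_
    · rw [hq', mul_comm] at hqr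
      exact Rough.of_mul_left hqr
    · rw [hS', mul_comm] at hSr
      exact Rough.of_mul_left hSr
  · have e1 : q.natAbs = d * q' := by
      rw [hq', Int.natAbs_mul, Int.natAbs_natCast, Int.natAbs_natCast]
    have e2 : S.natAbs = d * S' := by
      rw [hS', Int.natAbs_mul, Int.natAbs_natCast, Int.natAbs_natCast]
    have e3 : f.natAbs = q' * S' := by
      rw [hfe, Int.natAbs_mul, Int.natAbs_natCast, Int.natAbs_natCast]
    rw [e1, e2, e3, ArithmeticFunction.cardFactors_mul hd.ne' hq'n.ne',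
      ArithmeticFunction.cardFactors_mul hd.ne' hS'n.ne',
      ArithmeticFunction.cardFactors_mul hq'n.ne' hS'n.ne']
    push_cast
    ring

end QCTaux

open QCTaux

theorem qct (hC : CCP) (hQ : QFA) : QCT := by
  classical
  intro k a b c s g hk ha hD hadm
  have : NeZero k := ⟨by omega⟩
  have hDn : 0 < (b ^ 2 - 4 * a * c).natAbs := Int.natAbs_pos.2 hD
  obtain ⟨m, W₀, hm, hW₀, hCW⟩ := hC k (4 * (b ^ 2 - 4 * a * c).natAbs) hk (by omega)
    (ZMod k) (ZMod k)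
  obtain ⟨K, hK⟩ := hQ a b c s g m (Fin m → ZMod k) ha hD hm ⟨fun _ => 0⟩ (by
    intro j p hp
    obtain ⟨n, -, h2⟩ := hadm p hp
    exact ⟨n, h2 j⟩)
  obtain ⟨Lp, hLp⟩ : ∃ Lp : ℕ, Lp = W₀ * a.toNat * (K + 2).factorial := ⟨_, rfl⟩
  have han : 0 < a.toNat := by omega
  have hacast : ((a.toNat : ℕ) : ℤ) = a := Int.toNat_of_nonneg ha.le
  have hLp0 : 0 < Lp := by
    rw [hLp]
    exact Nat.mul_pos (Nat.mul_pos hW₀ han) (Nat.factorial_pos _)
  have hLpz : (0 : ℤ) < Lp := by exact_mod_cast hLp0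
  obtain ⟨W, hW⟩ : ∃ W : ℕ, W = 4 * a.toNat * Lp ^ 2 := ⟨_, rfl⟩
  have hWz : (W : ℤ) = 4 * a * (Lp : ℤ) ^ 2 := by
    rw [hW]
    push_cast
    rw [hacast]
  have hW0 : 0 < W := by
    rw [hW]
    positivity
  have hW₀Lp : W₀ ∣ Lp := by
    rw [hLp, mul_assoc]
    exact Dvd.intro _ rfl
  have hW₀W : W₀ ∣ W := by
    rw [hW]
    exact (hW₀Lp.trans (Dvd.intro_left (Lp ^ 1) (by ring))).mul_left _
  obtain ⟨nst, hnf, hng⟩ := exists_nst Lp (C a * X ^ 2 + C b * X + C c) g (by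
    intro p hp
    obtain ⟨n, h1, h2⟩ := hadm p hp
    refine ⟨n, ?_, h2⟩
    simpa using h1)
  obtain ⟨Bd, Y₁, hBd, hCY⟩ := hCW W hW₀W hW0
  obtain ⟨C₁, Y₂, hQY⟩ := hK Lp W Bd nst hLp0 hWz
    (by
      intro p hp hpK
      rw [hLp]
      exact ((hp.dvd_factorial).2 (by omega)).mul_left _)
    (by
      intro p hp hpa
      rw [hLp]
      rw [← hacast] at hpa
      exact (Int.natCast_dvd_natCast.1 hpa).mul_left _ |>.mul_right _)
    (by
      intro p hp hpL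
      have hpLe : p ≤ Lp := Nat.le_of_dvd hLp0 hpL
      refine ⟨?_, fun j => hng j p hp hpLe⟩
      have := hnf p hp hpLe
      simpa using this)
  refine ⟨4 * (b ^ 2 - 4 * a * c).natAbs * W, C₁ + Bd + 2, Y₁ + Y₂ + 2,
    Fintype.card (Fin m × (Fin m → ZMod k)), by positivity, by omega, ?_⟩
  intro Y Z N hY hYZ hZN d₀ d₁
  have hY2 : 2 ≤ Y := by omega
  obtain ⟨x, y, u, hxy, hdd, hcop⟩ := hCY Y (by omega) (wq k d₀ d₁)
  refine ⟨fun j n δ =>
    ((y ((Fintype.equivFin (Fin m × (Fin m → ZMod k))).symm j).2 : ℤ) ^ 2 * (δ : ℤ) -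
      2 * (y ((Fintype.equivFin (Fin m × (Fin m → ZMod k))).symm j).2 : ℤ) *
        ((((Fintype.equivFin (Fin m × (Fin m → ZMod k))).symm j).1 : ℕ) + 1 : ℤ) *
        (Lp * (2 * a * (n : ℤ) + b)) +
      ((((Fintype.equivFin (Fin m × (Fin m → ZMod k))).symm j).1 : ℕ) + 1 : ℤ) ^ 2 * W *
        ((a * (n : ℤ) ^ 2 + b * n + c) / (δ : ℤ))) /
      (dd W (x ((Fintype.equivFin (Fin m × (Fin m → ZMod k))).symm j).2)
        (y ((Fintype.equivFin (Fin m × (Fin m → ZMod k))).symm j).2)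
        (((Fintype.equivFin (Fin m × (Fin m → ZMod k))).symm j).1 : ℕ) : ℤ), ?_⟩
  intro G hG hZG hGZ hqG
  have hYZ1 : Y ^ Bd ≤ Z := (Nat.pow_le_pow_right (by omega) (by omega)).trans hYZ
  have hYZ2 : Y ≤ Z := by
    refine le_trans ?_ hYZ
    calc Y = Y ^ 1 := (pow_one Y).symm
      _ ≤ Y ^ (C₁ + Bd + 2) := Nat.pow_le_pow_right (by omega) (by omega)
  obtain ⟨q, S, hq, hS, hmain⟩ := hQY Y (by omega) x y (fun i z => ∃ β, u z β = i)
    (fun z => hxy z)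
    (by
      rintro i z ⟨β, rfl⟩
      obtain ⟨h1, -, h3⟩ := hdd z β
      refine ⟨h1, fun p hp hpd => ?_⟩
      obtain ⟨h4, h5⟩ := h3 p hp hpd
      refine ⟨h5, ?_⟩
      have h6 : (1 : ℕ) ≡ p [MOD (4 * (b ^ 2 - 4 * a * c).natAbs)] := h4.symm
      have h7 := (Nat.modEq_iff_dvd).1 h6
      exact_mod_cast h7)
    (by
      rintro i z i' z' ⟨β, rfl⟩ ⟨β', rfl⟩ hne
      exact hcop z β z' β' hne)
    G hG (fun z => lt_of_le_of_lt ((hxy z).2.1.trans hYZ1) hZG) (by omega) hqG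
  obtain ⟨z, hz⟩ : ∃ z : Fin m → ZMod k, z = fun i =>
    ((ArithmeticFunction.cardFactors (q i).natAbs : ℕ) : ZMod k) := ⟨_, rfl⟩
  obtain ⟨β, hβ⟩ : ∃ β : ZMod k, β =
    ((ArithmeticFunction.cardFactors (S z).natAbs : ℕ) : ZMod k) := ⟨_, rfl⟩
  obtain ⟨i, hi⟩ : ∃ i : Fin m, i = u z β := ⟨_, rfl⟩
  obtain ⟨n, hdq, hdS, hn1, hnX, hfn, hgn, hGd⟩ := hmain i z ⟨β, hi.symm⟩
  obtain ⟨h1, h2, -⟩ := hdd z β
  rw [← hi] at h1 h2
  obtain ⟨d, hd⟩ : ∃ d : ℕ, d = dd W (x z) (y z) i := ⟨_, rfl⟩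
  rw [← hd] at hdq hdS hfn hGd h1 h2
  have hd0 : 0 < d := Nat.pos_of_ne_zero h1.ne_zero
  have hdz : (0 : ℤ) < d := by exact_mod_cast hd0
  obtain ⟨q', S', hq'0, hS'0, hq', hS', hfe, hfr, hΩ⟩ := memQ (k := k) hd0 (hq i).1 (hS z).1
    (hq i).2 (hS z).2 hdq hdS hfn
  lift n to ℕ using (by linarith)
  have hq'z : (0 : ℤ) < q' := by exact_mod_cast hq'0
  have hS'z : (0 : ℤ) < S' := by exact_mod_cast hS'0
  refine ⟨n, ⟨by exact_mod_cast hn1, ?_, ?_, hfr, hgn, ?_⟩,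
    Fintype.equivFin (Fin m × (Fin m → ZMod k)) (i, z), q', ?_, ?_⟩
  · have h3 : n ≤ Y ^ C₁ * G := by exact_mod_cast hnX
    refine le_trans ?_ hZN
    calc n ≤ Y ^ C₁ * G := h3
      _ ≤ Y ^ C₁ * (2 * Z) := Nat.mul_le_mul_left _ hGZ
      _ ≤ Y ^ C₁ * (Y ^ (Bd + 2) * Z) := by
          refine Nat.mul_le_mul_left _ (Nat.mul_le_mul_right _ ?_)
          calc 2 ≤ Y := hY2
            _ = Y ^ 1 := (pow_one Y).symm
            _ ≤ Y ^ (Bd + 2) := Nat.pow_le_pow_right (by omega) (by omega)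
      _ = Y ^ (C₁ + Bd + 2) * Z := by ring
  · rw [hfe]; positivity
  · rw [hΩ]
    have e1 : ((ArithmeticFunction.cardFactors (q i).natAbs : ℕ) : ZMod k) = z i := by rw [hz]
    rw [e1, ← hβ, h2]
    exact wq_spec d₀ d₁ (z i) β
  · rw [hfe, Int.natAbs_mul, Int.natAbs_natCast, Int.natAbs_natCast]
    exact Dvd.intro _ rfl
  · simp only [Equiv.symm_apply_apply]
    rw [← hd, hfe, Int.mul_ediv_cancel_left _ hq'z.ne']
    symm
    refine Int.ediv_eq_of_eq_mul_left hdz.ne' ?_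
    rw [hq', hS'] at hGd
    have h3 : (d : ℤ) * (((y z : ℕ) : ℤ) ^ 2 * (q' : ℤ) -
      2 * (y z : ℤ) * (((i : ℕ) : ℤ) + 1) * (Lp * (2 * a * (n : ℤ) + b)) +
      (((i : ℕ) : ℤ) + 1) ^ 2 * W * (S' : ℤ)) = d * (G * d) := by
      linear_combination -hGd
    exact mul_left_cancel₀ hdz.ne' h3

end Pool.Agent.TH423.PO
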