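import Pool.Agent.TH423.DS.Member
import Pool.Agent.TH423.DS.Arith

/-!
(QFA), part a: algebra and the conditions modulo the primes (job 3034, helper999).
-/

set_option autoImplicit false

open Finset Polynomial

namespace Pool.Agent.TH423.PO.QF

open Pool.Agent.H661R3.OP (Rough)
open Pool.Agent.TH423.DS

/-- square roots modulo squarefree numbers -/
theorem sq_sqfree (D : ℤ) (hD : D ≠ 0) (d : ℕ) (hd : Squarefree d)
    (h : ∀ p : ℕ, p.Prime → p ∣ d → ((4 * D.natAbs : ℕ) : ℤ) ∣ (p : ℤ) - 1) :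
    ∃ ρ : ℤ, (d : ℤ) ∣ ρ ^ 2 - D := by
  obtain ⟨ρ, hρ⟩ := sq_prod (κ := {p : ℕ // p ∈ d.primeFactors}) (fun p => ((p : ℕ) : ℤ)) D (by
    intro p q hpq
    have hp := Nat.prime_of_mem_primeFactors p.2
    have hq := Nat.prime_of_mem_primeFactors q.2
    exact Nat.isCoprime_iff_coprime.2 ((Nat.coprime_primes hp hq).2 fun h => hpq (Subtype.ext h)))
    (fun p => sq_prime D hD p (Nat.prime_of_mem_primeFactors p.2)
      (h p (Nat.prime_of_mem_primeFactors p.2) (Nat.dvd_of_mem_primeFactors p.2)))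
  refine ⟨ρ, ?_⟩
  have h1 : ∏ p : {p : ℕ // p ∈ d.primeFactors}, ((p : ℕ) : ℤ) = (d : ℤ) := by
    rw [← Nat.cast_prod]
    congr 1
    rw [Finset.prod_coe_sort d.primeFactors (fun p => p)]
    exact Nat.prod_primeFactors_of_squarefree hd
  rwa [h1] at hρ

/-- the identities -/
theorem alg (a b c Lp G B Cp W h x y d q' b' nst n : ℤ) (hW : W = 4 * a * Lp ^ 2) (hW0 : W ≠ 0)
    (hC : B ^ 2 - Lp ^ 2 * (b ^ 2 - 4 * a * c) = W * G * Cp) (hd : d = y - W * h * x)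
    (hq : G + 2 * B * h + W * Cp * h ^ 2 = d * q')
    (hB : B = Lp * (2 * a * nst + b) + W * b')
    (hn : n = nst + 2 * Lp * (x * q' + b' + Cp * h)) :
    Lp * (2 * a * n + b) * d = G * W * x + B * (y + h * W * x) + W * Cp * h * y ∧
    (a * n ^ 2 + b * n + c) * d ^ 2 =
      (G + 2 * B * h + W * Cp * h ^ 2) * (G * W * x ^ 2 + 2 * B * x * y + Cp * y ^ 2) ∧
    G * d ^ 2 = y ^ 2 * (G + 2 * B * h + W * Cp * h ^ 2) -
      2 * y * h * (Lp * (2 * a * n + b) * d) +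
      h ^ 2 * W * (G * W * x ^ 2 + 2 * B * x * y + Cp * y ^ 2) := by
  have e1 : Lp * (2 * a * n + b) = B + W * x * q' + W * Cp * h := by
    rw [hn, hB, hW]; ring
  have e2 : Lp * (2 * a * n + b) * d = G * W * x + B * (y + h * W * x) + W * Cp * h * y := by
    rw [e1]
    linear_combination -(W * x) * hq + (B + W * Cp * h) * hd
  have e3 : W * (a * n ^ 2 + b * n + c) = (Lp * (2 * a * n + b)) ^ 2 -
      Lp ^ 2 * (b ^ 2 - 4 * a * c) := by rw [hW]; ring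
  refine ⟨e2, ?_, ?_⟩
  · apply mul_left_cancel₀ hW0
    have e4 : W * ((a * n ^ 2 + b * n + c) * d ^ 2) = (Lp * (2 * a * n + b) * d) ^ 2 -
        Lp ^ 2 * (b ^ 2 - 4 * a * c) * d ^ 2 := by
      linear_combination d ^ 2 * e3
    rw [e4, e2, hd]
    linear_combination ((y - W * h * x) ^ 2) * hC
  · rw [e2, hd]; ring

theorem dvd_q (G B Cp W h Lp D d r : ℤ) (hC : B ^ 2 - Lp ^ 2 * D = W * G * Cp)
    (hcop : IsCoprime d G) (hr : d ∣ (G + r * h) ^ 2 - Lp ^ 2 * D * h ^ 2) (hB : d ∣ B - r) :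
    d ∣ G + 2 * B * h + W * Cp * h ^ 2 := by
  refine hcop.dvd_of_dvd_mul_left ?_
  have e : G * (G + 2 * B * h + W * Cp * h ^ 2) = ((G + r * h) ^ 2 - Lp ^ 2 * D * h ^ 2) +
      (B - r) * (h * ((G + B * h) + (G + r * h))) := by
    linear_combination -h ^ 2 * hC
  rw [e]
  exact dvd_add hr (hB.mul_right _)

theorem dvd_S (G B Cp W h x y d q' : ℤ) (hcop : IsCoprime d W) (hd : d = y - W * h * x)
    (hq : G + 2 * B * h + W * Cp * h ^ 2 = d * q') :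
    d ∣ G * W * x ^ 2 + 2 * B * x * y + Cp * y ^ 2 := by
  refine hcop.dvd_of_dvd_mul_left ?_
  refine ⟨(W * x) ^ 2 * q' + 2 * W * x * (B + W * Cp * h) + d * W * Cp, ?_⟩
  have hy : y = d + W * h * x := by linarith
  rw [hy]
  linear_combination (W * x) ^ 2 * hq

theorem iff_of_mul {F : Type} [Field F] {A B u v : F} (hu : u ≠ 0) (hv : v ≠ 0)
    (h : A * u = v * B) : B = 0 ↔ A = 0 := by
  constructor
  · intro hB
    rw [hB, mul_zero] at h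
    exact (mul_eq_zero.1 h).resolve_right hu
  · intro hA
    rw [hA, zero_mul] at h
    exact (mul_eq_zero.1 h.symm).resolve_left hv

/-- rows modulo a large prime -/
theorem largeQ (G W h Lp D B0 μ : ℤ) (Cp : ℕ → ℤ) (l : ℕ) (hl : l.Prime)
    (hG : ¬ (l : ℤ) ∣ G) (hh : ¬ (l : ℤ) ∣ h) (hμ : ¬ (l : ℤ) ∣ μ)
    (hC : ∀ t : ℕ, (B0 + t * μ) ^ 2 - Lp ^ 2 * D = W * G * Cp t) :
    ∃ P : Polynomial (ZMod l), P ≠ 0 ∧ P.natDegree ≤ 2 ∧ ∀ t : ℕ,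
      ((l : ℤ) ∣ G + 2 * (B0 + t * μ) * h + W * Cp t * h ^ 2 ↔ P.eval (t : ZMod l) = 0) := by
  have : Fact l.Prime := ⟨hl⟩
  rw [zmod_dvd] at hG hh hμ
  obtain ⟨P, h0, h1, h2⟩ := pol_sq (μ : ZMod l) (B0 : ZMod l) (-((G : ZMod l) * (h : ZMod l)⁻¹))
    ((Lp : ZMod l) ^ 2 * (D : ZMod l)) hμ
  refine ⟨P, h0, h1, fun t => ?_⟩
  rw [zmod_dvd]
  refine iff_of_mul (pow_ne_zero 2 hh) hG ?_
  rw [h2]
  have hCl := congrArg (Int.cast : ℤ → ZMod l) (hC t)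
  push_cast at hCl ⊢
  have hinv : (h : ZMod l)⁻¹ * h = 1 := inv_mul_cancel₀ hh
  have e1 : (((B0 : ZMod l) + t * μ - -((G : ZMod l) * (h : ZMod l)⁻¹)) ^ 2 -
      (Lp : ZMod l) ^ 2 * D) * (h : ZMod l) ^ 2 =
      (((B0 : ZMod l) + t * μ) * h + G * ((h : ZMod l)⁻¹ * h)) ^ 2 -
        (Lp : ZMod l) ^ 2 * D * (h : ZMod l) ^ 2 := by ring
  rw [e1, hinv]
  linear_combination (h : ZMod l) ^ 2 * hCl

/-- columns modulo a large prime -/
theorem largeS (G W x y Lp D B0 μ : ℤ) (Cp : ℕ → ℤ) (l : ℕ) (hl : l.Prime)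
    (hG : ¬ (l : ℤ) ∣ G) (hW : ¬ (l : ℤ) ∣ W) (hμ : ¬ (l : ℤ) ∣ μ)
    (hxy : (l : ℤ) ∣ y → ¬ (l : ℤ) ∣ x)
    (hC : ∀ t : ℕ, (B0 + t * μ) ^ 2 - Lp ^ 2 * D = W * G * Cp t) :
    ∃ P : Polynomial (ZMod l), P ≠ 0 ∧ P.natDegree ≤ 2 ∧ ∀ t : ℕ,
      ((l : ℤ) ∣ G * W * x ^ 2 + 2 * (B0 + t * μ) * x * y + Cp t * y ^ 2 ↔
        P.eval (t : ZMod l) = 0) := by
  have : Fact l.Prime := ⟨hl⟩
  rw [zmod_dvd, zmod_dvd] at hxy
  rw [zmod_dvd] at hG hW hμ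
  have hGW : (G : ZMod l) * W ≠ 0 := mul_ne_zero hG hW
  by_cases hy : (y : ZMod l) = 0
  · have hx := hxy hy
    refine ⟨1, one_ne_zero, by simp, fun t => ?_⟩
    rw [zmod_dvd, eval_one]
    push_cast
    rw [hy]
    constructor
    · intro h
      exfalso
      have : (G : ZMod l) * W * (x : ZMod l) ^ 2 = 0 := by linear_combination h
      exact (mul_ne_zero hGW (pow_ne_zero 2 hx)) this
    · intro h
      exact absurd h one_ne_zero
  · obtain ⟨P, h0, h1, h2⟩ := pol_sq (μ : ZMod l) (B0 : ZMod l)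
      (-((G : ZMod l) * W * x * (y : ZMod l)⁻¹)) ((Lp : ZMod l) ^ 2 * (D : ZMod l)) hμ
    refine ⟨P, h0, h1, fun t => ?_⟩
    rw [zmod_dvd]
    refine iff_of_mul (pow_ne_zero 2 hy) hGW ?_
    rw [h2]
    have hCl := congrArg (Int.cast : ℤ → ZMod l) (hC t)
    push_cast at hCl ⊢
    have hinv : (y : ZMod l)⁻¹ * y = 1 := inv_mul_cancel₀ hy
    have e1 : (((B0 : ZMod l) + t * μ - -((G : ZMod l) * W * x * (y : ZMod l)⁻¹)) ^ 2 -
        (Lp : ZMod l) ^ 2 * D) * (y : ZMod l) ^ 2 =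
        (((B0 : ZMod l) + t * μ) * y + G * W * x * ((y : ZMod l)⁻¹ * y)) ^ 2 -
          (Lp : ZMod l) ^ 2 * D * (y : ZMod l) ^ 2 := by ring
    rw [e1, hinv]
    linear_combination (y : ZMod l) ^ 2 * hCl

/-- the auxiliary polynomials modulo a large prime -/
theorem largeN (g : ℤ[X]) (a b G W h x y d Lp D B0 μ : ℤ) (Cp n : ℕ → ℤ) (l : ℕ) (hl : l.Prime)
    (hg : ∃ n : ℤ, ¬ (l : ℤ) ∣ g.eval n) (hWL : W = 4 * a * Lp ^ 2)
    (hG : ¬ (l : ℤ) ∣ G) (hh : ¬ (l : ℤ) ∣ h) (hW : ¬ (l : ℤ) ∣ W) (hμ : ¬ (l : ℤ) ∣ μ)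
    (hd : ¬ (l : ℤ) ∣ d) (hxy : (l : ℤ) ∣ y → ¬ (l : ℤ) ∣ x)
    (hC : ∀ t : ℕ, (B0 + t * μ) ^ 2 - Lp ^ 2 * D = W * G * Cp t)
    (hn : ∀ t : ℕ, Lp * (2 * a * n t + b) * d =
      G * W * x + (B0 + t * μ) * (y + h * W * x) + W * Cp t * h * y) :
    ∃ P : Polynomial (ZMod l), P ≠ 0 ∧ P.natDegree ≤ g.natDegree * 2 ∧ ∀ t : ℕ,
      ((l : ℤ) ∣ g.eval (n t) ↔ P.eval (t : ZMod l) = 0) := by
  have : Fact l.Prime := ⟨hl⟩
  rw [zmod_dvd, zmod_dvd] at hxy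
  rw [zmod_dvd] at hG hh hW hμ hd
  have haL : 2 * (a : ZMod l) * (Lp : ZMod l) ≠ 0 := by
    intro h0
    apply hW
    rw [hWL]
    push_cast
    linear_combination (2 * (Lp : ZMod l)) * h0
  have hA : 2 * (a : ZMod l) * (Lp : ZMod l) * d * G ≠ 0 := mul_ne_zero (mul_ne_zero haL hd) hG
  obtain ⟨A', hA'⟩ : ∃ A' : ZMod l, 2 * (a : ZMod l) * (Lp : ZMod l) * d * G * A' = 1 :=
    ⟨_, mul_inv_cancel₀ hA⟩
  have hA'0 : A' ≠ 0 := by rintro rfl; rw [mul_zero] at hA'; exact zero_ne_one hA'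
  have hg0 := map_ne_zero_of g hg
  -- the equation for n
  have hnl : ∀ t : ℕ, 2 * (a : ZMod l) * (Lp : ZMod l) * d * G * (n t : ZMod l) =
      (h : ZMod l) * y * ((B0 : ZMod l) + t * μ) ^ 2 +
        G * (y + h * W * x) * ((B0 : ZMod l) + t * μ) +
        ((G : ZMod l) ^ 2 * W * x - (Lp : ZMod l) ^ 2 * D * h * y - G * Lp * b * d) := by
    intro t
    have h1 := congrArg (Int.cast : ℤ → ZMod l) (hn t)
    have h2 := congrArg (Int.cast : ℤ → ZMod l) (hC t)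
    push_cast at h1 h2
    linear_combination (G : ZMod l) * h1 - (h : ZMod l) * y * h2
  by_cases hy : (y : ZMod l) = 0
  · have hx := hxy hy
    have hk : (G : ZMod l) * h * W * x ≠ 0 := mul_ne_zero (mul_ne_zero (mul_ne_zero hG hh) hW) hx
    obtain ⟨k', hk'⟩ : ∃ k' : ZMod l, (G : ZMod l) * h * W * x * k' = 1 := ⟨_, mul_inv_cancel₀ hk⟩
    obtain ⟨P, h0, h1, h2⟩ := pol_lin _ hg0 (μ : ZMod l) (B0 : ZMod l)
      ((G : ZMod l) * h * W * x * A')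
      (-(((G : ZMod l) ^ 2 * W * x - G * Lp * b * d) * k')) hμ (mul_ne_zero hk hA'0)
    refine ⟨P, h0, (h1.trans natDegree_map_le).trans (by omega), fun t => ?_⟩
    rw [h2, zmod_dvd, eval_cast]
    have e1 : (n t : ZMod l) = (G : ZMod l) * h * W * x * A' * ((B0 : ZMod l) + t * μ -
        -(((G : ZMod l) ^ 2 * W * x - G * Lp * b * d) * k')) := by
      have h3 := hnl t
      rw [hy] at h3
      linear_combination A' * h3 - (n t : ZMod l) * hA' -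
        A' * ((G : ZMod l) ^ 2 * W * x - G * Lp * b * d) * hk'
    rw [e1]
  · have hk : (h : ZMod l) * y ≠ 0 := mul_ne_zero hh hy
    obtain ⟨k', hk'⟩ : ∃ k' : ZMod l, (h : ZMod l) * y * k' = 1 := ⟨_, mul_inv_cancel₀ hk⟩
    obtain ⟨P, h0, h1, h2⟩ := pol_quad _ hg0 (μ : ZMod l) (B0 : ZMod l)
      ((h : ZMod l) * y * A') (-((G : ZMod l) * (y + h * W * x) * k'))
      (-(((G : ZMod l) ^ 2 * W * x - (Lp : ZMod l) ^ 2 * D * h * y - G * Lp * b * d) * k'))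
      hμ (mul_ne_zero hk hA'0)
    refine ⟨P, h0, h1.trans (Nat.mul_le_mul_right _ natDegree_map_le), fun t => ?_⟩
    rw [h2, zmod_dvd, eval_cast]
    have e1 : (n t : ZMod l) = (h : ZMod l) * y * A' * (((B0 : ZMod l) + t * μ) ^ 2 -
        -((G : ZMod l) * (y + h * W * x) * k') * ((B0 : ZMod l) + t * μ) -
        -(((G : ZMod l) ^ 2 * W * x - (Lp : ZMod l) ^ 2 * D * h * y - G * Lp * b * d) * k')) := by
      have h3 := hnl t
      linear_combination A' * h3 - (n t : ZMod l) * hA' -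
        A' * ((G : ZMod l) * (y + h * W * x) * ((B0 : ZMod l) + t * μ) +
          ((G : ZMod l) ^ 2 * W * x - (Lp : ZMod l) ^ 2 * D * h * y - G * Lp * b * d)) * hk'
    rw [e1]

/-- the conditions modulo a small prime: rows -/
theorem smallQ (G B Cp W h : ℤ) (l : ℕ) (hW : (l : ℤ) ∣ W) (hB : (l : ℤ) ∣ B)
    (hG : ¬ (l : ℤ) ∣ G) : ¬ (l : ℤ) ∣ G + 2 * B * h + W * Cp * h ^ 2 := by
  intro hd
  apply hG
  have e : G = (G + 2 * B * h + W * Cp * h ^ 2) - B * (2 * h) - W * (Cp * h ^ 2) := by ring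
  rw [e]
  exact dvd_sub (dvd_sub hd (hB.mul_right _)) (hW.mul_right _)

/-- the conditions modulo a small prime: columns -/
theorem smallS (a b c nst G B Cp W x y Lp b' : ℤ) (l : ℕ) (hl : l.Prime) (hLp : (l : ℤ) ∣ Lp)
    (hWL : W = 4 * a * Lp ^ 2) (hW0 : W ≠ 0) (hy : ¬ (l : ℤ) ∣ y)
    (hB : B = Lp * (2 * a * nst + b) + W * b') (hf : ¬ (l : ℤ) ∣ a * nst ^ 2 + b * nst + c)
    (hC : B ^ 2 - Lp ^ 2 * (b ^ 2 - 4 * a * c) = W * G * Cp) :
    ¬ (l : ℤ) ∣ G * W * x ^ 2 + 2 * B * x * y + Cp * y ^ 2 := by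
  intro hd
  have hlp : Prime (l : ℤ) := Nat.prime_iff_prime_int.1 hl
  have hW : (l : ℤ) ∣ W := by rw [hWL]; exact (hLp.mul_right Lp).trans ⟨4 * a, by ring⟩
  have hlB : (l : ℤ) ∣ B := by rw [hB]; exact dvd_add (hLp.mul_right _) (hW.mul_right _)
  have h1 : (l : ℤ) ∣ Cp * y ^ 2 := by
    have e : Cp * y ^ 2 = (G * W * x ^ 2 + 2 * B * x * y + Cp * y ^ 2) - W * (G * x ^ 2) -
      B * (2 * x * y) := by ring
    rw [e]
    exact dvd_sub (dvd_sub hd (hW.mul_right _)) (hlB.mul_right _)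
  have h2 : (l : ℤ) ∣ Cp := by
    rcases hlp.dvd_or_dvd h1 with h | h
    · exact h
    · exact absurd (hlp.dvd_of_dvd_pow h) hy
  apply hf
  have e : a * nst ^ 2 + b * nst + c = G * Cp - Lp * (2 * b' * (2 * a * nst + b)) - W * b' ^ 2 := by
    apply mul_left_cancel₀ hW0
    rw [hB] at hC
    have : W * (a * nst ^ 2 + b * nst + c) =
        Lp ^ 2 * ((2 * a * nst + b) ^ 2 - (b ^ 2 - 4 * a * c)) := by rw [hWL]; ring
    rw [this]
    linear_combination hC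
  rw [e]
  exact dvd_sub (dvd_sub (h2.mul_left _) (hLp.mul_right _)) (hW.mul_right _)

theorem smallN (g : ℤ[X]) (Lp nst n k : ℤ) (l : ℕ) (hLp : (l : ℤ) ∣ Lp)
    (hn : n = nst + 2 * Lp * k) (hg : ¬ (l : ℤ) ∣ g.eval nst) : ¬ (l : ℤ) ∣ g.eval n := by
  intro h
  have h2 : (l : ℤ) ∣ n - nst := by
    have e : n - nst = Lp * (2 * k) := by rw [hn]; ring
    rw [e]
    exact hLp.mul_right _
  have h3 := h2.trans (sub_dvd_eval_sub n nst g)
  exact hg ((dvd_sub_right h).1 h3)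

end Pool.Agent.TH423.PO.QF
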