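import Pool.Agent.TH423.PO.StmQ
import Pool.Agent.TH423.PO.ST1
import Pool.Agent.TH423.PO.QFAa

/-!
(QFA): the family of values of a quadratic polynomial attached to rows and columns
(job 3034, helper999).
-/

set_option autoImplicit false

open Finset Polynomial

namespace Pool.Agent.TH423.PO

open Pool.Agent.H661R3.OP (Rough t_CR)
open Pool.Agent.TH423.SH (dd)
open Pool.Agent.TH423.DS (sieve_poly sq_prime isCoprime_of_rough)

namespace QF

/-- positivity of the rows and columns -/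
theorem pos_qS (a Lp G B Cp W D Y : ℤ) (ha : 0 < a) (hLp : 0 < Lp)
    (hWL : W = 4 * a * Lp ^ 2) (hYG : Y < G) (hDY : Lp ^ 2 * |D| ≤ Y) (hB : W * G ≤ B)
    (hC : B ^ 2 - Lp ^ 2 * D = W * G * Cp) :
    0 < W ∧ 0 < G ∧ 0 < B ∧ G ≤ B ∧ 0 < Cp ∧ W * G * Cp ≤ 2 * B ^ 2 := by
  have hW : 0 < W := by rw [hWL]; positivity
  have hW1 : 1 ≤ W := hW
  have h1 : 0 ≤ Lp ^ 2 * |D| := by positivity
  have hG : 0 < G := by linarith
  have hGB : G ≤ B := le_trans (by nlinarith) hB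
  have hB0 : 0 < B := by linarith
  have hBB : B ≤ B ^ 2 := by nlinarith
  have h2 : Lp ^ 2 * D ≤ Lp ^ 2 * |D| := mul_le_mul_of_nonneg_left (le_abs_self D) (sq_nonneg _)
  have h3 : -(Lp ^ 2 * |D|) ≤ Lp ^ 2 * D := by
    have := mul_le_mul_of_nonneg_left (neg_abs_le D) (sq_nonneg Lp)
    linarith
  refine ⟨hW, hG, hB0, hGB, ?_, ?_⟩
  · have h4 : 0 < W * G * Cp := by rw [← hC]; linarith
    exact (mul_pos_iff_of_pos_left (by positivity)).1 h4
  · rw [← hC]; linarith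

/-- bounds for `n` -/
theorem bound_n (a b Lp G B Cp W D Y h x y d m n β : ℤ) (ha : 0 < a) (hLp : 0 < Lp)
    (hWL : W = 4 * a * Lp ^ 2) (hYG : Y < G) (hDY : Lp ^ 2 * |D| ≤ Y) (hbY : Lp * |b| ≤ Y)
    (hB : W * G ≤ B) (hC : B ^ 2 - Lp ^ 2 * D = W * G * Cp) (hh : 1 ≤ h) (hhm : h ≤ m)
    (hx : 0 < x) (hxy : 2 * W * m * x ≤ y) (hd : d = y - W * h * x) (hβ : B ≤ β * G)
    (hβ0 : 0 ≤ β)
    (hn : Lp * (2 * a * n + b) * d = G * W * x + B * (y + h * W * x) + W * Cp * h * y) :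
    1 ≤ n ∧ n ≤ (y * (1 + 2 * β + 2 * β ^ 2 * m) + 1) * G := by
  obtain ⟨hW, hG, hB0, hGB, hCp, hCp2⟩ := pos_qS a Lp G B Cp W D Y ha hLp hWL hYG hDY hB hC
  have hm : 1 ≤ m := hh.trans hhm
  have hWx : 0 < W * x := mul_pos hW hx
  have h1 : W * h * x ≤ W * m * x := by nlinarith
  have h2 : W * x ≤ W * h * x := by nlinarith
  have hy : 0 < y := by nlinarith
  have hhy : W * h * x ≤ y := by nlinarith
  have hd0 : 0 < d := by rw [hd]; nlinarith
  have hdy : d ≤ y := by rw [hd]; nlinarith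
  have hb1 : Lp * b ≤ Lp * |b| := mul_le_mul_of_nonneg_left (le_abs_self b) hLp.le
  have hb2 : -(Lp * |b|) ≤ Lp * b := by
    have := mul_le_mul_of_nonneg_left (neg_abs_le b) hLp.le
    linarith
  have hWCp : 0 < W * Cp * h * y := by positivity
  have hpos2 : 0 < G * W * x := by positivity
  have hpos3 : 0 < B * (h * W * x) := by positivity
  have hkey : B * d < Lp * (2 * a * n + b) * d := by
    rw [hn]
    have : B * d ≤ B * y := mul_le_mul_of_nonneg_left hdy hB0.le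
    nlinarith
  have hkey2 : B < Lp * (2 * a * n + b) := lt_of_mul_lt_mul_right hkey hd0.le
  have hGWG : G ≤ W * G := by nlinarith
  have hn0 : 0 < Lp * (2 * a) * n := by
    have h5 : Lp * (2 * a) * n = Lp * (2 * a * n + b) - Lp * b := by ring
    rw [h5]
    linarith
  have hn1 : 0 < n := (mul_pos_iff_of_pos_left (by positivity)).1 hn0
  refine ⟨hn1, ?_⟩
  -- the upper bound
  have hLn : n ≤ Lp * (2 * a) * n := by
    have : 1 ≤ Lp * (2 * a) := by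
      have h3 : (0 : ℤ) < Lp * (2 * a) := by positivity
      omega
    nlinarith
  have hpl : 0 < Lp * (2 * a * n + b) := lt_trans hB0 hkey2
  have hup : Lp * (2 * a * n + b) ≤ Lp * (2 * a * n + b) * d := by nlinarith
  have hWCp2 : W * Cp ≤ 2 * β ^ 2 * G := by
    have h3 : G * (W * Cp) ≤ G * (2 * β ^ 2 * G) := by
      have h4 : B ^ 2 ≤ (β * G) ^ 2 := by
        apply pow_le_pow_left₀ hB0.le hβ
      nlinarith
    exact le_of_mul_le_mul_left h3 hG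
  have hA1 : G * W * x ≤ G * y := by
    have : W * x ≤ y := h2.trans hhy
    nlinarith
  have hA2 : B * (y + h * W * x) ≤ β * G * (2 * y) := by
    have h3 : y + h * W * x ≤ 2 * y := by nlinarith
    have h4 : 0 ≤ y + h * W * x := by positivity
    exact mul_le_mul hβ h3 h4 (by positivity)
  have hA3 : W * Cp * h * y ≤ 2 * β ^ 2 * G * m * y := by
    have h3 : W * Cp * h ≤ 2 * β ^ 2 * G * m := mul_le_mul hWCp2 hhm (by linarith) (by positivity)
    exact mul_le_mul_of_nonneg_right h3 hy.le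
  have hfin : Lp * (2 * a) * n ≤ G * y + β * G * (2 * y) + 2 * β ^ 2 * G * m * y + G := by
    have h5 : Lp * (2 * a) * n = Lp * (2 * a * n + b) - Lp * b := by ring
    rw [h5]
    linarith
  have h6 : (y * (1 + 2 * β + 2 * β ^ 2 * m) + 1) * G =
      G * y + β * G * (2 * y) + 2 * β ^ 2 * G * m * y + G := by ring
  rw [h6]
  exact hLn.trans hfin

/-- the bound as a power of `Y` -/
theorem bound_pow (Y y m β : ℕ) (Bd E : ℕ) (hY : 2 ≤ Y) (hy : y ≤ Y ^ Bd) (hm : m ≤ Y)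
    (hβ : β ≤ Y ^ E) : y * (1 + 2 * β + 2 * β ^ 2 * m) + 1 ≤ Y ^ (Bd + 2 * E + 4) := by
  have hY1 : 1 ≤ Y := by omega
  have h1 : 1 ≤ Y ^ (2 * E) := Nat.one_le_pow _ _ hY1
  have h2 : Y ^ E ≤ Y ^ (2 * E) := Nat.pow_le_pow_right hY1 (by omega)
  have h3 : β ^ 2 ≤ Y ^ (2 * E) := by
    calc β ^ 2 ≤ (Y ^ E) ^ 2 := Nat.pow_le_pow_left hβ 2
      _ = Y ^ (2 * E) := by rw [← pow_mul, mul_comm]
  have h4 : β ^ 2 * m ≤ Y ^ (2 * E) * Y := Nat.mul_le_mul h3 hm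
  have h5 : Y ^ (2 * E) ≤ Y ^ (2 * E) * Y := Nat.le_mul_of_pos_right _ (by omega)
  have h6 : 1 + 2 * β + 2 * β ^ 2 * m ≤ 5 * (Y ^ (2 * E) * Y) := by
    have : 2 * β ^ 2 * m = 2 * (β ^ 2 * m) := by ring
    omega
  have h7 : y * (1 + 2 * β + 2 * β ^ 2 * m) ≤ Y ^ Bd * (5 * (Y ^ (2 * E) * Y)) :=
    Nat.mul_le_mul hy h6
  have h8 : 1 ≤ Y ^ Bd * (Y ^ (2 * E) * Y) := Nat.one_le_iff_ne_zero.2 (by positivity)
  have h9 : 8 ≤ Y ^ 3 := by
    calc 8 = 2 ^ 3 := by norm_num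
      _ ≤ Y ^ 3 := Nat.pow_le_pow_left hY 3
  calc y * (1 + 2 * β + 2 * β ^ 2 * m) + 1
      ≤ Y ^ Bd * (5 * (Y ^ (2 * E) * Y)) + Y ^ Bd * (Y ^ (2 * E) * Y) := by omega
    _ = Y ^ Bd * (Y ^ (2 * E) * Y) * 6 := by ring
    _ ≤ Y ^ Bd * (Y ^ (2 * E) * Y) * Y ^ 3 := Nat.mul_le_mul_left _ (by omega)
    _ = Y ^ (Bd + 2 * E + 4) := by
      rw [show Bd + 2 * E + 4 = Bd + (2 * E + 1) + 3 by ring, pow_add, pow_add, pow_add, pow_one]

theorem bound_beta (Y W P Cs F : ℕ) (hY : 2 ≤ Y) (hW : W ≤ Y) (hP : P ≤ Y ^ F) :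
    (Y ^ Cs + 2) * (W * P) ≤ Y ^ (Cs + 3 + F) := by
  have h2 : Y ^ Cs + 2 ≤ Y ^ (Cs + 2) := by
    rw [pow_add]
    have h3 : 1 ≤ Y ^ Cs := Nat.one_le_pow _ _ (by omega)
    have h4 : 4 ≤ Y ^ 2 := by nlinarith
    nlinarith
  calc (Y ^ Cs + 2) * (W * P) ≤ Y ^ (Cs + 2) * (Y * Y ^ F) :=
        Nat.mul_le_mul h2 (Nat.mul_le_mul hW hP)
    _ = Y ^ (Cs + 3 + F) := by ring

end QF

open QF ST1A in
theorem qfa : QFA := by
  classical
  intro a b c s g m Z _ ha hD hm hZ hgne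
  set D : ℤ := b ^ 2 - 4 * a * c with hDdef
  set k : ℕ := 2 * m + 2 * Fintype.card Z +
    m * Fintype.card Z * (∑ j, (g j).natDegree * 2) with hk
  refine ⟨2 * k, ?_⟩
  intro Lp W Bd nst hLp hWL hKL haL hnst
  have hmk : m ≤ k := by
    have : 0 ≤ m * Fintype.card Z * (∑ j, (g j).natDegree * 2) := Nat.zero_le _
    omega
  have hk1 : 1 ≤ k := hm.trans hmk
  obtain ⟨Cs, hCs⟩ := sieve_poly k hk1
  set E : ℕ := Cs + 3 + Bd * (m * Fintype.card Z) with hE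
  refine ⟨Bd + 2 * E + 4, 2 + W + m + Lp ^ 2 * D.natAbs + Lp * b.natAbs, ?_⟩
  intro Y hY x y U hxy hsq hcop G hG hyG hYG hGd
  have hY2 : 2 ≤ Y := by omega
  have hWY : W ≤ Y := by omega
  have hmY : m ≤ Y := by omega
  have hDYn : Lp ^ 2 * D.natAbs ≤ Y := by omega
  have hbYn : Lp * b.natAbs ≤ Y := by omega
  have hLpz : (0 : ℤ) < Lp := by exact_mod_cast hLp
  have hDY : (Lp : ℤ) ^ 2 * |D| ≤ Y := by
    rw [Int.abs_eq_natAbs]
    exact_mod_cast hDYn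
  have hbY : (Lp : ℤ) * |b| ≤ Y := by
    rw [Int.abs_eq_natAbs]
    exact_mod_cast hbYn
  have hW0 : (0 : ℤ) < W := by rw [hWL]; positivity
  have hWn : 1 ≤ W := by
    have : 0 < W := by exact_mod_cast hW0
    exact this
  have hYGz : (Y : ℤ) < G := by exact_mod_cast hYG
  have hGz : (0 : ℤ) < G := by exact_mod_cast hG.pos
  -- the divisibilities of `G - 1`
  have hG1 : (W : ℤ) ∣ (G : ℤ) - 1 := by
    refine Dvd.dvd.trans ?_ hGd
    exact Int.natCast_dvd_natCast.2 (Dvd.intro_left _ rfl)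
  have hG4 : ((4 * D.natAbs : ℕ) : ℤ) ∣ (G : ℤ) - 1 := by
    refine Dvd.dvd.trans ?_ hGd
    exact Int.natCast_dvd_natCast.2 (Dvd.intro _ rfl)
  have hGW : IsCoprime (W : ℤ) (G : ℤ) := by
    obtain ⟨t, ht⟩ := hG1
    exact ⟨-t, 1, by linear_combination ht⟩
  -- primes up to `Y`
  have hlG : ∀ l : ℕ, l.Prime → l ≤ Y → ¬ (l : ℤ) ∣ (G : ℤ) := by
    intro l hl hlY h
    have h1 := (Nat.prime_dvd_prime_iff_eq hl hG).1 (Int.natCast_dvd_natCast.1 h)
    omega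
  have hLW : ∀ l : ℕ, l.Prime → ((l : ℤ) ∣ (W : ℤ) ↔ (l : ℤ) ∣ (Lp : ℤ)) := by
    intro l hl
    have hlp := Nat.prime_iff_prime_int.1 hl
    constructor
    · intro h
      rw [hWL] at h
      rcases hlp.dvd_or_dvd h with h | h
      · rcases hlp.dvd_or_dvd h with h | h
        · have h4 : l ∣ 4 := by exact_mod_cast h
          have h5 : l ∣ 2 := by
            have : l ∣ 2 * 2 := by simpa using h4
            rcases hl.dvd_mul.1 this with h | h <;> exact h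
          have h6 : l ≤ 2 := Nat.le_of_dvd (by norm_num) h5
          exact Int.natCast_dvd_natCast.2 (hKL l hl (by omega))
        · exact Int.natCast_dvd_natCast.2 (haL l hl h)
      · exact hlp.dvd_of_dvd_pow h
    · intro h
      rw [hWL]
      exact (h.mul_right (Lp : ℤ)).trans ⟨4 * a, by ring⟩
  -- the used pairs
  let I : Type := {p : Fin m × Z // U p.1 p.2}
  let d : I → ℕ := fun p => dd W (x p.1.2) (y p.1.2) p.1.1
  let hf : I → ℤ := fun p => ((p.1.1 : ℕ) : ℤ) + 1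
  have hd0 : ∀ p : I, 0 < d p := fun p =>
    dd_pos hWn (hxy p.1.2).1 (hxy p.1.2).2.2.2.2 p.1.1
  have hdc : ∀ p : I, ((d p : ℕ) : ℤ) = (y p.1.2 : ℤ) - W * hf p * x p.1.2 := fun p =>
    dd_cast (hxy p.1.2).2.2.2.2 p.1.1
  have hdW : ∀ p : I, IsCoprime (W : ℤ) ((d p : ℕ) : ℤ) := fun p =>
    dd_cop (hxy p.1.2).2.2.2.2 (hxy p.1.2).2.2.1 p.1.1
  have hdy : ∀ p : I, d p ≤ y p.1.2 := fun p => Nat.sub_le _ _
  have hdG : ∀ p : I, IsCoprime (G : ℤ) ((d p : ℕ) : ℤ) := by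
    intro p
    rw [Nat.isCoprime_iff_coprime, Nat.Prime.coprime_iff_not_dvd hG]
    intro h
    have h1 := Nat.le_of_dvd (hd0 p) h
    have h2 := hdy p
    have h3 := hyG p.1.2
    omega
  have hdd : ∀ p q : I, p ≠ q → IsCoprime ((d p : ℕ) : ℤ) ((d q : ℕ) : ℤ) := by
    intro p q h
    have hne : ((p.1.1, p.1.2) : Fin m × Z) ≠ (q.1.1, q.1.2) := fun h' => h (Subtype.ext h')
    exact Nat.isCoprime_iff_coprime.2 (hcop p.1.1 p.1.2 q.1.1 q.1.2 p.2 q.2 hne)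
  have hdr : ∀ p : I, Rough Y ((d p : ℕ) : ℤ) := by
    intro p q hq hqY h
    have := ((hsq p.1.1 p.1.2 p.2).2 q hq (Int.natCast_dvd_natCast.1 h)).1
    omega
  have hfm : ∀ p : I, 1 ≤ hf p ∧ hf p ≤ m := by
    intro p
    have := p.1.1.2
    simp only [hf]
    constructor <;> omega
  have hhd : ∀ p : I, IsCoprime ((d p : ℕ) : ℤ) (hf p) := by
    intro p
    refine isCoprime_of_rough (hdr p) fun q hq h => ?_
    have h1 := Int.le_of_dvd (by linarith [(hfm p).1]) h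
    have h2 := (hfm p).2
    omega
  -- the residues
  have hres : ∀ p : I, ∃ r : ℤ, ((d p : ℕ) : ℤ) ∣ ((G : ℤ) + r * hf p) ^ 2 -
      (Lp : ℤ) ^ 2 * D * hf p ^ 2 := by
    intro p
    obtain ⟨ρ, hρ⟩ := sq_sqfree D hD (d p) (hsq p.1.1 p.1.2 p.2).1 fun q hq hqd =>
      ((hsq p.1.1 p.1.2 p.2).2 q hq hqd).2
    obtain ⟨α, β, hαβ⟩ := hhd p
    refine ⟨Lp * ρ - G * β, ?_⟩
    have e : ((G : ℤ) + (Lp * ρ - G * β) * hf p) ^ 2 - (Lp : ℤ) ^ 2 * D * hf p ^ 2 =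
        ((d p : ℕ) : ℤ) * (α * G * ((G : ℤ) + (Lp * ρ - G * β) * hf p + Lp * ρ * hf p)) +
          (ρ ^ 2 - D) * (Lp ^ 2 * hf p ^ 2) := by
      linear_combination (-(G : ℤ) * ((G : ℤ) + (Lp * ρ - G * β) * hf p + Lp * ρ * hf p)) * hαβ
    rw [e]
    exact dvd_add (Dvd.intro _ rfl) (hρ.mul_right _)
  choose r hr using hres
  obtain ⟨ρG, hρG⟩ := sq_prime D hD G hG hG4
  -- the Chinese remainder theorem
  let Mf : Option (Option I) → ℤ := fun o => match o with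
    | none => (W : ℤ)
    | some none => (G : ℤ)
    | some (some p) => ((d p : ℕ) : ℤ)
  let rf : Option (Option I) → ℤ := fun o => match o with
    | none => Lp * (2 * a * nst + b)
    | some none => Lp * ρG
    | some (some p) => r p
  have hMc : ∀ i j, i ≠ j → IsCoprime (Mf i) (Mf j) := by
    intro i j hij
    match i, j, hij with
    | none, none, h => exact absurd rfl h
    | none, some none, _ => exact hGW
    | none, some (some p), _ => exact hdW p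
    | some none, none, _ => exact hGW.symm
    | some (some p), none, _ => exact (hdW p).symm
    | some none, some none, h => exact absurd rfl h
    | some none, some (some p), _ => exact hdG p
    | some (some p), some none, _ => exact (hdG p).symm
    | some (some p), some (some q), h =>
      exact hdd p q fun h' => h (by rw [h'])
  obtain ⟨x₀, hx₀⟩ := t_CR _ Mf rf hMc
  set P : ℕ := ∏ p : I, d p with hP
  have hP0 : 0 < P := prod_pos fun p _ => hd0 p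
  set μ : ℤ := (W : ℤ) * P * G with hμ
  have hPz : (0 : ℤ) < P := by exact_mod_cast hP0
  have hμ0 : 0 < μ := by positivity
  obtain ⟨B0, hB0x, hB0lo, hB0hi⟩ : ∃ B0 : ℤ, μ ∣ B0 - x₀ ∧ μ ≤ B0 ∧ B0 < 2 * μ := by
    refine ⟨x₀ % μ + μ, ⟨1 - x₀ / μ, ?_⟩, ?_, ?_⟩
    · have := Int.emod_add_mul_ediv x₀ μ
      linear_combination this
    · have := Int.emod_nonneg x₀ hμ0.ne'
      linarith
    · have := Int.emod_lt_of_pos x₀ hμ0
      linarith
  have hWμ : (W : ℤ) ∣ μ := ⟨P * G, by rw [hμ]; ring⟩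
  have hGμ : (G : ℤ) ∣ μ := ⟨W * P, by rw [hμ]; ring⟩
  have hdμ : ∀ p : I, ((d p : ℕ) : ℤ) ∣ μ := by
    intro p
    have h1 : ((d p : ℕ) : ℤ) ∣ (P : ℤ) :=
      Int.natCast_dvd_natCast.2 (dvd_prod_of_mem d (mem_univ p))
    exact (h1.trans (Dvd.intro_left (W : ℤ) rfl)).trans (Dvd.intro _ rfl)
  have hBt : ∀ (o : Option (Option I)), Mf o ∣ μ → ∀ t : ℕ, Mf o ∣ (B0 + t * μ) - rf o := by
    intro o ho t
    have e : (B0 + t * μ) - rf o = (B0 - x₀) + (x₀ - rf o) + t * μ := by ring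
    rw [e]
    exact dvd_add (dvd_add (ho.trans hB0x) (hx₀ o)) (ho.mul_left _)
  have hBW : ∀ t : ℕ, ∃ b' : ℤ, B0 + t * μ = Lp * (2 * a * nst + b) + W * b' := by
    intro t
    obtain ⟨z, hz⟩ := hBt none hWμ t
    refine ⟨z, ?_⟩
    have hz' : B0 + t * μ - Lp * (2 * a * nst + b) = W * z := hz
    linarith
  have hBG : ∀ t : ℕ, (G : ℤ) ∣ (B0 + t * μ) ^ 2 - (Lp : ℤ) ^ 2 * D := by
    intro t
    have h1 : (G : ℤ) ∣ (B0 + t * μ) - Lp * ρG := hBt (some none) hGμ t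
    have e : (B0 + t * μ) ^ 2 - (Lp : ℤ) ^ 2 * D = ((B0 + t * μ) - Lp * ρG) *
        ((B0 + t * μ) + Lp * ρG) + (ρG ^ 2 - D) * Lp ^ 2 := by ring
    rw [e]
    exact dvd_add (h1.mul_right _) (hρG.mul_right _)
  have hBd : ∀ (t : ℕ) (p : I), ((d p : ℕ) : ℤ) ∣ (B0 + t * μ) - r p := fun t p =>
    hBt (some (some p)) (hdμ p) t
  choose b' hb' using hBW
  have hBWd : ∀ t : ℕ, (W : ℤ) ∣ (B0 + t * μ) ^ 2 - (Lp : ℤ) ^ 2 * D := by
    intro t
    refine ⟨(a * nst ^ 2 + b * nst + c) + 2 * b' t * (Lp * (2 * a * nst + b)) + W * b' t ^ 2, ?_⟩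
    rw [hb' t, hDdef]
    have e : (W : ℤ) * (a * nst ^ 2 + b * nst + c) = (Lp : ℤ) ^ 2 * ((2 * a * nst + b) ^ 2 -
        (b ^ 2 - 4 * a * c)) := by rw [hWL]; ring
    linear_combination -e
  have hCex : ∀ t : ℕ, ∃ Cp : ℤ, (B0 + t * μ) ^ 2 - (Lp : ℤ) ^ 2 * D = W * G * Cp := fun t =>
    hGW.mul_dvd (hBWd t) (hBG t)
  choose Cp hCp using hCex
  -- rows and columns
  let qf : Fin m → ℕ → ℤ := fun i t =>
    (G : ℤ) + 2 * (B0 + t * μ) * (((i : ℕ) : ℤ) + 1) + W * Cp t * (((i : ℕ) : ℤ) + 1) ^ 2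
  let Sf : Z → ℕ → ℤ := fun z t =>
    (G : ℤ) * W * (x z : ℤ) ^ 2 + 2 * (B0 + t * μ) * x z * y z + Cp t * (y z : ℤ) ^ 2
  have hqd : ∀ (t : ℕ) (p : I), ∃ q' : ℤ, (G : ℤ) + 2 * (B0 + t * μ) * hf p +
      W * Cp t * hf p ^ 2 = ((d p : ℕ) : ℤ) * q' := fun t p =>
    dvd_q G (B0 + t * μ) (Cp t) W (hf p) Lp D _ (r p) (hCp t) (hdG p).symm (hr p) (hBd t p)
  choose q' hq' using hqd
  let nf : ℕ → I → ℤ := fun t p => nst + 2 * Lp * (x p.1.2 * q' t p + b' t + Cp t * hf p)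
  have halg := fun (t : ℕ) (p : I) => alg a b c Lp G (B0 + t * μ) (Cp t) W (hf p) (x p.1.2)
    (y p.1.2) (d p : ℕ) (q' t p) (b' t) nst (nf t p) hWL hW0.ne' (hCp t) (hdc p) (hq' t p)
    (hb' t) rfl
  have hdS : ∀ (t : ℕ) (p : I), ((d p : ℕ) : ℤ) ∣ Sf p.1.2 t := fun t p =>
    dvd_S G (B0 + t * μ) (Cp t) W (hf p) (x p.1.2) (y p.1.2) (d p : ℕ) (q' t p) (hdW p).symm
      (hdc p) (hq' t p)
  -- the sieve
  let v : (Fin m ⊕ Z ⊕ (I × Fin s)) → ℕ → ℤ :=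
    Sum.elim (fun i t => qf i t) (Sum.elim (fun z t => Sf z t)
      (fun pj t => (g pj.2).eval (nf t pj.1)))
  let e : (Fin m ⊕ Z ⊕ (I × Fin s)) → ℕ :=
    Sum.elim (fun _ => 2) (Sum.elim (fun _ => 2) (fun pj => (g pj.2).natDegree * 2))
  have hsum : ∑ i, e i ≤ k := by
    have h1 : ∑ i, e i = m * 2 + (Fintype.card Z * 2 +
        Fintype.card I * (∑ j, (g j).natDegree * 2)) := by
      simp only [e]
      rw [Fintype.sum_sum_type, Fintype.sum_sum_type]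
      simp only [Sum.elim_inl, Sum.elim_inr, Finset.sum_const, Finset.card_univ,
        Fintype.card_fin, smul_eq_mul, Fintype.sum_prod_type]
    have h2 : Fintype.card I ≤ m * Fintype.card Z := by
      refine (Fintype.card_subtype_le _).trans ?_
      rw [Fintype.card_prod, Fintype.card_fin]
    have h3 := Nat.mul_le_mul_right (∑ j, (g j).natDegree * 2) h2
    rw [h1, hk]
    omega
  have hxyl : ∀ (z : Z) (l : ℕ), l.Prime → (l : ℤ) ∣ (y z : ℤ) → ¬ (l : ℤ) ∣ (x z : ℤ) := by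
    intro z l hl h1 h2
    have h3 := Nat.dvd_gcd (Int.natCast_dvd_natCast.1 h2) (Int.natCast_dvd_natCast.1 h1)
    rw [(hxy z).2.2.2.1] at h3
    exact hl.one_lt.ne' (Nat.dvd_one.1 h3)
  have hlμ : ∀ l : ℕ, l.Prime → l ≤ Y → ¬ (l : ℤ) ∣ (Lp : ℤ) → ¬ (l : ℤ) ∣ μ := by
    intro l hl hlY hlL h
    have hlp := Nat.prime_iff_prime_int.1 hl
    rw [hμ] at h
    rcases hlp.dvd_or_dvd h with h | h
    · rcases hlp.dvd_or_dvd h with h | h
      · exact hlL ((hLW l hl).1 h)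
      · have h1 : l ∣ ∏ p : I, d p := Int.natCast_dvd_natCast.1 h
        obtain ⟨p, _, hp⟩ := (Prime.dvd_finsetProd_iff hl.prime _).1 h1
        exact hdr p l hl hlY (Int.natCast_dvd_natCast.2 hp)
    · exact hlG l hl hlY h
  have hlB : ∀ (t l : ℕ), (l : ℤ) ∣ (Lp : ℤ) → (l : ℤ) ∣ (W : ℤ) → (l : ℤ) ∣ B0 + t * μ := by
    intro t l h1 h2
    rw [hb' t]
    exact dvd_add (h1.mul_right _) (h2.mul_right _)
  -- primes dividing `Lp`
  have hsmallp : ∀ i, ∀ l : ℕ, l.Prime → l ≤ Y → (l : ℤ) ∣ (Lp : ℤ) → ∀ t : ℕ,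
      ¬ (l : ℤ) ∣ v i t := by
    intro i l hl hlY hlL t
    have hlW : (l : ℤ) ∣ (W : ℤ) := (hLW l hl).2 hlL
    have hst := hnst l hl (Int.natCast_dvd_natCast.1 hlL)
    rcases i with i | z | ⟨p, j⟩
    · exact smallQ G (B0 + t * μ) (Cp t) W (((i : ℕ) : ℤ) + 1) l hlW (hlB t l hlL hlW)
        (hlG l hl hlY)
    · refine smallS a b c nst G (B0 + t * μ) (Cp t) W (x z) (y z) Lp (b' t) l hl hlL hWL hW0.ne'
        ?_ (hb' t) hst.1 (hCp t)
      intro h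
      exact absurd_one hl h (hlW.trans (dvd_sub_one (hxy z).2.2.1))
    · exact smallN (g j) Lp nst (nf t p) (x p.1.2 * q' t p + b' t + Cp t * hf p) l hlL rfl
        (hst.2 j)
  have hlarge : ∀ i, ∀ l : ℕ, l.Prime → l ≤ Y → 2 * k < l → ∃ h : Polynomial (ZMod l), h ≠ 0 ∧
      h.natDegree ≤ e i ∧ ∀ t : ℕ, ((l : ℤ) ∣ v i t ↔ h.eval (t : ZMod l) = 0) := by
    intro i l hl hlY hlk
    have : Fact l.Prime := ⟨hl⟩
    by_cases hlL : (l : ℤ) ∣ (Lp : ℤ)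
    · refine ⟨1, one_ne_zero, by simp, fun t => ?_⟩
      rw [eval_one]
      exact ⟨fun h => absurd h (hsmallp i l hl hlY hlL t), fun h => absurd h one_ne_zero⟩
    · have hlW : ¬ (l : ℤ) ∣ (W : ℤ) := fun h => hlL ((hLW l hl).1 h)
      have hG' := hlG l hl hlY
      have hμ' := hlμ l hl hlY hlL
      have hh' : ∀ h : ℤ, 1 ≤ h → h ≤ m → ¬ (l : ℤ) ∣ h := by
        intro h h1 h2 h3
        have h4 := Int.le_of_dvd (by omega) h3
        omega
      rcases i with i | z | ⟨p, j⟩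
      · have hi := i.2
        exact largeQ G W (((i : ℕ) : ℤ) + 1) Lp D B0 μ Cp l hl hG'
          (hh' _ (by omega) (by omega)) hμ' hCp
      · exact largeS G W (x z) (y z) Lp D B0 μ Cp l hl hG' hlW hμ' (hxyl z l hl) hCp
      · exact largeN (g j) a b G W (hf p) (x p.1.2) (y p.1.2) (d p : ℕ) Lp D B0 μ Cp
          (fun t => nf t p) l hl (hgne j l hl) hWL hG' (hh' _ (hfm p).1 (hfm p).2) hlW hμ'
          (hdr p l hl hlY) (hxyl p.1.2 l hl) hCp (fun t => (halg t p).1)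
  have hsmall : ∀ i, ∀ l : ℕ, l.Prime → l ≤ Y → l ≤ 2 * k → ∀ t : ℕ, ¬ (l : ℤ) ∣ v i t := by
    intro i l hl hlY hlk t
    exact hsmallp i l hl hlY (Int.natCast_dvd_natCast.2 (hKL l hl hlk)) t
  have hfin := hCs _ v e Y hY2 hsum hlarge hsmall (Y ^ Cs) le_rfl
  have hpos : 0 < Y ^ Cs := by positivity
  obtain ⟨t, ht⟩ : ((range (Y ^ Cs)).filter (fun t => ∀ i, Rough Y (v i t))).Nonempty := by
    rw [← Finset.card_pos]
    by_contra h
    have : ((range (Y ^ Cs)).filter (fun t => ∀ i, Rough Y (v i t))).card = 0 := by omega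
    rw [this] at hfin
    omega
  rw [mem_filter, mem_range] at ht
  obtain ⟨htT, htr⟩ := ht
  -- sizes
  have hBlo : (W : ℤ) * G ≤ B0 + t * μ := by
    have h1 : (0 : ℤ) ≤ t * μ := by positivity
    have h2 : (W : ℤ) * G ≤ μ := by
      rw [hμ]
      have hP1 : (1 : ℤ) ≤ P := hPz
      have h3 : (0 : ℤ) < W * G := by positivity
      nlinarith
    linarith
  set β : ℕ := (Y ^ Cs + 2) * (W * P) with hβ
  have hBhi : B0 + t * μ ≤ (β : ℤ) * G := by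
    have h1 : (t : ℤ) ≤ (Y : ℤ) ^ Cs := by exact_mod_cast htT.le
    have h2 := mul_le_mul_of_nonneg_right h1 hμ0.le
    have h3 : (β : ℤ) * G = ((Y : ℤ) ^ Cs + 2) * μ := by
      rw [hβ, hμ]; push_cast; ring
    rw [h3]
    linarith
  have hβE : β ≤ Y ^ E := by
    have h1 : P ≤ Y ^ (Bd * (m * Fintype.card Z)) := by
      calc P ≤ ∏ _p : I, Y ^ Bd := prod_le_prod' fun p _ => (hdy p).trans (hxy p.1.2).2.1
        _ = (Y ^ Bd) ^ Fintype.card I := by rw [prod_const, Finset.card_univ]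
        _ ≤ (Y ^ Bd) ^ (m * Fintype.card Z) := by
          refine Nat.pow_le_pow_right (by positivity) ?_
          refine (Fintype.card_subtype_le _).trans ?_
          rw [Fintype.card_prod, Fintype.card_fin]
        _ = Y ^ (Bd * (m * Fintype.card Z)) := by rw [← pow_mul]
    exact bound_beta Y W P Cs (Bd * (m * Fintype.card Z)) hY2 hWY h1
  obtain ⟨-, -, hB0', -, hCp0, -⟩ := pos_qS a Lp G (B0 + t * μ) (Cp t) W D Y ha hLpz hWL hYGz hDY
    hBlo (hCp t)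
  refine ⟨fun i => qf i t, fun z => Sf z t, fun i => ⟨?_, htr (Sum.inl i)⟩,
    fun z => ⟨?_, htr (Sum.inr (Sum.inl z))⟩, ?_⟩
  · simp only [qf]
    positivity
  · have hxz : (0 : ℤ) < x z := by exact_mod_cast (hxy z).1
    have hyz : (0 : ℤ) ≤ y z := by positivity
    simp only [Sf]
    positivity
  · intro i z hiz
    let p : I := ⟨(i, z), hiz⟩
    have hA := halg t p
    have hxz : (0 : ℤ) < x z := by exact_mod_cast (hxy z).1
    have hxyz : 2 * (W : ℤ) * m * x z ≤ y z := by exact_mod_cast (hxy z).2.2.2.2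
    obtain ⟨hn1, hn2⟩ := bound_n a b Lp G (B0 + t * μ) (Cp t) W D Y (hf p) (x z) (y z) (d p : ℕ)
      m (nf t p) β ha hLpz hWL hYGz hDY hbY hBlo (hCp t) (hfm p).1 (hfm p).2 hxz hxyz (hdc p)
      hBhi (by positivity) hA.1
    refine ⟨nf t p, ⟨q' t p, hq' t p⟩, hdS t p, hn1, ?_, hA.2.1,
      fun j => htr (Sum.inr (Sum.inr (p, j))), hA.2.2⟩
    refine hn2.trans ?_
    refine mul_le_mul_of_nonneg_right ?_ hGz.le
    have := bound_pow Y (y z) m β Bd E hY2 (hxy z).2.1 hmY hβE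
    exact_mod_cast this

end Pool.Agent.TH423.PO
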