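import Pool.Agent.TH423.PO.All
import Pool.Agent.TH423.PO.QCT
import Pool.Agent.TH423.PO.QFA
import Pool.Agent.TH423.PO.MainQ

/-! The theorem on quadratic polynomials (helper423). -/

namespace Pool.Agent.TH423.PO

theorem qct_all : QCT := qct ccp_all qfa

end Pool.Agent.TH423.PO
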