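import Pool.Agent.TH423.SH.MS
import Pool.Agent.H661R3.OP.Defs

/-!
Statements for all classes of Omega modulo k (helper423).
-/

set_option autoImplicit false

open Finset

namespace Pool.Agent.TH423.PO

open Pool.Agent.H661R3.OP (Rough)
open Pool.Agent.TH423.SH (dd)

/-- (CCP) columns for all left colourings: `A` is the set of the left colours, `B` the set of the right
colours, `w a β` the class modulo `k` of `Ω(d)` wanted for the left colour `a` and the right colour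
`β`. The columns are indexed by the colourings `z : Fin m → A` of the rows. -/
def CCP : Prop := ∀ (k M : ℕ), 1 ≤ k → 1 ≤ M → ∀ (A B : Type) [Fintype A] [Fintype B],
  ∃ m W₀ : ℕ, 1 ≤ m ∧ 1 ≤ W₀ ∧ ∀ W : ℕ, W₀ ∣ W → 1 ≤ W → ∃ Bd Y₀ : ℕ, 1 ≤ Bd ∧ ∀ Y : ℕ, Y₀ ≤ Y →
    ∀ w : A → B → ZMod k, ∃ (x y : (Fin m → A) → ℕ) (u : (Fin m → A) → B → Fin m),
      (∀ z, 0 < x z ∧ y z ≤ Y ^ Bd ∧ y z % W = 1 % W ∧ (x z).Coprime (y z) ∧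
        2 * W * m * x z ≤ y z) ∧
      (∀ z β, Squarefree (dd W (x z) (y z) (u z β)) ∧
        ((ArithmeticFunction.cardFactors (dd W (x z) (y z) (u z β)) : ℕ) : ZMod k) =
          w (z (u z β)) β ∧
        ∀ q : ℕ, q.Prime → q ∣ dd W (x z) (y z) (u z β) → q % M = 1 % M ∧ Y < q) ∧
      (∀ z β z' β', (u z β, z) ≠ (u z' β', z') →
        (dd W (x z) (y z) (u z β)).Coprime (dd W (x z') (y z') (u z' β')))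

/-- (ST1) the first stage: rough rows and columns -/
def ST1 : Prop := ∀ (m : ℕ) (Z : Type) [Fintype Z] (a₁ a₂ W₂ Bd : ℕ), 1 ≤ a₁ → 1 ≤ a₂ → 1 ≤ W₂ →
  a₁ ∣ W₂ → a₂ ∣ W₂ →
  (∀ p : ℕ, p.Prime → p ≤ 2 * (m + Fintype.card Z) → p ∣ W₂) → ∃ C Y₀ : ℕ, ∀ Y : ℕ, Y₀ ≤ Y →
    ∀ (x y : Z → ℕ) (U : Fin m → Z → Prop),
      (∀ z, 0 < x z ∧ y z ≤ Y ^ Bd ∧ y z % (a₁ * a₂ * W₂ ^ 2) = 1 % (a₁ * a₂ * W₂ ^ 2) ∧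
        (x z).Coprime (y z) ∧ 2 * (a₁ * a₂ * W₂ ^ 2) * m * x z ≤ y z) →
      (∀ i z, U i z → ∀ q : ℕ, q.Prime → q ∣ dd (a₁ * a₂ * W₂ ^ 2) (x z) (y z) i → Y < q) →
      (∀ i z i' z', U i z → U i' z' → (i, z) ≠ (i', z') →
        (dd (a₁ * a₂ * W₂ ^ 2) (x z) (y z) i).Coprime (dd (a₁ * a₂ * W₂ ^ 2) (x z') (y z') i')) →
      ∃ α : ℕ, Y ^ (3 * Bd) ≤ α ∧ α ≤ Y ^ C ∧ α % (a₁ * W₂) = 1 % (a₁ * W₂) ∧
        (∀ (i : Fin m) z, U i z →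
          dd (a₁ * a₂ * W₂ ^ 2) (x z) (y z) i ∣ α + a₁ * W₂ * ((i : ℕ) + 1)) ∧
        (∀ i : Fin m, Rough Y (α + a₁ * W₂ * ((i : ℕ) + 1) : ℕ)) ∧
        (∀ z, Rough Y (a₂ * α * W₂ * x z + y z : ℕ))

/-- the exceptional integers for two linear forms -/
def EX2 (k : ℕ) (a₁ a₂ b₁ b₂ : ℤ) {s : ℕ} (E E' : Fin s → ℤ) (v : ZMod k → ZMod k)
    (Y X : ℕ) : Set ℕ :=
  {n : ℕ | 1 ≤ n ∧ n ≤ X ∧ 0 < a₁ * n + b₁ ∧ 0 < a₂ * n + b₂ ∧ Rough Y (a₁ * n + b₁) ∧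
    Rough Y (a₂ * n + b₂) ∧ (∀ j, Rough Y (E j * n + E' j)) ∧ ∃ g : ZMod k,
    ((ArithmeticFunction.cardFactors (a₁ * n + b₁).natAbs : ℕ) : ZMod k) = v g + g ∧
    ((ArithmeticFunction.cardFactors (a₂ * n + b₂).natAbs : ℕ) : ZMod k) = v g}

/-- (TCT) two linear forms: one cannot miss a pair of classes `(v g + g, v g)` for every `g` -/
def TCT : Prop := ∀ k s a₁ a₂ : ℕ, 1 ≤ k → 1 ≤ a₁ → 1 ≤ a₂ → ∃ C Y₀ : ℕ, 2 ≤ Y₀ ∧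
  ∀ Y X : ℕ, Y₀ ≤ Y → Y ^ C ≤ X → ∀ (b₁ b₂ : ℤ) (E E' : Fin s → ℤ),
    |b₁| * (Y : ℤ) ^ C ≤ X → |b₂| * (Y : ℤ) ^ C ≤ X →
    (∀ p : ℕ, p.Prime → ∃ n : ℤ, ¬ (p : ℤ) ∣ a₁ * n + b₁ ∧ ¬ (p : ℤ) ∣ a₂ * n + b₂ ∧
      ∀ j, ¬ (p : ℤ) ∣ E j * n + E' j) →
    ∀ v : ZMod k → ZMod k, X ≤ Y ^ C * (EX2 k (a₁ : ℤ) a₂ b₁ b₂ E E' v Y X).ncard

/-- the exceptional representations for Goldbach's problem -/
def EXG (k : ℕ) (v : ZMod k → ZMod k) (Y N : ℕ) : Set ℕ :=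
  {x : ℕ | 1 ≤ x ∧ x < N ∧ Rough Y (x : ℤ) ∧ Rough Y ((N - x : ℕ) : ℤ) ∧ ∃ g : ZMod k,
    ((ArithmeticFunction.cardFactors x : ℕ) : ZMod k) = v g + g ∧
    ((ArithmeticFunction.cardFactors (N - x) : ℕ) : ZMod k) = v g}

/-- (GCT) Goldbach's problem: one cannot miss a pair of classes `(v g + g, v g)` for every `g` -/
def GCT : Prop := ∀ k : ℕ, 1 ≤ k → ∃ C Y₀ : ℕ, 2 ≤ Y₀ ∧
  ∀ Y N : ℕ, Y₀ ≤ Y → Y ^ C ≤ N → Even N → ∀ v : ZMod k → ZMod k,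
    N ≤ Y ^ C * (EXG k v Y N).ncard

end Pool.Agent.TH423.PO
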