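import Pool.Agent.TH423.PO.Stm

/-!
Statements for all classes of Omega modulo k, quadratic polynomials (helper423).
-/

set_option autoImplicit false

open Finset Polynomial

namespace Pool.Agent.TH423.PO

open Pool.Agent.H661R3.OP (Rough)
open Pool.Agent.TH423.SH (dd)

/-- (QFA) the family of values of a quadratic polynomial attached to rows and columns -/
def QFA : Prop := ∀ (a b c : ℤ) (s : ℕ) (g : Fin s → ℤ[X]) (m : ℕ) (Z : Type) [Fintype Z],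
  0 < a → b ^ 2 - 4 * a * c ≠ 0 → 1 ≤ m → Nonempty Z →
  (∀ j, ∀ p : ℕ, p.Prime → ∃ n : ℤ, ¬ (p : ℤ) ∣ (g j).eval n) → ∃ K : ℕ,
  ∀ (Lp W Bd : ℕ) (nst : ℤ), 1 ≤ Lp → (W : ℤ) = 4 * a * (Lp : ℤ) ^ 2 →
    (∀ p : ℕ, p.Prime → p ≤ K → p ∣ Lp) → (∀ p : ℕ, p.Prime → (p : ℤ) ∣ a → p ∣ Lp) →
    (∀ p : ℕ, p.Prime → p ∣ Lp → ¬ (p : ℤ) ∣ a * nst ^ 2 + b * nst + c ∧
      ∀ j, ¬ (p : ℤ) ∣ (g j).eval nst) →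
    ∃ C Y₀ : ℕ, ∀ Y : ℕ, Y₀ ≤ Y → ∀ (x y : Z → ℕ) (U : Fin m → Z → Prop),
      (∀ z, 0 < x z ∧ y z ≤ Y ^ Bd ∧ y z % W = 1 % W ∧ (x z).Coprime (y z) ∧
        2 * W * m * x z ≤ y z) →
      (∀ i z, U i z → Squarefree (dd W (x z) (y z) i) ∧
        ∀ q : ℕ, q.Prime → q ∣ dd W (x z) (y z) i → Y < q ∧
          ((4 * (b ^ 2 - 4 * a * c).natAbs : ℕ) : ℤ) ∣ (q : ℤ) - 1) →
      (∀ i z i' z', U i z → U i' z' → (i, z) ≠ (i', z') →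
        (dd W (x z) (y z) i).Coprime (dd W (x z') (y z') i')) →
      ∀ G : ℕ, G.Prime → (∀ z, y z < G) → Y < G →
        ((4 * (b ^ 2 - 4 * a * c).natAbs * W : ℕ) : ℤ) ∣ (G : ℤ) - 1 →
      ∃ (q : Fin m → ℤ) (S : Z → ℤ), (∀ i, 0 < q i ∧ Rough Y (q i)) ∧
        (∀ z, 0 < S z ∧ Rough Y (S z)) ∧ ∀ (i : Fin m) (z : Z), U i z →
        ∃ n : ℤ, ((dd W (x z) (y z) i : ℕ) : ℤ) ∣ q i ∧ ((dd W (x z) (y z) i : ℕ) : ℤ) ∣ S z ∧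
          1 ≤ n ∧ n ≤ (Y : ℤ) ^ C * G ∧
          (a * n ^ 2 + b * n + c) * (dd W (x z) (y z) i : ℤ) ^ 2 = q i * S z ∧
          (∀ j, Rough Y ((g j).eval n)) ∧
          (G : ℤ) * (dd W (x z) (y z) i : ℤ) ^ 2 = (y z : ℤ) ^ 2 * q i -
            2 * y z * ((i : ℕ) + 1 : ℤ) * (Lp * (2 * a * n + b) * (dd W (x z) (y z) i : ℤ)) +
            ((i : ℕ) + 1 : ℤ) ^ 2 * W * S z

/-- the exceptional integers for a quadratic polynomial -/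
def EXQ (k : ℕ) (a b c : ℤ) {s : ℕ} (g : Fin s → ℤ[X]) (d₀ d₁ : ZMod k) (Y X : ℕ) : Set ℕ :=
  {n : ℕ | 1 ≤ n ∧ n ≤ X ∧ 0 < a * (n : ℤ) ^ 2 + b * n + c ∧
    Rough Y (a * (n : ℤ) ^ 2 + b * n + c) ∧ (∀ j, Rough Y ((g j).eval (n : ℤ))) ∧
    (((ArithmeticFunction.cardFactors (a * (n : ℤ) ^ 2 + b * n + c).natAbs : ℕ) : ZMod k) =
        2 * d₀ ∨
      ((ArithmeticFunction.cardFactors (a * (n : ℤ) ^ 2 + b * n + c).natAbs : ℕ) : ZMod k) =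
        2 * d₁ + 1)}

/-- (QCT) quadratic polynomials: one cannot miss an even and an odd class -/
def QCT : Prop := ∀ (k : ℕ) (a b c : ℤ) (s : ℕ) (g : Fin s → ℤ[X]), 1 ≤ k → 0 < a →
  b ^ 2 - 4 * a * c ≠ 0 → (∀ p : ℕ, p.Prime → ∃ n : ℤ, ¬ (p : ℤ) ∣ a * n ^ 2 + b * n + c ∧
      ∀ j, ¬ (p : ℤ) ∣ (g j).eval n) →
  ∃ q C Y₀ N : ℕ, 0 < q ∧ 2 ≤ Y₀ ∧ ∀ Y Z X : ℕ, Y₀ ≤ Y → Y ^ C ≤ Z → Y ^ C * Z ≤ X →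
    ∀ d₀ d₁ : ZMod k, ∃ Φ : Fin N → ℕ → ℕ → ℤ, ∀ G : ℕ, G.Prime → Z < G → G ≤ 2 * Z →
      (q : ℤ) ∣ (G : ℤ) - 1 → ∃ n ∈ EXQ k a b c g d₀ d₁ Y X, ∃ (j : Fin N) (δ : ℕ),
        δ ∣ (a * (n : ℤ) ^ 2 + b * n + c).natAbs ∧ (G : ℤ) = Φ j n δ

end Pool.Agent.TH423.PO
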