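import Pool.Agent.TH423.PO.TSize
import Pool.Agent.TH423.DS.Arith

/-!
Membership in the exceptional set (helper423).
-/

set_option autoImplicit false

open Finset

namespace Pool.Agent.TH423.PO

open Pool.Agent.H661R3.OP (Rough)
open Pool.Agent.TH423.DS (Rough.mul Rough.of_mul_left)

theorem memT {k : ℕ} {a₁ a₂ b₁ b₂ : ℤ} {s : ℕ} {E E' : Fin s → ℤ} {v : ZMod k → ZMod k}
    {Y X : ℕ} {L R d L' R' : ℕ} {n S T : ℤ} (hd : 0 < d) (hL : L = d * L') (hR : R = d * R')
    (hL0 : 0 < L) (hR0 : 0 < R)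
    (hn1 : a₁ * n + b₁ = L' * S) (hn2 : a₂ * n + b₂ = R' * T) (hS : 0 < S) (hT : 0 < T)
    (hLr : Rough Y (L : ℤ)) (hRr : Rough Y (R : ℤ)) (hSr : Rough Y S) (hTr : Rough Y T)
    (hE : ∀ j, Rough Y (E j * n + E' j)) (hn : 1 ≤ n) (hnX : n ≤ X)
    (hω : ((ArithmeticFunction.cardFactors d : ℕ) : ZMod k) =
      ((ArithmeticFunction.cardFactors T.natAbs : ℕ) : ZMod k) +
      ((ArithmeticFunction.cardFactors R : ℕ) : ZMod k) -
      v (((ArithmeticFunction.cardFactors L : ℕ) : ZMod k) +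
        ((ArithmeticFunction.cardFactors S.natAbs : ℕ) : ZMod k) -
        ((ArithmeticFunction.cardFactors T.natAbs : ℕ) : ZMod k) -
        ((ArithmeticFunction.cardFactors R : ℕ) : ZMod k))) :
    n.toNat ∈ EX2 k a₁ a₂ b₁ b₂ E E' v Y X := by
  have hnn : ((n.toNat : ℕ) : ℤ) = n := Int.toNat_of_nonneg (by linarith)
  have hL'0 : 0 < L' := Nat.pos_of_ne_zero (by rintro rfl; simp at hL; omega)
  have hR'0 : 0 < R' := Nat.pos_of_ne_zero (by rintro rfl; simp at hR; omega)
  have hL'z : (0 : ℤ) < L' := by exact_mod_cast hL'0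
  have hR'z : (0 : ℤ) < R' := by exact_mod_cast hR'0
  have hL'r : Rough Y (L' : ℤ) := by
    have : (L : ℤ) = L' * d := by rw [hL]; push_cast; ring
    rw [this] at hLr
    exact Rough.of_mul_left hLr
  have hR'r : Rough Y (R' : ℤ) := by
    have : (R : ℤ) = R' * d := by rw [hR]; push_cast; ring
    rw [this] at hRr
    exact Rough.of_mul_left hRr
  have hSn : S.natAbs ≠ 0 := Int.natAbs_ne_zero.mpr hS.ne'
  have hTn : T.natAbs ≠ 0 := Int.natAbs_ne_zero.mpr hT.ne'
  have hΩL : ArithmeticFunction.cardFactors L =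
      ArithmeticFunction.cardFactors d + ArithmeticFunction.cardFactors L' := by
    rw [hL, ArithmeticFunction.cardFactors_mul hd.ne' hL'0.ne']
  have hΩR : ArithmeticFunction.cardFactors R =
      ArithmeticFunction.cardFactors d + ArithmeticFunction.cardFactors R' := by
    rw [hR, ArithmeticFunction.cardFactors_mul hd.ne' hR'0.ne']
  refine ⟨by omega, by omega, ?_, ?_, ?_, ?_, fun j => ?_, ?_⟩
  · rw [hnn, hn1]; positivity
  · rw [hnn, hn2]; positivity
  · rw [hnn, hn1]; exact Rough.mul hL'r hSr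
  · rw [hnn, hn2]; exact Rough.mul hR'r hTr
  · rw [hnn]; exact hE j
  · refine ⟨((ArithmeticFunction.cardFactors L : ℕ) : ZMod k) +
        ((ArithmeticFunction.cardFactors S.natAbs : ℕ) : ZMod k) -
        ((ArithmeticFunction.cardFactors T.natAbs : ℕ) : ZMod k) -
        ((ArithmeticFunction.cardFactors R : ℕ) : ZMod k), ?_, ?_⟩
    · rw [hnn, hn1, Int.natAbs_mul, Int.natAbs_natCast,
        ArithmeticFunction.cardFactors_mul hL'0.ne' hSn]
      rw [hΩL] at hω ⊢
      push_cast at hω ⊢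
      linear_combination (-1 : ZMod k) * hω
    · rw [hnn, hn2, Int.natAbs_mul, Int.natAbs_natCast,
        ArithmeticFunction.cardFactors_mul hR'0.ne' hTn]
      rw [hΩR] at hω ⊢
      push_cast at hω ⊢
      linear_combination (-1 : ZMod k) * hω

end Pool.Agent.TH423.PO
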