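import Pool.Agent.TH423.PO.Stm

/-!
The algebra for two linear forms (helper423).
-/

set_option autoImplicit false

open Finset

namespace Pool.Agent.TH423.PO

/-- the algebra behind a pair (row, column) -/
theorem pairT {a₁ a₂ b₁ b₂ W₂ α x y h d L' R' nst al' y' : ℤ} (ha₁ : a₁ ≠ 0) (hd0 : d ≠ 0)
    (hα : α = 1 + a₁ * W₂ * al') (hy : y = 1 + a₁ * a₂ * W₂ ^ 2 * y')
    (hd : d = y - a₁ * a₂ * W₂ ^ 2 * h * x) (hL : α + a₁ * W₂ * h = d * L')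
    (hR : a₂ * α * W₂ * x + y = d * R') :
    ∃ n₀ : ℤ, W₂ ∣ n₀ - nst ∧ ∀ t : ℤ,
      a₁ * (n₀ + L' * (d * R') * W₂ * t) + b₁ =
        L' * ((d * R') * (a₁ * (nst + W₂ * t) + b₁) - W₂ * x * (a₂ * b₁ - a₁ * b₂)) ∧
      a₂ * (n₀ + L' * (d * R') * W₂ * t) + b₂ =
        R' * (a₂ * nst + b₂ + a₂ * W₂ * (al' + h) * (a₁ * nst + b₁) +
          a₂ * (d * L') * W₂ * t) := by
  obtain ⟨l, hl⟩ : ∃ l : ℤ, l = al' + h - a₂ * W₂ * (y' - h * x) * L' := ⟨_, rfl⟩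
  have hL'1 : L' = 1 + a₁ * W₂ * l := by
    rw [hl]
    linear_combination -hL + hα - L' * (hd + hy)
  obtain ⟨δs, hδs⟩ : ∃ δs : ℤ, δs = a₁ * nst + b₁ := ⟨_, rfl⟩
  obtain ⟨Δ, hΔ⟩ : ∃ Δ : ℤ, Δ = a₂ * b₁ - a₁ * b₂ := ⟨_, rfl⟩
  obtain ⟨R, hRd⟩ : ∃ R : ℤ, R = d * R' := ⟨_, rfl⟩
  obtain ⟨S, hS⟩ : ∃ S : ℤ, S = R * δs - W₂ * x * Δ := ⟨_, rfl⟩
  obtain ⟨ρ, hρ⟩ : ∃ ρ : ℤ, ρ = a₂ * W₂ * (al' * x + y') := ⟨_, rfl⟩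
  have hR1 : R = 1 + a₂ * W₂ * x + a₁ * W₂ * ρ := by
    rw [hRd, ← hR, hα, hy, hρ]; ring
  have hS1 : S = δs + a₁ * W₂ * (x * (a₂ * nst + b₂) + ρ * δs) := by
    rw [hS, hR1, hΔ, hδs]; ring
  have hR'1 : R' = 1 + a₂ * W₂ * x * L' := by
    have : d * R' = d * (1 + a₂ * W₂ * x * L') := by
      linear_combination -hR - hd + a₂ * W₂ * x * hL
    exact mul_left_cancel₀ hd0 this
  have hLd : d * L' = 1 + a₁ * W₂ * (al' + h) := by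
    linear_combination -hL + hα
  refine ⟨nst + W₂ * (x * (a₂ * nst + b₂) + ρ * δs + l * S),
    ⟨x * (a₂ * nst + b₂) + ρ * δs + l * S, by ring⟩, fun t => ?_⟩
  have h1 : a₁ * (nst + W₂ * (x * (a₂ * nst + b₂) + ρ * δs + l * S)) + b₁ = L' * S := by
    linear_combination -hδs - hS1 - S * hL'1
  obtain ⟨n, hn⟩ : ∃ n : ℤ, n = nst + W₂ * (x * (a₂ * nst + b₂) + ρ * δs + l * S) +
    L' * (d * R') * W₂ * t := ⟨_, rfl⟩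
  rw [← hn]
  have h2 : a₁ * n + b₁ =
      L' * ((d * R') * (a₁ * (nst + W₂ * t) + b₁) - W₂ * x * (a₂ * b₁ - a₁ * b₂)) := by
    rw [hn]
    linear_combination h1 + L' * hS + L' * R * hδs - L' * W₂ * x * hΔ +
      (L' * (a₁ * nst + b₁)) * hRd
  refine ⟨h2, ?_⟩
  apply mul_left_cancel₀ ha₁
  linear_combination a₂ * h2 + (a₂ * b₁ - a₁ * b₂) * hR'1 + R' * a₂ * (a₁ * nst + b₁) * hLd

end Pool.Agent.TH423.PO
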