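import Pool.Agent.TH423.PO.TPair
import Pool.Agent.TH423.DF.Count

/-!
Sizes for two linear forms (helper423).
-/

set_option autoImplicit false

open Finset

namespace Pool.Agent.TH423.PO

open Pool.Agent.H661R3.OP (Rough)

theorem szS {R w δ Δ T : ℤ} (hw : 0 ≤ w) (hwR : w ≤ R) (hR1 : 1 ≤ R) (hδ : T ≤ δ)
    (hΔ : 4 * |Δ| ≤ T) (hT : 1 ≤ T) : 3 * T ≤ 4 * (R * δ - w * Δ) := by
  have h0 := abs_nonneg Δ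
  have h1 : w * Δ ≤ w * |Δ| := mul_le_mul_of_nonneg_left (le_abs_self Δ) hw
  have h2 : w * |Δ| ≤ R * |Δ| := mul_le_mul_of_nonneg_right hwR h0
  have h3 : 0 ≤ δ - |Δ| := by linarith
  have h4 : 1 * (δ - |Δ|) ≤ R * (δ - |Δ|) := mul_le_mul_of_nonneg_right hR1 h3
  nlinarith

theorem szSup {R w P δ Δ T : ℤ} (hw : 0 ≤ w) (hwP : w ≤ P) (hR : 0 ≤ R) (hRP : R ≤ P)
    (hP : 1 ≤ P) (hδ0 : 0 ≤ δ) (hδ : δ ≤ 3 * P * T) (hΔ : 4 * |Δ| ≤ T) (hT : 1 ≤ T) :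
    R * δ - w * Δ ≤ 4 * P ^ 2 * T := by
  have h0 := abs_nonneg Δ
  have h1 : -(w * Δ) ≤ w * |Δ| := by
    have := mul_le_mul_of_nonneg_left (neg_abs_le Δ) hw
    linarith
  have h2 : w * |Δ| ≤ P * |Δ| := mul_le_mul_of_nonneg_right hwP h0
  have h3 : R * δ ≤ P * (3 * P * T) := mul_le_mul hRP hδ hδ0 (by linarith)
  have h4 : P * |Δ| ≤ P * T := mul_le_mul_of_nonneg_left (by linarith) (by linarith)
  have h5 : P * T ≤ P ^ 2 * T := mul_le_mul_of_nonneg_right (by nlinarith) (by linarith)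
  nlinarith

theorem szn {a b n L S T P : ℤ} (ha : 1 ≤ a) (hL : 1 ≤ L) (hLP : L ≤ P) (hS : 3 * T ≤ 4 * S)
    (hSup : S ≤ 4 * P ^ 2 * T) (hb : 4 * |b| ≤ T) (haT : 4 * a ≤ T) (h : a * n + b = L * S) :
    1 ≤ n ∧ n ≤ 5 * P ^ 3 * T := by
  have hT : 4 ≤ T := by linarith
  have hS0 : 0 < S := by linarith
  have hb1 := le_abs_self b
  have hb2 := neg_abs_le b
  have h1 : 1 * S ≤ L * S := mul_le_mul_of_nonneg_right hL hS0.le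
  have h2 : L * S ≤ P * (4 * P ^ 2 * T) := mul_le_mul hLP hSup hS0.le (by linarith)
  have hn0 : 1 ≤ n := by
    by_contra hcon
    push Not at hcon
    have : a * n ≤ 0 := by nlinarith
    linarith
  refine ⟨hn0, ?_⟩
  have h3 : 1 * n ≤ a * n := mul_le_mul_of_nonneg_right ha (by linarith)
  have hP1 : 1 ≤ P := hL.trans hLP
  have h4 : (1 : ℤ) ≤ P ^ 3 := one_le_pow₀ hP1
  have h5 : 1 * T ≤ P ^ 3 * T := mul_le_mul_of_nonneg_right h4 (by linarith)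
  nlinarith

theorem num8 {Y T : ℤ} (hY : 16 ≤ Y) (hT : Y ^ 8 ≤ T) : 1 ≤ T ∧ 16 * Y ^ 2 ≤ T ∧ 8 * Y ≤ Y ^ 8 := by
  have e1 : (16 : ℤ) ≤ Y ^ 6 := by
    calc (16 : ℤ) ≤ Y := hY
      _ = Y ^ 1 := (pow_one _).symm
      _ ≤ Y ^ 6 := pow_le_pow_right₀ (by linarith) (by norm_num)
  have e2 : Y ^ 8 = Y ^ 6 * Y ^ 2 := by ring
  have e3 : 16 * Y ^ 2 ≤ Y ^ 6 * Y ^ 2 := mul_le_mul_of_nonneg_right e1 (sq_nonneg Y)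
  have e4 : 8 * Y ≤ 16 * Y ^ 2 := by nlinarith
  refine ⟨by nlinarith, by linarith, by linarith⟩

theorem numb {b Y T : ℤ} (hY : 16 ≤ Y) (hT : Y ^ 8 ≤ T) (hb : |b| * Y ^ 8 ≤ T) :
    4 * |b| ≤ T ∧ |b| * (8 * Y) ≤ T := by
  obtain ⟨h1, h2, h3⟩ := num8 hY hT
  have h0 := abs_nonneg b
  have h4 : |b| * (8 * Y) ≤ |b| * Y ^ 8 := mul_le_mul_of_nonneg_left h3 h0
  have h5 : |b| * 4 ≤ |b| * (8 * Y) := mul_le_mul_of_nonneg_left (by linarith) h0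
  constructor <;> linarith

theorem numΔ {a₁ a₂ b₁ b₂ Y T : ℤ} (hY : 16 ≤ Y) (hT : Y ^ 8 ≤ T) (ha₁ : 1 ≤ a₁) (ha₂ : 1 ≤ a₂)
    (ha₁Y : a₁ ≤ Y) (ha₂Y : a₂ ≤ Y) (hb₁ : |b₁| * Y ^ 8 ≤ T) (hb₂ : |b₂| * Y ^ 8 ≤ T) :
    4 * |a₂ * b₁ - a₁ * b₂| ≤ T := by
  have h1 := (numb hY hT hb₁).2
  have h2 := (numb hY hT hb₂).2
  have h01 := abs_nonneg b₁
  have h02 := abs_nonneg b₂
  have e1 : |a₂ * b₁ - a₁ * b₂| ≤ Y * |b₁| + Y * |b₂| := by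
    calc |a₂ * b₁ - a₁ * b₂| ≤ |a₂ * b₁| + |a₁ * b₂| := abs_sub _ _
      _ = a₂ * |b₁| + a₁ * |b₂| := by
          rw [abs_mul, abs_mul, abs_of_nonneg (by linarith : (0 : ℤ) ≤ a₂),
            abs_of_nonneg (by linarith : (0 : ℤ) ≤ a₁)]
      _ ≤ Y * |b₁| + Y * |b₂| := by gcongr
  nlinarith

theorem numδ {a W n0 t T P : ℤ} (ha : 1 ≤ a) (hW : 1 ≤ W) (h0 : 0 ≤ n0) (h1 : n0 < a * W)
    (ht1 : T ≤ t) (ht2 : t < T + T) (hT : 1 ≤ T) (haW : a * W ≤ P) :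
    T ≤ n0 + a * W * t ∧ n0 + a * W * t ≤ 3 * P * T := by
  have haW1 : 1 ≤ a * W := by nlinarith
  have e0 : 1 * t ≤ a * W * t := mul_le_mul_of_nonneg_right haW1 (by linarith)
  have e2 : a * W * t ≤ a * W * (2 * T) := mul_le_mul_of_nonneg_left (by linarith) (by linarith)
  have e3 : a * W ≤ a * W * T := le_mul_of_one_le_right (by linarith) hT
  have e4 : a * W * T ≤ P * T := mul_le_mul_of_nonneg_right haW (by linarith)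
  constructor
  · linarith
  · nlinarith

theorem numT {a₁ a₂ L δ Δ T Tt : ℤ} (ha₁ : 1 ≤ a₁) (ha₂ : 1 ≤ a₂) (hL : 1 ≤ L) (hδ : T ≤ δ)
    (hΔ : 4 * |Δ| ≤ T) (hT : 1 ≤ T) (h : a₁ * Tt = a₂ * L * δ - Δ) : 0 < Tt := by
  have e0 := abs_nonneg Δ
  have e1 : 1 ≤ a₂ * L := by nlinarith
  have e3 : 1 * δ ≤ a₂ * L * δ := mul_le_mul_of_nonneg_right e1 (by linarith)
  have e4 : 0 < a₁ * Tt := by
    rw [h]
    have := le_abs_self Δ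
    linarith
  exact (mul_pos_iff_of_pos_left (by linarith)).1 e4

theorem numLf {α a₁ W₂ i Y C₁ C₂ : ℕ} (hY : 2 ≤ Y) (ha : a₁ ≤ Y) (hW : W₂ ≤ Y) (hi : i + 1 ≤ Y)
    (hα : α ≤ Y ^ C₁) (hC : C₁ + 4 ≤ C₂) : α + a₁ * W₂ * (i + 1) ≤ Y ^ C₂ := by
  have hY1 : 1 ≤ Y := by omega
  have e1 : a₁ * W₂ * (i + 1) ≤ Y ^ 3 := by
    calc a₁ * W₂ * (i + 1) ≤ Y * Y * Y := Nat.mul_le_mul (Nat.mul_le_mul ha hW) hi
      _ = Y ^ 3 := by ring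
  have e2 : Y ^ C₁ ≤ Y ^ (C₁ + 3) := Nat.pow_le_pow_right hY1 (by omega)
  have e3 : Y ^ 3 ≤ Y ^ (C₁ + 3) := Nat.pow_le_pow_right hY1 (by omega)
  calc α + a₁ * W₂ * (i + 1) ≤ 2 * Y ^ (C₁ + 3) := by omega
    _ ≤ Y * Y ^ (C₁ + 3) := Nat.mul_le_mul_right _ hY
    _ = Y ^ (C₁ + 4) := by ring
    _ ≤ Y ^ C₂ := Nat.pow_le_pow_right hY1 hC

theorem numRf {α a₂ W₂ x y Y C₁ C₂ Bd : ℕ} (hY : 2 ≤ Y) (ha : a₂ ≤ Y) (hW : W₂ ≤ Y) (hxy : x ≤ y)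
    (hy : y ≤ Y ^ Bd) (hα : α ≤ Y ^ C₁) (hC : C₁ + Bd + 3 ≤ C₂) :
    a₂ * α * W₂ * x + y ≤ Y ^ C₂ := by
  have hY1 : 1 ≤ Y := by omega
  have e1 : a₂ * α * W₂ * x ≤ Y ^ (C₁ + Bd + 2) := by
    calc a₂ * α * W₂ * x ≤ Y * Y ^ C₁ * Y * Y ^ Bd :=
          Nat.mul_le_mul (Nat.mul_le_mul (Nat.mul_le_mul ha hα) hW) (hxy.trans hy)
      _ = Y ^ (C₁ + Bd + 2) := by ring
  have e2 : y ≤ Y ^ (C₁ + Bd + 2) := hy.trans (Nat.pow_le_pow_right hY1 (by omega))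
  calc a₂ * α * W₂ * x + y ≤ 2 * Y ^ (C₁ + Bd + 2) := by omega
    _ ≤ Y * Y ^ (C₁ + Bd + 2) := Nat.mul_le_mul_right _ hY
    _ = Y ^ (C₁ + Bd + 3) := by ring
    _ ≤ Y ^ C₂ := Nat.pow_le_pow_right hY1 hC

theorem numX {X Y C₂ C₃ P T : ℕ} (hC : C₃ = 3 * C₂ + 1) (hP : P = Y ^ C₂) (hY : 5 ≤ Y)
    (hTX : Y ^ C₃ * T ≤ X) : 5 * P ^ 3 * T ≤ X := by
  refine le_trans ?_ hTX
  apply Nat.mul_le_mul_right
  rw [hP, hC, pow_succ Y (3 * C₂), ← pow_mul, mul_comm C₂ 3, mul_comm 5]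
  exact Nat.mul_le_mul_left _ hY

theorem numTb {b : ℤ} {X Y C₃ CS T : ℕ} (hY : 1 ≤ Y) (hT : T = X / Y ^ C₃)
    (hb : |b| * (Y : ℤ) ^ (C₃ + CS + 8) ≤ X) : |b| * (Y : ℤ) ^ 8 ≤ T := by
  have e1 : b.natAbs * Y ^ (C₃ + CS + 8) ≤ X := by
    zify
    exact_mod_cast hb
  have e2 : b.natAbs * Y ^ 8 ≤ T := by
    rw [hT, Nat.le_div_iff_mul_le (pow_pos hY _)]
    refine le_trans ?_ e1
    rw [mul_assoc, ← pow_add]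
    exact Nat.mul_le_mul_left _ (Nat.pow_le_pow_right hY (by omega))
  zify at e2
  exact_mod_cast e2

/-- the final count -/
theorem numFin {X Y C₃ CS T N m NZ : ℕ} (hY : 1 ≤ Y) (hT : T = X / Y ^ C₃) (hT1 : 1 ≤ T)
    (hm : 2 * (m * NZ) ≤ Y) (h : T ≤ Y ^ CS * (m * NZ * N)) : X ≤ Y ^ (C₃ + CS + 8) * N := by
  have h1 : X < Y ^ C₃ * (T + 1) := by
    rw [hT]; exact Nat.lt_mul_div_succ X (pow_pos hY _)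
  calc X ≤ Y ^ C₃ * (T + 1) := h1.le
    _ ≤ Y ^ C₃ * (2 * T) := Nat.mul_le_mul_left _ (by omega)
    _ ≤ Y ^ C₃ * (2 * (Y ^ CS * (m * NZ * N))) :=
        Nat.mul_le_mul_left _ (Nat.mul_le_mul_left _ h)
    _ = Y ^ (C₃ + CS) * ((2 * (m * NZ)) * N) := by ring
    _ ≤ Y ^ (C₃ + CS) * (Y ^ 8 * N) := by
        apply Nat.mul_le_mul_left
        apply Nat.mul_le_mul_right
        calc 2 * (m * NZ) ≤ Y := hm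
          _ = Y ^ 1 := (pow_one Y).symm
          _ ≤ Y ^ 8 := Nat.pow_le_pow_right hY (by norm_num)
    _ = Y ^ (C₃ + CS + 8) * N := by ring

/-- a good residue class -/
theorem exists_n1 (W₂ : ℕ) (hW₂ : 1 ≤ W₂) (a₁ a₂ b₁ b₂ : ℤ) (ha₁ : 1 ≤ a₁) {s : ℕ}
    (E E' : Fin s → ℤ)
    (hadm : ∀ p : ℕ, p.Prime → ∃ n : ℤ, ¬ (p : ℤ) ∣ a₁ * n + b₁ ∧ ¬ (p : ℤ) ∣ a₂ * n + b₂ ∧
      ∀ j, ¬ (p : ℤ) ∣ E j * n + E' j) : ∃ nst : ℤ, 0 ≤ a₁ * nst + b₁ ∧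
    a₁ * nst + b₁ < a₁ * W₂ ∧
    ∀ p : ℕ, p.Prime → p ∣ W₂ → ¬ (p : ℤ) ∣ a₁ * nst + b₁ ∧ ¬ (p : ℤ) ∣ a₂ * nst + b₂ ∧
      ∀ j, ¬ (p : ℤ) ∣ E j * nst + E' j := by
  obtain ⟨n0, h1, h2, h3⟩ := Pool.Agent.TH423.DF.exists_n0 W₂ a₁ a₂ b₁ b₂ E E' hadm
  obtain ⟨c, hc⟩ : ∃ c : ℤ, c = (a₁ * n0 + b₁) / (a₁ * W₂) := ⟨_, rfl⟩
  have hWz : (1 : ℤ) ≤ W₂ := by exact_mod_cast hW₂
  have hpos : 0 < a₁ * (W₂ : ℤ) := by nlinarith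
  have hmod := Int.emod_add_mul_ediv (a₁ * n0 + b₁) (a₁ * W₂)
  have hmod0 := Int.emod_nonneg (a₁ * n0 + b₁) hpos.ne'
  have hmod1 := Int.emod_lt_of_pos (a₁ * n0 + b₁) hpos
  rw [← hc] at hmod
  have key : a₁ * (n0 - W₂ * c) + b₁ = (a₁ * n0 + b₁) % (a₁ * W₂) := by
    linear_combination -hmod
  refine ⟨n0 - W₂ * c, ?_, ?_, fun p hp hpW => ?_⟩
  · rw [key]; exact hmod0
  · rw [key]; exact hmod1
  · have hpW' : (p : ℤ) ∣ W₂ := by exact_mod_cast hpW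
    have hle : p ≤ W₂ := Nat.le_of_dvd (by omega) hpW
    have aux : ∀ a b : ℤ, ¬ (p : ℤ) ∣ a * n0 + b → ¬ (p : ℤ) ∣ a * (n0 - W₂ * c) + b := by
      intro a b h hd
      apply h
      have : a * n0 + b = (a * (n0 - W₂ * c) + b) + W₂ * (a * c) := by ring
      rw [this]
      exact dvd_add hd (hpW'.mul_right _)
    exact ⟨aux _ _ (h1 p hp hle), aux _ _ (h2 p hp hle), fun j => aux _ _ (h3 j p hp hle)⟩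

end Pool.Agent.TH423.PO
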